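import Pool.Agent.Helper294.Ore.Core
set_option autoImplicit false
set_option linter.all false

namespace H294Ore
open MonoidAlgebra



theorem Sp_mono' {Q : Type} [Group Q] {A B : Set Q} (h : A ⊆ B) : Sp A ≤ Sp B :=
  Submodule.span_mono (Set.image_mono h)

theorem el_mem_Sp {Q : Type} [Group Q] {A : Set Q} {w : Q} (h : w ∈ A) : el w ∈ Sp A :=
  Submodule.subset_span ⟨w, h, rfl⟩

theorem Pos.mem_Sp' {Q : Type} [Group Q] {A : Set Q} {a : GA Q} (ha : Pos A a) : a ∈ Sp A := by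
  induction ha with
  | sing w c hw hc =>
    have h1 : sg w c = c • el w := by
      rw [show el w = MonoidAlgebra.single w 1 from rfl, MonoidAlgebra.smul_single,
        smul_eq_mul, mul_one]
    rw [h1]
    exact (Sp A).smul_mem _ (el_mem_Sp hw)
  | add a b _ _ iha ihb => exact (Sp A).add_mem iha ihb

theorem Sp_mul' {Q : Type} [Group Q] {A B C : Set Q} (h : ∀ x ∈ A, ∀ y ∈ B, x * y ∈ C)
    {a b : GA Q} (ha : a ∈ Sp A) (hb : b ∈ Sp B) : a * b ∈ Sp C := by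
  unfold Sp at ha
  induction ha using Submodule.span_induction with
  | mem x hx =>
    obtain ⟨w, hw, rfl⟩ := hx
    unfold Sp at hb
    induction hb using Submodule.span_induction with
    | mem y hy =>
      obtain ⟨w', hw', rfl⟩ := hy
      rw [el_mul]
      exact el_mem_Sp (h w hw w' hw')
    | zero => rw [mul_zero]; exact (Sp C).zero_mem
    | add y z _ _ h1 h2 => rw [mul_add]; exact (Sp C).add_mem h1 h2
    | smul r y _ h1 => rw [mul_smul_comm]; exact (Sp C).smul_mem _ h1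
  | zero => rw [zero_mul]; exact (Sp C).zero_mem
  | add y z _ _ h1 h2 => rw [add_mul]; exact (Sp C).add_mem h1 h2
  | smul r y _ h1 => rw [smul_mul_assoc]; exact (Sp C).smul_mem _ h1

theorem approx_kill {Q : Type} [Group Q] (R : Subgroup Q) (hR : R.Normal) (hO : OreSub R)
    {A : Set Q} (hA : ∀ w ∈ A, ∀ r ∈ R, r * w ∈ A) {h : GA Q} (hh : Pos (R : Set Q) h)
    {e : GA Q} (he : e ∈ Sp A) :
    ∃ s c : GA Q, Pos (R : Set Q) s ∧ c ∈ Sp A ∧ s * e + c * h = 0 := by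
  have hRA : ∀ x ∈ (R : Set Q), ∀ y ∈ A, x * y ∈ A := fun x hx y hy => hA y hy x hx
  unfold Sp at he
  induction he using Submodule.span_induction with
  | mem x hx =>
    obtain ⟨w, hw, rfl⟩ := hx
    refine ⟨el w * h * el w⁻¹, -el w, Pos.conj hR w hh, (Sp A).neg_mem (el_mem_Sp hw), ?_⟩
    rw [mul_assoc (el w * h), el_inv_mul, mul_one, neg_mul, add_neg_cancel]
  | zero => exact ⟨1, 0, pos_one R, (Sp A).zero_mem, by simp⟩
  | add y z _ _ h1 h2 =>
    obtain ⟨s1, c1, p1, q1, e1⟩ := h1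
    obtain ⟨s2, c2, p2, q2, e2⟩ := h2
    obtain ⟨u1, u2, v1, v2, e3⟩ := hO s1 s2 p1 p2
    refine ⟨u1 * s1, u1 * c1 + u2 * c2, v1.mulN p1,
      (Sp A).add_mem (Sp_mul' hRA v1.mem_Sp' q1) (Sp_mul' hRA v2.mem_Sp' q2), ?_⟩
    calc u1 * s1 * (y + z) + (u1 * c1 + u2 * c2) * h
        = u1 * (s1 * y + c1 * h) + ((u1 * s1) * z + u2 * (c2 * h)) := by noncomm_ring
      _ = u1 * (s1 * y + c1 * h) + ((u2 * s2) * z + u2 * (c2 * h)) := by rw [e3]
      _ = u1 * (s1 * y + c1 * h) + u2 * (s2 * z + c2 * h) := by noncomm_ring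
      _ = 0 := by rw [e1, e2, mul_zero, mul_zero, add_zero]
  | smul r y _ h1 =>
    obtain ⟨s1, c1, p1, q1, e1⟩ := h1
    refine ⟨s1, r • c1, p1, (Sp A).smul_mem _ q1, ?_⟩
    rw [mul_smul_comm, smul_mul_assoc, ← smul_add, e1, smul_zero]

theorem approx {Q : Type} [Group Q] (R : Subgroup Q) (hR : R.Normal) (hO : OreSub R)
    (E : ℕ → Set Q) (D : Set Q)
    (hE1 : ∀ k, ∀ w ∈ E k, ∀ r ∈ R, r * w ∈ E k)
    (hED : ∀ k, ∀ w ∈ E k, ∀ d ∈ D, w * d ∈ E (k + 1)) (hD : D ⊆ E 1)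
    (h : GA Q) (hh : Pos (R : Set Q) h) (f1 g1 : GA Q) (hf : f1 = 0 ∨ Pos D f1) (hg : g1 = 0 ∨ Pos D g1)
    (k : ℕ) (hk : 1 ≤ k) :
    ∃ σ τ t e : GA Q, Pos (R : Set Q) σ ∧ τ ∈ Sp (⋃ j ≥ 1, E j) ∧ Pos (R : Set Q) t ∧ e ∈ Sp (E k) ∧
      (σ + τ) * (h + f1) = t * (h + g1) + e := by
  have hUR : ∀ x ∈ (R : Set Q), ∀ y ∈ (⋃ j ≥ 1, E j), x * y ∈ (⋃ j ≥ 1, E j) := by
    intro x hx y hy
    simp only [Set.mem_iUnion] at hy ⊢
    obtain ⟨j, hj, hy⟩ := hy
    exact ⟨j, hj, hE1 j y hy x hx⟩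
  have hfD : f1 ∈ Sp D := by
    rcases hf with rfl | hf
    · exact (Sp D).zero_mem
    · exact hf.mem_Sp'
  have hgD : g1 ∈ Sp D := by
    rcases hg with rfl | hg
    · exact (Sp D).zero_mem
    · exact hg.mem_Sp'
  induction k, hk using Nat.le_induction with
  | base =>
    refine ⟨1, 0, 1, f1 - g1, pos_one R, Submodule.zero_mem _, pos_one R,
      (Sp (E 1)).sub_mem (Sp_mono' hD hfD) (Sp_mono' hD hgD), ?_⟩
    rw [add_zero, one_mul, one_mul]
    abel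
  | succ k hk ih =>
    obtain ⟨σ, τ, t, e, hσ, hτ, ht, he, heq⟩ := ih
    obtain ⟨s, c, hs, hc, hsc⟩ := approx_kill R hR hO (hE1 k) hh he
    refine ⟨s * σ, s * τ + c, s * t, c * f1, hs.mulN hσ, ?_, hs.mulN ht,
      Sp_mul' (hED k) hc hfD, ?_⟩
    · refine Submodule.add_mem _ (Sp_mul' hUR hs.mem_Sp' hτ) (Sp_mono' ?_ hc)
      intro x hx
      simp only [Set.mem_iUnion]
      exact ⟨k, hk, hx⟩
    · calc (s * σ + (s * τ + c)) * (h + f1)
          = s * ((σ + τ) * (h + f1)) + (c * h + c * f1) := by noncomm_ring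
        _ = s * (t * (h + g1) + e) + (c * h + c * f1) := by rw [heq]
        _ = s * t * (h + g1) + (s * e + c * h) + c * f1 := by noncomm_ring
        _ = s * t * (h + g1) + c * f1 := by rw [hsc, add_zero]

end H294Ore
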