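import Pool.Agent.Helper294.Ore.Core
set_option autoImplicit false
set_option linter.all false

namespace H294Ore
open MonoidAlgebra



theorem CS.normal {Q : Type} [Group Q] {n : ℕ} (C : CS Q n) : ∀ i ≤ n, (C.c i).Normal := by
  intro i
  induction i with
  | zero => intro _; rw [C.c0]; infer_instance
  | succ i ih =>
    intro hi
    have hn : (C.c i).Normal := ih (by omega)
    have hcen := C.cent i (by omega)
    rw [C.step i (by omega)]
    refine ⟨fun y hy g => ?_⟩
    rw [Subgroup.mem_sup_of_normal_left] at hy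
    obtain ⟨a, ha, b, hb, rfl⟩ := hy
    obtain ⟨k, rfl⟩ := Subgroup.mem_zpowers_iff.1 hb
    have hmem : ∀ z ∈ C.c i, z ∈ C.c i ⊔ Subgroup.zpowers (C.x i) := fun z hz =>
      Subgroup.mem_sup_left hz
    have hx : C.x i ∈ C.c i ⊔ Subgroup.zpowers (C.x i) :=
      Subgroup.mem_sup_right (Subgroup.mem_zpowers _)
    have h1 : g * C.x i * g⁻¹ ∈ C.c i ⊔ Subgroup.zpowers (C.x i) := by
      have h2 := (C.c i).inv_mem (hcen g)
      have h3 : g * C.x i * g⁻¹ = (C.x i * g * (C.x i)⁻¹ * g⁻¹)⁻¹ * C.x i := by group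
      rw [h3]
      exact Subgroup.mul_mem _ (hmem _ h2) hx
    have h4 : g * (a * C.x i ^ k) * g⁻¹ = (g * a * g⁻¹) * (g * C.x i * g⁻¹) ^ k := by
      rw [conj_zpow]; group
    rw [h4]
    exact Subgroup.mul_mem _ (hmem _ (hn.conj_mem a ha g)) (Subgroup.zpow_mem _ h1 k)

theorem CS.mem_succ {Q : Type} [Group Q] {n : ℕ} (C : CS Q n) {i : ℕ} (hi : i < n) {y : Q}
    (hy : y ∈ C.c (i + 1)) : ∃ k : ℤ, y * (C.x i ^ k)⁻¹ ∈ C.c i := by
  have hn : (C.c i).Normal := C.normal i hi.le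
  rw [C.step i hi, Subgroup.mem_sup_of_normal_left] at hy
  obtain ⟨a, ha, b, hb, rfl⟩ := hy
  obtain ⟨k, rfl⟩ := Subgroup.mem_zpowers_iff.1 hb
  exact ⟨k, by simpa using ha⟩

theorem CS.exists_gen {Q : Type} [Group Q] {n : ℕ} (C : CS Q n) (R : Subgroup Q) {i : ℕ} (hi : i < n) :
    ∃ (κ : ℤ) (y : R), C.x i ^ κ * (y : Q)⁻¹ ∈ C.c i ∧
      ∀ (k : ℤ) (r : R), C.x i ^ k * (r : Q)⁻¹ ∈ C.c i → κ ∣ k := by
  have hn : (C.c i).Normal := C.normal i hi.le
  let π := QuotientGroup.mk' (C.c i)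
  have hπ : ∀ a b : Q, a * b⁻¹ ∈ C.c i ↔ π a = π b := by
    intro a b
    rw [← mul_inv_eq_one, ← map_inv, ← map_mul]
    exact (QuotientGroup.eq_one_iff _).symm
  let K : AddSubgroup ℤ :=
    { carrier := {k | ∃ r : R, π (C.x i ^ k) = π r}
      zero_mem' := ⟨1, by simp⟩
      add_mem' := by
        rintro a b ⟨r, hr⟩ ⟨s, hs⟩
        exact ⟨r * s, by rw [zpow_add, map_mul, hr, hs]; simp⟩
      neg_mem' := by
        rintro a ⟨r, hr⟩
        exact ⟨r⁻¹, by rw [zpow_neg, map_inv, hr]; simp⟩ }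
  obtain ⟨κ, hκ⟩ := Int.subgroup_cyclic K
  have hK : ∀ k, k ∈ K ↔ κ ∣ k := by
    intro k
    rw [hκ, ← AddSubgroup.zmultiples_eq_closure, Int.mem_zmultiples_iff]
  obtain ⟨y, hy⟩ : κ ∈ K := (hK κ).2 dvd_rfl
  refine ⟨κ, y, (hπ _ _).2 hy, ?_⟩
  intro k r hr
  exact (hK k).1 ⟨r, (hπ _ _).1 hr⟩

theorem cs_sub {Q : Type} [Group Q] {n : ℕ} (C : CS Q n) (R : Subgroup Q) (hR : R.Normal) (x : Q)
    (hx : ∀ k : ℤ, x ^ k ∈ R → k = 0) : ∃ C' : CS R n, C'.h < C.h := by
  classical
  have hgen : ∀ i, ∃ (κ : ℤ) (y : R), i < n → (C.x i ^ κ * (y : Q)⁻¹ ∈ C.c i ∧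
      ∀ (k : ℤ) (r : R), C.x i ^ k * (r : Q)⁻¹ ∈ C.c i → κ ∣ k) := by
    intro i
    by_cases hi : i < n
    · obtain ⟨κ, y, h⟩ := C.exists_gen R hi
      exact ⟨κ, y, fun _ => h⟩
    · exact ⟨0, 1, fun h => absurd h hi⟩
  choose κ y hκy using hgen
  have hπ : ∀ i, (hi : i < n) → ∀ a b : Q, haveI := C.normal i hi.le
      a * b⁻¹ ∈ C.c i ↔ QuotientGroup.mk' (C.c i) a = QuotientGroup.mk' (C.c i) b := by
    intro i hi a b
    haveI := C.normal i hi.le
    rw [← mul_inv_eq_one, ← map_inv, ← map_mul]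
    exact (QuotientGroup.eq_one_iff _).symm
  let C' : CS R n :=
    { c := fun i => (C.c i).subgroupOf R
      x := y
      c0 := by
        rw [C.c0]
        exact Subgroup.bot_subgroupOf R
      cn := by
        rw [C.cn]
        exact Subgroup.top_subgroupOf R
      step := by
        intro i hi
        haveI := C.normal i hi.le
        obtain ⟨hy1, hy2⟩ := hκy i hi
        apply le_antisymm
        · intro r hr
          rw [Subgroup.mem_subgroupOf] at hr
          obtain ⟨k, hk⟩ := C.mem_succ hi hr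
          have hk' := (hπ i hi _ _).1 hk
          have hkinv : C.x i ^ k * (r : Q)⁻¹ ∈ C.c i := (hπ i hi _ _).2 hk'.symm
          obtain ⟨m, hm⟩ := hy2 k r hkinv
          have h1 : QuotientGroup.mk' (C.c i) (r : Q) = QuotientGroup.mk' (C.c i) ((y i ^ m : R) : Q) := by
            rw [hk', hm, zpow_mul, map_zpow, (hπ i hi _ _).1 hy1]
            simp
          have h2 : (r * (y i ^ m)⁻¹ : R) ∈ (C.c i).subgroupOf R := by
            rw [Subgroup.mem_subgroupOf]
            have := (hπ i hi _ _).2 h1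
            simpa using this
          have h3 : r = (r * (y i ^ m)⁻¹) * y i ^ m := by group
          rw [h3]
          exact Subgroup.mul_mem _ (Subgroup.mem_sup_left h2)
            (Subgroup.mem_sup_right (Subgroup.mem_zpowers_iff.2 ⟨m, rfl⟩))
        · apply sup_le
          · intro r hr
            rw [Subgroup.mem_subgroupOf] at hr ⊢
            rw [C.step i hi]
            exact Subgroup.mem_sup_left hr
          · rw [Subgroup.zpowers_le, Subgroup.mem_subgroupOf, C.step i hi]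
            have h1 : (y i : Q) = (C.x i ^ κ i * (y i : Q)⁻¹)⁻¹ * C.x i ^ κ i := by group
            rw [h1]
            exact Subgroup.mul_mem _ (Subgroup.mem_sup_left (Subgroup.inv_mem _ hy1))
              (Subgroup.mem_sup_right (Subgroup.mem_zpowers_iff.2 ⟨_, rfl⟩))
      cent := by
        intro i hi w
        haveI := C.normal i hi.le
        obtain ⟨hy1, hy2⟩ := hκy i hi
        rw [Subgroup.mem_subgroupOf]
        have hcomm : ∀ g : Q, Commute (QuotientGroup.mk' (C.c i) (C.x i)) (QuotientGroup.mk' (C.c i) g) := by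
          intro g
          have h1 := C.cent i hi g
          have h2 : QuotientGroup.mk' (C.c i) (C.x i * g * (C.x i)⁻¹ * g⁻¹) = 1 :=
            (QuotientGroup.eq_one_iff _).2 h1
          rw [map_mul, map_mul, map_mul, map_inv, map_inv, mul_inv_eq_one, mul_inv_eq_iff_eq_mul] at h2
          exact h2
        have h3 : QuotientGroup.mk' (C.c i) (y i : Q) = QuotientGroup.mk' (C.c i) (C.x i) ^ κ i := by
          rw [← (hπ i hi _ _).1 hy1, map_zpow]
        have h4 : Commute (QuotientGroup.mk' (C.c i) (y i : Q)) (QuotientGroup.mk' (C.c i) (w : Q)) := by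
          rw [h3]; exact (hcomm w).zpow_left _
        have h5 : QuotientGroup.mk' (C.c i) ((y i : Q) * w * (y i : Q)⁻¹ * (w : Q)⁻¹) = 1 := by
          rw [map_mul, map_mul, map_mul, map_inv, map_inv, mul_inv_eq_one, mul_inv_eq_iff_eq_mul]
          exact h4
        exact (QuotientGroup.eq_one_iff _).1 h5 }
  have key0 : ∀ i < n, (∀ k : ℤ, (C'.x i) ^ k ∈ C'.c i → k = 0) → κ i ≠ 0 := by
    intro i hi h h0
    obtain ⟨hy1, hy2⟩ := hκy i hi
    have h1 : (y i) ^ (1 : ℤ) ∈ (C.c i).subgroupOf R := by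
      rw [zpow_one, Subgroup.mem_subgroupOf]
      rw [h0, zpow_zero, one_mul] at hy1
      simpa using hy1
    have := h 1 h1
    omega
  have hsub : ∀ i < n, (∀ k : ℤ, (C'.x i) ^ k ∈ C'.c i → k = 0) → (∀ k : ℤ, (C.x i) ^ k ∈ C.c i → k = 0) := by
    intro i hi h k hk
    haveI := C.normal i hi.le
    obtain ⟨hy1, hy2⟩ := hκy i hi
    apply h k
    show (y i) ^ k ∈ (C.c i).subgroupOf R
    rw [Subgroup.mem_subgroupOf]
    have h1 : QuotientGroup.mk' (C.c i) (((y i) ^ k : R) : Q) = 1 := by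
      have h2 : QuotientGroup.mk' (C.c i) (C.x i ^ k) = 1 := (QuotientGroup.eq_one_iff _).2 hk
      rw [SubgroupClass.coe_zpow, map_zpow, ← (hπ i hi _ _).1 hy1, map_zpow, ← zpow_mul, mul_comm,
        zpow_mul, ← map_zpow, h2, one_zpow]
    exact (QuotientGroup.eq_one_iff _).1 h1
  refine ⟨C', ?_⟩
  unfold CS.h
  apply Finset.card_lt_card
  rw [Finset.ssubset_iff_subset_ne]
  refine ⟨?_, ?_⟩
  · intro i hi
    rw [Finset.mem_filter, Finset.mem_range] at hi ⊢
    exact ⟨hi.1, hsub i hi.1 hi.2⟩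
  · intro heq
    have hκ0 : ∀ i < n, κ i ≠ 0 := by
      intro i hi
      by_cases hF : ∀ k : ℤ, (C.x i) ^ k ∈ C.c i → k = 0
      · have h1 : i ∈ (Finset.range n).filter (fun i => ∀ k : ℤ, (C.x i) ^ k ∈ C.c i → k = 0) := by
          rw [Finset.mem_filter, Finset.mem_range]; exact ⟨hi, hF⟩
        rw [← heq, Finset.mem_filter] at h1
        exact key0 i hi h1.2
      · push Not at hF
        obtain ⟨k, hk1, hk2⟩ := hF
        intro h0
        have := (hκy i hi).2 k 1 (by simpa using hk1)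
        rw [h0, zero_dvd_iff] at this
        exact hk2 this
    have claim : ∀ i ≤ n, ∀ w ∈ C.c i, ∃ m : ℤ, m ≠ 0 ∧ w ^ m ∈ R := by
      intro i
      induction i with
      | zero =>
        intro _ w hw
        rw [C.c0, Subgroup.mem_bot] at hw
        exact ⟨1, one_ne_zero, by rw [hw, one_zpow]; exact R.one_mem⟩
      | succ i ih =>
        intro hi w hw
        have hi' : i < n := by omega
        haveI := C.normal i hi'.le
        obtain ⟨hy1, hy2⟩ := hκy i hi'
        obtain ⟨k, hk⟩ := C.mem_succ hi' hw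
        have h1 : QuotientGroup.mk' (C.c i) (w ^ κ i) = QuotientGroup.mk' (C.c i) ((y i : Q) ^ k) := by
          rw [map_zpow, (hπ i hi' _ _).1 hk, map_zpow, map_zpow, ← (hπ i hi' _ _).1 hy1, map_zpow,
            ← zpow_mul, ← zpow_mul, mul_comm]
        have h2 := (hπ i hi' _ _).2 h1
        obtain ⟨m, hm0, hm⟩ := ih (by omega) _ h2
        refine ⟨κ i * m, mul_ne_zero (hκ0 i hi') hm0, ?_⟩
        have h3 : QuotientGroup.mk' R ((y i : Q) ^ k) = 1 :=
          (QuotientGroup.eq_one_iff _).2 (R.zpow_mem (y i).2 k)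
        have h4 : QuotientGroup.mk' R ((w ^ κ i * ((y i : Q) ^ k)⁻¹) ^ m) = 1 :=
          (QuotientGroup.eq_one_iff _).2 hm
        rw [map_zpow, map_mul, map_inv, h3, inv_one, mul_one, ← map_zpow, ← zpow_mul] at h4
        exact (QuotientGroup.eq_one_iff _).1 h4
    obtain ⟨m, hm0, hm⟩ := claim n le_rfl x (by rw [C.cn]; trivial)
    exact hm0 (hx m hm)

end H294Ore
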