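import Pool.Agent.Helper294.Ore.Core
set_option autoImplicit false
set_option linter.all false

namespace H294Ore
open MonoidAlgebra


section
variable {Q V : Type} [Group Q] [AddCommGroup V] [PartialOrder V] [IsOrderedAddMonoid V] [Module (GA Q) V] [OM Q V]


/-- `y` is dominated by `N` at `q` -/
def DomN (V : Type) {Q : Type} [Group Q] [AddCommGroup V] [PartialOrder V] [IsOrderedAddMonoid V] [Module (GA Q) V]
    (N : Subgroup Q) (y : Q) (q : V) : Prop := 0 < q ∧ ∃ s, Pos (N : Set Q) s ∧ el y • q ≤ s • q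

/-- the semigroup part -/
def SP (N : Subgroup Q) (y : Q) : Set Q := {w | ∃ n ∈ N, ∃ j : ℕ, w = n * y ^ j}

theorem cen_inv {N : Subgroup Q} (hN : N.Normal) {x : Q} (hx : Cen N x) : Cen N x⁻¹ := by
  intro w
  have h1 : w * x * w⁻¹ * x⁻¹ ∈ N := by
    have := N.inv_mem (hx w)
    simpa [mul_assoc] using this
  have h2 := hN.conj_mem _ h1 x⁻¹
  simpa [mul_assoc] using h2

theorem domA {N : Subgroup Q} (hN : N.Normal) {y : Q} (hy : Cen N y) {q : V} (h : DomN V N y q)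
    {u : GA Q} (hu : Pos Set.univ u) : DomN V N y (u • q) := by
  obtain ⟨hq, s, hs, hsq⟩ := h
  induction hu with
  | sing w c hw hc =>
    refine ⟨smul_pos' (Pos.sing w c hw hc) hq, el (y * w * y⁻¹ * w⁻¹) * (el w * s * el w⁻¹), ?_, ?_⟩
    · exact Pos.mulN (pos_el_of (hy w)) (Pos.conj hN w hs)
    · have e1 : el y • sg w c • q = (el (y * w * y⁻¹ * w⁻¹) * sg w c) • (el y • q) := by
        rw [smul_smul, smul_smul]
        congr 1
        rw [sg_mul, sg_mul, sg_mul]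
        congr 1
        · group
        · ring
      have e2 : (el (y * w * y⁻¹ * w⁻¹) * (el w * s * el w⁻¹)) • sg w c • q =
          (el (y * w * y⁻¹ * w⁻¹) * sg w c) • (s • q) := by
        rw [smul_smul, smul_smul]
        congr 1
        have e3 : el w⁻¹ * sg w c = sg (1 : Q) c := by
          rw [sg_mul, inv_mul_cancel, one_mul]
        have e4 : sg w c = el w * sg (1 : Q) c := by
          rw [sg_mul, mul_one, one_mul]
        calc el (y * w * y⁻¹ * w⁻¹) * (el w * s * el w⁻¹) * sg w c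
            = el (y * w * y⁻¹ * w⁻¹) * (el w * (s * (el w⁻¹ * sg w c))) := by
              simp only [mul_assoc]
          _ = el (y * w * y⁻¹ * w⁻¹) * (el w * (sg (1 : Q) c * s)) := by rw [e3, sg_one_comm]
          _ = el (y * w * y⁻¹ * w⁻¹) * sg w c * s := by rw [e4]; simp only [mul_assoc]
      rw [e1, e2]
      exact smul_le' (Pos.mulU (pos_el _) (Pos.sing w c hw hc)) hsq
  | add a b ha hb iha ihb =>
    obtain ⟨ha0, s1, hs1, h1⟩ := iha
    obtain ⟨hb0, s2, hs2, h2⟩ := ihb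
    refine ⟨smul_pos' (Pos.add _ _ ha hb) hq, s1 + s2, Pos.add _ _ hs1 hs2, ?_⟩
    rw [add_smul, smul_add, smul_add]
    refine add_le_add (h1.trans (smul_add_le hs2 ha0.le)) (h2.trans ?_)
    rw [add_comm s1 s2]
    exact smul_add_le hs1 hb0.le

theorem domB {N : Subgroup Q} (hN : N.Normal) {y : Q} {q : V} (h : DomN V N y q) (j : ℕ) :
    ∃ s, Pos (N : Set Q) s ∧ el (y ^ j) • q ≤ s • q := by
  obtain ⟨hq, s1, hs1, h1⟩ := h
  induction j with
  | zero =>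
    refine ⟨1, pos_one N, ?_⟩
    rw [pow_zero, el_one]
  | succ j ih =>
    obtain ⟨s, hs, hsq⟩ := ih
    refine ⟨(el y * s * el y⁻¹) * s1, Pos.mulN (Pos.conj hN y hs) hs1, ?_⟩
    have e1 : el (y ^ (j + 1)) • q = el y • (el (y ^ j) • q) := by
      rw [smul_smul, el_mul, pow_succ']
    have e2 : el y • (s • q) = (el y * s * el y⁻¹) • (el y • q) := by
      rw [smul_smul, smul_smul]
      congr 1
      rw [mul_assoc (el y * s), el_inv_mul, mul_one]
    rw [e1]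
    refine (el_smul_le y hsq).trans ?_
    rw [e2, mul_smul _ s1]
    exact smul_le' (Pos.conj hN y hs) h1

theorem domC {N : Subgroup Q} (hN : N.Normal) {y : Q} {q : V} (h : DomN V N y q) {c : GA Q}
    (hc : Pos (SP N y) c) : ∃ s, Pos (N : Set Q) s ∧ c • q ≤ s • q := by
  induction hc with
  | sing w r hw hr =>
    obtain ⟨n, hn, j, rfl⟩ := hw
    obtain ⟨s, hs, hsq⟩ := domB hN h j
    refine ⟨sg n r * s, Pos.mulN (Pos.sing n r hn hr) hs, ?_⟩
    have e1 : sg (n * y ^ j) r • q = sg n r • (el (y ^ j) • q) := by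
      rw [smul_smul, sg_mul, mul_one]
    rw [e1, mul_smul]
    exact smul_le' (Pos.sing n r hn hr) hsq
  | add a b _ _ iha ihb =>
    obtain ⟨s1, hs1, h1⟩ := iha
    obtain ⟨s2, hs2, h2⟩ := ihb
    refine ⟨s1 + s2, Pos.add _ _ hs1 hs2, ?_⟩
    rw [add_smul, add_smul]
    exact add_le_add h1 h2

theorem mem_supB {N : Subgroup Q} (hN : N.Normal) {x w : Q} (hw : w ∈ N ⊔ Subgroup.zpowers x) :
    ∃ n ∈ N, ∃ k : ℤ, w = n * x ^ k := by
  haveI := hN
  have h1 : w ∈ ((N ⊔ Subgroup.zpowers x : Subgroup Q) : Set Q) := hw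
  rw [Subgroup.normal_mul] at h1
  obtain ⟨n, hn, z, hz, rfl⟩ := Set.mem_mul.1 h1
  obtain ⟨k, rfl⟩ := Subgroup.mem_zpowers_iff.1 hz
  exact ⟨n, hn, k, rfl⟩

theorem shiftB {N : Subgroup Q} (hN : N.Normal) {x : Q} {b : GA Q}
    (hb : Pos ((N ⊔ Subgroup.zpowers x : Subgroup Q) : Set Q) b) :
    ∃ K : ℕ, ∀ K' : ℕ, K ≤ K' → Pos (SP N x) (b * el (x ^ K')) := by
  induction hb with
  | sing w c hw hc =>
    obtain ⟨n, hn, k, rfl⟩ := mem_supB hN hw
    refine ⟨k.natAbs, fun K' hK => ?_⟩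
    rw [sg_mul, mul_one]
    refine Pos.sing _ _ ⟨n, hn, (k + K').toNat, ?_⟩ hc
    have h1 : ((k + K').toNat : ℤ) = k + K' := Int.toNat_of_nonneg (by omega)
    calc n * x ^ k * x ^ K' = n * x ^ (k + (K' : ℤ)) := by
          rw [mul_assoc, ← zpow_natCast x K', ← zpow_add]
      _ = n * x ^ (k + (K' : ℤ)).toNat := by rw [← zpow_natCast x, h1]
  | add a b _ _ iha ihb =>
    obtain ⟨K1, h1⟩ := iha
    obtain ⟨K2, h2⟩ := ihb
    refine ⟨max K1 K2, fun K' hK => ?_⟩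
    rw [add_mul]
    exact Pos.add _ _ (h1 K' ((le_max_left _ _).trans hK)) (h2 K' ((le_max_right _ _).trans hK))

theorem domD {N : Subgroup Q} (hN : N.Normal) {x : Q} {q : V} (h : DomN V N x q) (h' : DomN V N x⁻¹ q)
    {c : GA Q} (hc : Pos ((N ⊔ Subgroup.zpowers x : Subgroup Q) : Set Q) c) :
    ∃ s, Pos (N : Set Q) s ∧ c • q ≤ s • q := by
  induction hc with
  | sing w r hw hr =>
    obtain ⟨n, hn, k, rfl⟩ := mem_supB hN hw
    have h1 : ∃ s, Pos (N : Set Q) s ∧ el (x ^ k) • q ≤ s • q := by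
      rcases le_total 0 k with hk | hk
      · obtain ⟨j, rfl⟩ := Int.eq_ofNat_of_zero_le hk
        have := domB hN h j
        rwa [← zpow_natCast] at this
      · obtain ⟨j, hj⟩ := Int.eq_ofNat_of_zero_le (neg_nonneg.2 hk)
        have := domB hN h' j
        rwa [inv_pow, ← zpow_natCast, ← zpow_neg, ← hj, neg_neg] at this
    obtain ⟨s, hs, hsq⟩ := h1
    refine ⟨sg n r * s, Pos.mulN (Pos.sing n r hn hr) hs, ?_⟩
    have e1 : sg (n * x ^ k) r • q = sg n r • (el (x ^ k) • q) := by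
      rw [smul_smul, sg_mul, mul_one]
    rw [e1, mul_smul]
    exact smul_le' (Pos.sing n r hn hr) hsq
  | add a b _ _ iha ihb =>
    obtain ⟨s1, hs1, h1⟩ := iha
    obtain ⟨s2, hs2, h2⟩ := ihb
    refine ⟨s1 + s2, Pos.add _ _ hs1 hs2, ?_⟩
    rw [add_smul, add_smul]
    exact add_le_add h1 h2

theorem descent (hd : ∀ p : V, 0 < p → Bd (Q := Q) (Set.univ : Set Q) p) (N : Subgroup Q) (hN : N.Normal)
    (x : Q) (hx : Cen N x) (p : V) (hp : 0 < p)
    (hB : Bd (Q := Q) ((N ⊔ Subgroup.zpowers x : Subgroup Q) : Set Q) p)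
    (h1 : ∃ q : V, 0 < q ∧ ∃ s, Pos (N : Set Q) s ∧ el x • q ≤ s • q)
    (h2 : ∃ q : V, 0 < q ∧ ∃ s, Pos (N : Set Q) s ∧ el x⁻¹ • q ≤ s • q) :
    ∃ q : V, 0 < q ∧ Bd (Q := Q) (N : Set Q) q := by
  obtain ⟨q1, hq1, h1⟩ := h1
  obtain ⟨q2, hq2, h2⟩ := h2
  have hx' : Cen N x⁻¹ := cen_inv hN hx
  have D1 : DomN V N x q1 := ⟨hq1, h1⟩
  have D2 : DomN V N x⁻¹ q2 := ⟨hq2, h2⟩
  obtain ⟨a, ha, hap⟩ := hd q1 hq1 p
  obtain ⟨a', ha', hap'⟩ := hd q2 hq2 p
  have D1' : DomN V N x (a • q1) := domA hN hx D1 ha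
  have D2' : DomN V N x⁻¹ (a' • q2) := domA hN hx' D2 ha'
  set q1' := a • q1 with hq1'
  set q2' := a' • q2 with hq2'
  obtain ⟨b, hb, hbp⟩ := hB q2'
  obtain ⟨K, hK⟩ := shiftB hN hb
  set q := el (x ^ K)⁻¹ • q1' with hq
  have Dq : DomN V N x q := domA hN hx D1' (pos_el _)
  have hqq : q1' = el (x ^ K) • q := by
    rw [hq, smul_smul, el_mul_inv, one_smul]
  obtain ⟨ss, hss, hssq⟩ := domC hN Dq (hK K le_rfl)
  have k1 : q2' ≤ ss • q := by
    refine hbp.trans ((smul_le' hb hap).trans ?_)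
    rw [hqq, smul_smul]
    exact hssq
  obtain ⟨b', hb', hbp'⟩ := hB q
  have hzz : N ⊔ Subgroup.zpowers x = N ⊔ Subgroup.zpowers x⁻¹ := by
    rw [Subgroup.zpowers_inv]
  rw [hzz] at hb'
  obtain ⟨K0, hK0⟩ := shiftB hN hb'
  set K' := K0 + 1 with hK'
  set r := el ((x⁻¹ ^ K')⁻¹) • q2' with hr
  have Dr : DomN V N x⁻¹ r := domA hN hx' D2' (pos_el _)
  have hrr : q2' = el (x⁻¹ ^ K') • r := by
    rw [hr, smul_smul, el_mul_inv, one_smul]
  obtain ⟨tt, htt, httr⟩ := domC hN Dr (hK0 K' (Nat.le_succ _))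
  have k2 : q ≤ tt • r := by
    refine hbp'.trans ((smul_le' hb' hap').trans ?_)
    rw [hrr, smul_smul]
    exact httr
  clear_value q q1' q2' r
  -- multiply by x^{-K'}
  have k3 : el (x⁻¹ ^ K') • q ≤ (el (x⁻¹ ^ K') * tt * el (x⁻¹ ^ K')⁻¹) • (ss • q) := by
    refine (el_smul_le (x⁻¹ ^ K') k2).trans ?_
    have e1 : el (x⁻¹ ^ K') • tt • r = (el (x⁻¹ ^ K') * tt * el (x⁻¹ ^ K')⁻¹) • q2' := by
      rw [hr, smul_smul, smul_smul]
    rw [e1]
    exact smul_le' (Pos.conj hN _ htt) k1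
  -- multiply by x^{K'-1}
  obtain ⟨s3, hs3, h3⟩ := domB hN Dq K0
  have Dq' : DomN V N x⁻¹ q := by
    refine ⟨Dq.1, (el (x ^ K0) * ((el (x⁻¹ ^ K') * tt * el (x⁻¹ ^ K')⁻¹) * ss) * el (x ^ K0)⁻¹) * s3,
      Pos.mulN (Pos.conj hN _ (Pos.mulN (Pos.conj hN _ htt) hss)) hs3, ?_⟩
    have e1 : el x⁻¹ • q = el (x ^ K0) • (el (x⁻¹ ^ K') • q) := by
      rw [smul_smul, el_mul]
      congr 2
      rw [hK', pow_succ', inv_pow]
      group
    have e2 : el (x ^ K0) • ((el (x⁻¹ ^ K') * tt * el (x⁻¹ ^ K')⁻¹) • (ss • q)) =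
        (el (x ^ K0) * ((el (x⁻¹ ^ K') * tt * el (x⁻¹ ^ K')⁻¹) * ss) * el (x ^ K0)⁻¹) • (el (x ^ K0) • q) := by
      simp only [smul_smul]
      congr 1
      rw [mul_assoc _ (el (x ^ K0)⁻¹), el_inv_mul, mul_one, mul_assoc]
    rw [e1]
    refine (el_smul_le (x ^ K0) k3).trans ?_
    rw [e2, mul_smul _ s3]
    exact smul_le' (Pos.conj hN _ (Pos.mulN (Pos.conj hN _ htt) hss)) h3
  refine ⟨q, Dq.1, fun v => ?_⟩
  obtain ⟨b2, hb2, hv⟩ := hB v
  have hb3 : Pos ((N ⊔ Subgroup.zpowers x : Subgroup Q) : Set Q) (b2 * el (x ^ K)) := by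
    refine Pos.mul (fun _ h1 _ h2 => Subgroup.mul_mem _ h1 h2) hb2 (pos_el_of ?_)
    exact Subgroup.mem_sup_right (Subgroup.npow_mem_zpowers x K)
  obtain ⟨s, hs, hsq⟩ := domD hN Dq Dq' hb3
  refine ⟨s, hs, hv.trans ((smul_le' hb2 hap).trans ?_)⟩
  rw [hqq, smul_smul]
  exact hsq

end

end H294Ore
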