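import Pool.Agent.Helper294.Ore.Core
set_option autoImplicit false
set_option linter.all false

namespace H294Ore
open MonoidAlgebra


section
variable {Q V : Type} [Group Q] [AddCommGroup V] [PartialOrder V] [IsOrderedAddMonoid V] [Module (GA Q) V] [OM Q V]


omit [OM Q V] in
theorem pos_of_chain (c : Set (Subgroup Q)) (hc : IsChain (· ≤ ·) c) (hne : c.Nonempty) {s : GA Q}
    (hs : Pos ((sSup c : Subgroup Q) : Set Q) s) : ∃ R' ∈ c, Pos (R' : Set Q) s := by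
  induction hs with
  | sing w r hw hr =>
    obtain ⟨R', hR', hw'⟩ := (Subgroup.mem_sSup_of_directedOn hne hc.directedOn).1 hw
    exact ⟨R', hR', Pos.sing w r hw' hr⟩
  | add a b _ _ iha ihb =>
    obtain ⟨R1, h1, h1'⟩ := iha
    obtain ⟨R2, h2, h2'⟩ := ihb
    rcases hc.total h1 h2 with h | h
    · exact ⟨R2, h2, Pos.add _ _ (h1'.mono h) h2'⟩
    · exact ⟨R1, h1, Pos.add _ _ h1' (h2'.mono h)⟩

theorem exists_maxR (N : Subgroup Q) (hN : N.Normal) (x : Q) (hx : Cen N x) (hW : Wp V N x) (p : V) (hp : 0 < p)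
    (hb : ∀ v : V, ∃ j : ℕ, v ≤ el (x ^ j) • p) : ∃ R : Subgroup Q, MaxR V R x p := by
  obtain ⟨m, hNm, hmax⟩ := zorn_le_nonempty₀ {R' : Subgroup Q | R'.Normal ∧ Wp V R' x} (by
    intro c hcs hc y hy
    have hne : c.Nonempty := ⟨y, hy⟩
    refine ⟨sSup c, ⟨⟨?_⟩, ?_⟩, fun z hz => le_sSup hz⟩
    · intro n hn g
      obtain ⟨R', hR', hn'⟩ := (Subgroup.mem_sSup_of_directedOn hne hc.directedOn).1 hn
      exact (Subgroup.mem_sSup_of_directedOn hne hc.directedOn).2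
        ⟨R', hR', (hcs hR').1.conj_mem n hn' g⟩
    · intro q hq s hs
      obtain ⟨R', hR', hs'⟩ := pos_of_chain c hc hne hs
      exact (hcs hR').2 q hq s hs') N ⟨hN, hW⟩
  refine ⟨m, hmax.1.1, fun w => hNm (hx w), hp, hmax.1.2, hb, ?_⟩
  intro R' hR' hle hWR'
  exact hmax.2 ⟨hR', hWR'⟩ hle

end

end H294Ore
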