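import Pool.Agent.Helper294.Ore.Core
set_option autoImplicit false
set_option linter.all false

namespace H294Ore
open MonoidAlgebra



section hilb
variable {A : Type} [Ring A]

/-- left polynomials of degree `< n` in `y` with coefficients in `S` -/
def TT (S : Subring A) (y : Aˣ) (n : ℕ) (t : A) : Prop :=
  ∃ c : ℕ → A, (∀ i, c i ∈ S) ∧ t = ∑ i ∈ Finset.range n, c i * (y : A) ^ i

theorem TT.zero (S : Subring A) (y : Aˣ) (n : ℕ) : TT S y n 0 :=
  ⟨fun _ => 0, fun _ => S.zero_mem, by simp⟩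

theorem TT.add {S : Subring A} {y : Aˣ} {n : ℕ} {a b : A} (ha : TT S y n a) (hb : TT S y n b) :
    TT S y n (a + b) := by
  obtain ⟨c, hc, rfl⟩ := ha
  obtain ⟨d, hd, rfl⟩ := hb
  exact ⟨fun i => c i + d i, fun i => S.add_mem (hc i) (hd i), by
    simp only [add_mul, Finset.sum_add_distrib]⟩

theorem TT.neg {S : Subring A} {y : Aˣ} {n : ℕ} {a : A} (ha : TT S y n a) : TT S y n (-a) := by
  obtain ⟨c, hc, rfl⟩ := ha
  exact ⟨fun i => - c i, fun i => S.neg_mem (hc i), by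
    simp only [neg_mul, Finset.sum_neg_distrib]⟩

theorem TT.sub {S : Subring A} {y : Aˣ} {n : ℕ} {a b : A} (ha : TT S y n a) (hb : TT S y n b) :
    TT S y n (a - b) := by
  rw [sub_eq_add_neg]; exact ha.add hb.neg

theorem TT.smul {S : Subring A} {y : Aˣ} {n : ℕ} {a s : A} (hs : s ∈ S) (ha : TT S y n a) :
    TT S y n (s * a) := by
  obtain ⟨c, hc, rfl⟩ := ha
  exact ⟨fun i => s * c i, fun i => S.mul_mem hs (hc i), by
    simp only [Finset.mul_sum, mul_assoc]⟩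

theorem TT.ymul {S : Subring A} {y : Aˣ} (h1 : ∀ s ∈ S, (y : A) * s * ((y⁻¹ : Aˣ) : A) ∈ S)
    {n : ℕ} {a : A} (ha : TT S y n a) : TT S y (n + 1) ((y : A) * a) := by
  obtain ⟨c, hc, rfl⟩ := ha
  refine ⟨fun i => if i = 0 then 0 else (y : A) * c (i - 1) * ((y⁻¹ : Aˣ) : A), fun i => ?_, ?_⟩
  · show (if i = 0 then 0 else (y : A) * c (i - 1) * ((y⁻¹ : Aˣ) : A)) ∈ S
    split_ifs
    · exact S.zero_mem
    · exact h1 _ (hc _)
  · rw [Finset.sum_range_succ']
    simp only [Finset.mul_sum]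
    have : ∀ i, (if i + 1 = 0 then (0:A) else (y : A) * c (i + 1 - 1) * ((y⁻¹ : Aˣ) : A)) * (y : A) ^ (i + 1)
        = (y : A) * (c i * (y : A) ^ i) := by
      intro i
      rw [if_neg (Nat.succ_ne_zero i), Nat.add_sub_cancel, pow_succ', ← mul_assoc, mul_assoc _ _ (y : A), Units.inv_mul,
        mul_one, mul_assoc]
    simp only [this]
    simp

theorem TT.succ {S : Subring A} {y : Aˣ} {n : ℕ} {a : A} (ha : TT S y (n + 1) a) :
    ∃ c ∈ S, TT S y n (a - c * (y : A) ^ n) := by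
  obtain ⟨c, hc, rfl⟩ := ha
  exact ⟨c n, hc n, c, hc, by rw [Finset.sum_range_succ]; simp⟩

/-- leading coefficients -/
def LL {S T : Subring A} (hST : S ≤ T) (y : Aˣ) (n : ℕ) (I : Ideal T) : Ideal S where
  carrier := {a | ∃ b ∈ I, TT S y n ((b : A) - (a : A) * (y : A) ^ n)}
  add_mem' := by
    rintro a a' ⟨b, hb, h⟩ ⟨b', hb', h'⟩
    refine ⟨b + b', I.add_mem hb hb', ?_⟩
    have := h.add h'
    have e : ((b + b' : T) : A) - ((a + a' : S) : A) * (y : A) ^ n =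
        ((b : A) - (a : A) * (y : A) ^ n) + ((b' : A) - (a' : A) * (y : A) ^ n) := by
      push_cast
      rw [add_mul]; abel
    rw [e]; exact this
  zero_mem' := ⟨0, I.zero_mem, by simpa using TT.zero S y n⟩
  smul_mem' := by
    rintro s a ⟨b, hb, h⟩
    refine ⟨⟨(s : A), hST s.2⟩ * b, I.mul_mem_left _ hb, ?_⟩
    have := h.smul s.2
    have e : (((⟨(s : A), hST s.2⟩ : T) * b : T) : A) - ((s • a : S) : A) * (y : A) ^ n =
        (s : A) * ((b : A) - (a : A) * (y : A) ^ n) := by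
      rw [mul_sub, smul_eq_mul]
      push_cast
      rw [mul_assoc]
    rw [e]; exact this

/-- conjugation by `y` on `S` -/
def sig {S : Subring A} (y : Aˣ) (h1 : ∀ s ∈ S, (y : A) * s * ((y⁻¹ : Aˣ) : A) ∈ S) : S →+* S where
  toFun s := ⟨(y : A) * s * ((y⁻¹ : Aˣ) : A), h1 s s.2⟩
  map_one' := by ext; simp
  map_mul' a b := by
    ext
    simp only [Subring.coe_mul]
    have : (y : A) * (a : A) * ((y⁻¹ : Aˣ) : A) * ((y : A) * (b : A) * ((y⁻¹ : Aˣ) : A)) =
        (y : A) * (a : A) * (((y⁻¹ : Aˣ) : A) * (y : A)) * (b : A) * ((y⁻¹ : Aˣ) : A) := by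
      simp only [mul_assoc]
    rw [this, Units.inv_mul, mul_one]
    simp only [mul_assoc]
  map_zero' := by ext; simp
  map_add' a b := by
    ext
    simp [mul_add, add_mul]

theorem sig_surj {S : Subring A} (y : Aˣ) (h1 : ∀ s ∈ S, (y : A) * s * ((y⁻¹ : Aˣ) : A) ∈ S)
    (h2 : ∀ s ∈ S, ((y⁻¹ : Aˣ) : A) * s * (y : A) ∈ S) : Function.Surjective (sig y h1) := by
  intro s
  refine ⟨⟨((y⁻¹ : Aˣ) : A) * s * (y : A), h2 s s.2⟩, ?_⟩
  ext
  show (y : A) * (((y⁻¹ : Aˣ) : A) * s * (y : A)) * ((y⁻¹ : Aˣ) : A) = s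
  have : (y : A) * (((y⁻¹ : Aˣ) : A) * s * (y : A)) * ((y⁻¹ : Aˣ) : A) =
      ((y : A) * ((y⁻¹ : Aˣ) : A)) * s * ((y : A) * ((y⁻¹ : Aˣ) : A)) := by
    simp only [mul_assoc]
  rw [this, Units.mul_inv, one_mul, mul_one]

/-- twisted leading coefficients: elements `a` with `σ^n a` in `LL n I` -/
def LS {S T : Subring A} (hST : S ≤ T) (y : Aˣ) (h1 : ∀ s ∈ S, (y : A) * s * ((y⁻¹ : Aˣ) : A) ∈ S)
    (n : ℕ) (I : Ideal T) : Ideal S where
  carrier := {a | (sig y h1)^[n] a ∈ LL hST y n I}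
  add_mem' := by
    intro a b ha hb
    show (sig y h1)^[n] (a + b) ∈ LL hST y n I
    rw [iterate_map_add]
    exact (LL hST y n I).add_mem ha hb
  zero_mem' := by
    show (sig y h1)^[n] 0 ∈ LL hST y n I
    rw [iterate_map_zero]
    exact (LL hST y n I).zero_mem
  smul_mem' := by
    intro s a ha
    show (sig y h1)^[n] (s * a) ∈ LL hST y n I
    rw [iterate_map_mul]
    exact (LL hST y n I).mul_mem_left _ ha

theorem LS_succ {S T : Subring A} (hST : S ≤ T) (y : Aˣ) (hy : (y : A) ∈ T)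
    (h1 : ∀ s ∈ S, (y : A) * s * ((y⁻¹ : Aˣ) : A) ∈ S) (n : ℕ) (I : Ideal T) :
    LS hST y h1 n I ≤ LS hST y h1 (n + 1) I := by
  intro a ha
  show (sig y h1)^[n + 1] a ∈ LL hST y (n + 1) I
  rw [Function.iterate_succ_apply']
  obtain ⟨b, hb, h⟩ := (ha : (sig y h1)^[n] a ∈ LL hST y n I)
  refine ⟨⟨(y : A), hy⟩ * b, I.mul_mem_left _ hb, ?_⟩
  have := TT.ymul h1 h
  have e : (((⟨(y : A), hy⟩ : T) * b : T) : A) - ((sig y h1 ((sig y h1)^[n] a) : S) : A) * (y : A) ^ (n + 1) =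
      (y : A) * ((b : A) - (((sig y h1)^[n] a : S) : A) * (y : A) ^ n) := by
    show (y : A) * (b : A) - ((y : A) * (((sig y h1)^[n] a : S) : A) * ((y⁻¹ : Aˣ) : A)) * (y : A) ^ (n + 1) = _
    rw [pow_succ', ← mul_assoc, mul_assoc _ _ (y : A), Units.inv_mul, mul_one, mul_sub, mul_assoc]
  rw [e]; exact this

theorem LL_mono {S T : Subring A} (hST : S ≤ T) (y : Aˣ) (n : ℕ) {I J : Ideal T} (h : I ≤ J) :
    LL hST y n I ≤ LL hST y n J := by
  rintro a ⟨b, hb, hh⟩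
  exact ⟨b, h hb, hh⟩

theorem hilb_key {S T : Subring A} (hST : S ≤ T) (y : Aˣ)
    (h1 : ∀ s ∈ S, (y : A) * s * ((y⁻¹ : Aˣ) : A) ∈ S) (h2 : ∀ s ∈ S, ((y⁻¹ : Aˣ) : A) * s * (y : A) ∈ S)
    (hgen : ∀ t ∈ T, ∃ (n : ℕ) (c : ℕ → A), (∀ i, c i ∈ S) ∧ t = ∑ i ∈ Finset.range n, c i * (y : A) ^ i)
    {I J : Ideal T} (hIJ : I ≤ J) (h : ∀ n, LS hST y h1 n J ≤ LS hST y h1 n I) : J ≤ I := by
  have hLL : ∀ n, LL hST y n J ≤ LL hST y n I := by
    intro n a ha
    obtain ⟨a', rfl⟩ := ((sig_surj y h1 h2).iterate n) a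
    exact h n (show a' ∈ LS hST y h1 n J from ha)
  have main : ∀ n, ∀ b ∈ J, TT S y n (b : A) → b ∈ I := by
    intro n
    induction n with
    | zero =>
      intro b _ ht
      obtain ⟨c, _, hc⟩ := ht
      have : b = 0 := by
        ext; simpa using hc
      rw [this]; exact I.zero_mem
    | succ n ih =>
      intro b hb ht
      obtain ⟨c, hcS, hc⟩ := ht.succ
      have h3 : (⟨c, hcS⟩ : S) ∈ LL hST y n J := ⟨b, hb, hc⟩
      obtain ⟨b', hb', hc'⟩ := hLL n h3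
      have h4 : b - b' ∈ I := by
        apply ih _ (J.sub_mem hb (hIJ hb'))
        have := hc.sub hc'
        have e : ((b - b' : T) : A) = ((b : A) - c * (y : A) ^ n) - ((b' : A) - c * (y : A) ^ n) := by
          push_cast; abel
        rw [e]; exact this
      have := I.add_mem h4 hb'
      simpa using this
  intro b hb
  obtain ⟨n, c, hc, hbc⟩ := hgen b b.2
  exact main n b hb ⟨c, hc, hbc⟩

end hilb

theorem hilbert {A : Type} [Ring A] (S T : Subring A) (hST : S ≤ T) (y : Aˣ) (hy : (y : A) ∈ T)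
    (h1 : ∀ s ∈ S, (y : A) * s * ((y⁻¹ : Aˣ) : A) ∈ S) (h2 : ∀ s ∈ S, ((y⁻¹ : Aˣ) : A) * s * (y : A) ∈ S)
    (hgen : ∀ t ∈ T, ∃ (n : ℕ) (c : ℕ → A), (∀ i, c i ∈ S) ∧ t = ∑ i ∈ Finset.range n, c i * (y : A) ^ i)
    (hS : IsNoetherianRing S) : IsNoetherianRing T := by
  classical
  rw [IsNoetherianRing, ← monotone_stabilizes_iff_noetherian]
  intro f
  have hS' : ∀ f : ℕ →o Submodule S S, ∃ n, ∀ m, n ≤ m → f n = f m :=
    monotone_stabilizes_iff_noetherian.2 hS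
  have mono_n : ∀ k, Monotone (fun n => LS hST y h1 n (f k)) := fun k =>
    monotone_nat_of_le_succ (fun n => LS_succ hST y hy h1 n (f k))
  have mono_k : ∀ n, Monotone (fun k => LS hST y h1 n (f k)) := by
    intro n k k' hkk
    intro a ha
    exact LL_mono hST y n (f.monotone hkk) ha
  obtain ⟨N, hN⟩ := hS' ⟨fun n => LS hST y h1 n (f n), by
    intro n m hnm
    exact (mono_n n hnm).trans (mono_k m hnm)⟩
  have hN' : ∀ m, N ≤ m → LS hST y h1 N (f N) = LS hST y h1 m (f m) := hN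
  have hKex : ∀ n, ∃ K, ∀ m, K ≤ m → LS hST y h1 n (f K) = LS hST y h1 n (f m) := fun n =>
    hS' ⟨fun k => LS hST y h1 n (f k), mono_k n⟩
  choose K hK using hKex
  refine ⟨max N ((Finset.range N).sup K), fun m hm => ?_⟩
  apply le_antisymm (f.monotone hm)
  apply hilb_key hST y h1 h2 hgen (f.monotone hm)
  intro n
  set M := max N ((Finset.range N).sup K) with hMdef
  by_cases hn : N ≤ n
  · have e1 : LS hST y h1 n (f m) ≤ LS hST y h1 N (f N) := by
      rw [hN' (max n m) (hn.trans (le_max_left _ _))]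
      exact (mono_n m (le_max_left n m)).trans (mono_k (max n m) (le_max_right n m))
    have e2 : LS hST y h1 N (f N) ≤ LS hST y h1 n (f M) :=
      (mono_n N hn).trans (mono_k n (le_max_left _ _))
    exact e1.trans e2
  · push Not at hn
    have hKM : K n ≤ M := (Finset.le_sup (f := K) (Finset.mem_range.2 hn)).trans (le_max_right _ _)
    rw [← hK n m (hKM.trans hm), ← hK n M hKM]

end H294Ore
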