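import Pool.Agent.Helper294.Ore.Core
set_option autoImplicit false
set_option linter.all false

namespace H294Ore
open MonoidAlgebra


section
variable {Q V : Type} [Group Q] [AddCommGroup V] [PartialOrder V] [IsOrderedAddMonoid V] [Module (GA Q) V] [OM Q V]


theorem cen_iff_center (R : Subgroup Q) [R.Normal] (x : Q) :
    Cen R x ↔ x ∈ (Subgroup.center (Q ⧸ R)).comap (QuotientGroup.mk' R) := by
  rw [Subgroup.mem_comap, Subgroup.mem_center_iff]
  constructor
  · intro h g
    obtain ⟨w, rfl⟩ := QuotientGroup.mk_surjective g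
    have h1 := h w
    rw [← QuotientGroup.eq_one_iff] at h1
    simp only [QuotientGroup.mk_mul, QuotientGroup.mk_inv] at h1
    simp only [QuotientGroup.mk'_apply]
    rw [mul_inv_eq_one, mul_inv_eq_iff_eq_mul] at h1
    exact h1.symm
  · intro h w
    rw [← QuotientGroup.eq_one_iff]
    simp only [QuotientGroup.mk_mul, QuotientGroup.mk_inv]
    rw [mul_inv_eq_one, mul_inv_eq_iff_eq_mul]
    exact (h (w : Q ⧸ R)).symm

theorem maxR_comm (R : Subgroup Q) (x : Q) (p : V) (h : MaxR V R x p) {n : ℕ} (C : CS Q n)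
    (hg : ∀ a b : Q, Cen R (a * b * a⁻¹ * b⁻¹) → a * b * a⁻¹ * b⁻¹ ∈ R) :
    ∀ a b : Q, a * b * a⁻¹ * b⁻¹ ∈ R := by
  haveI := h.nor
  have key : ∀ i, i ≤ n → C.c i ≤ (Subgroup.center (Q ⧸ R)).comap (QuotientGroup.mk' R) := by
    intro i
    induction i with
    | zero => intro _; rw [C.c0]; exact bot_le
    | succ i ih =>
      intro hi
      rw [C.step i (by omega)]
      refine sup_le (ih (by omega)) ?_
      rw [Subgroup.zpowers_le]
      rw [← cen_iff_center]
      intro w
      apply hg
      rw [cen_iff_center]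
      exact ih (by omega) (C.cent i (by omega) w)
  intro a b
  have ha : a ∈ C.c n := by rw [C.cn]; exact Subgroup.mem_top a
  have h2 := key n le_rfl ha
  rw [← cen_iff_center] at h2
  exact h2 b

end

end H294Ore
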