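import Pool.Agent.Helper294.Ore.Core
set_option autoImplicit false
set_option linter.all false

namespace H294Ore
open MonoidAlgebra


section
variable {Q V : Type} [Group Q] [AddCommGroup V] [PartialOrder V] [IsOrderedAddMonoid V] [Module (GA Q) V] [OM Q V]



theorem el_smul_el (g h : Q) (v : V) : el g • el h • v = el (g * h) • v := by
  rw [smul_smul, el_mul]

theorem Cen_iff {R : Subgroup Q} (hR : R.Normal) (y : Q) :
    Cen R y ↔ (QuotientGroup.mk' R y) ∈ Subgroup.center (Q ⧸ R) := by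
  rw [Subgroup.mem_center_iff]
  constructor
  · intro h g
    obtain ⟨w, rfl⟩ := QuotientGroup.mk'_surjective R g
    have h1 : QuotientGroup.mk' R (y * w * y⁻¹ * w⁻¹) = 1 := (QuotientGroup.eq_one_iff _).2 (h w)
    rw [map_mul, map_mul, map_mul, map_inv, map_inv] at h1
    have h2 := mul_inv_eq_one.1 h1
    have h3 := mul_inv_eq_iff_eq_mul.1 h2
    exact h3.symm
  · intro h w
    have h1 := h (QuotientGroup.mk' R w)
    rw [← QuotientGroup.eq_one_iff]
    show QuotientGroup.mk' R (y * w * y⁻¹ * w⁻¹) = 1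
    rw [map_mul, map_mul, map_mul, map_inv, map_inv, ← h1]
    group

theorem Cen_mul {R : Subgroup Q} (hR : R.Normal) {y z : Q} (hy : Cen R y) (hz : Cen R z) :
    Cen R (y * z) := by
  rw [Cen_iff hR] at *
  rw [map_mul]; exact Subgroup.mul_mem _ hy hz

theorem Cen_zpow {R : Subgroup Q} (hR : R.Normal) {y : Q} (hy : Cen R y) (n : ℤ) :
    Cen R (y ^ n) := by
  rw [Cen_iff hR] at *
  rw [map_zpow]; exact Subgroup.zpow_mem _ hy n

theorem Cen_inv {R : Subgroup Q} (hR : R.Normal) {y : Q} (hy : Cen R y) :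
    Cen R (y⁻¹) := by
  rw [Cen_iff hR] at *
  rw [map_inv]; exact Subgroup.inv_mem _ hy

/-- closure under `Pos univ` -/
theorem dich_A {R : Subgroup Q} (hR : R.Normal) {y : Q} (hy : Cen R y) {q : V} (hq : 0 ≤ q)
    {s : GA Q} (hs : Pos (R : Set Q) s) (h : el y • q ≤ s • q) {u : GA Q} (hu : Pos Set.univ u) :
    ∃ s', Pos (R : Set Q) s' ∧ el y • (u • q) ≤ s' • (u • q) := by
  induction hu with
  | sing w c hw hc =>
    refine ⟨el (y * w * y⁻¹ * w⁻¹) * (el w * s * el w⁻¹), ?_, ?_⟩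
    · exact Pos.mulN (pos_el_of (hy w)) (hs.conj hR w)
    · have e1 : el y • (sg w c • q) = (el (y * w * y⁻¹ * w⁻¹) * sg w c) • (el y • q) := by
        rw [smul_smul, smul_smul]
        congr 1
        rw [show el y = sg y 1 from rfl, show el (y * w * y⁻¹ * w⁻¹) = sg (y * w * y⁻¹ * w⁻¹) 1 from rfl,
          sg_mul, sg_mul, sg_mul]
        congr 1
        · group
        · ring
      have e2 : (el (y * w * y⁻¹ * w⁻¹) * (el w * s * el w⁻¹)) • (sg w c • q)
          = (el (y * w * y⁻¹ * w⁻¹) * sg w c) • (s • q) := by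
        have h3 : sg w c = el w * sg 1 c := by
          rw [show el w = sg w 1 from rfl, sg_mul]; simp
        have h4 : sg w c = sg 1 c * el w := by
          rw [show el w = sg w 1 from rfl, sg_mul]; simp
        rw [smul_smul, smul_smul]
        congr 1
        calc el (y * w * y⁻¹ * w⁻¹) * (el w * s * el w⁻¹) * sg w c
            = el (y * w * y⁻¹ * w⁻¹) * el w * s * (el w⁻¹ * el w) * sg 1 c := by
              rw [h3]; noncomm_ring
          _ = el (y * w * y⁻¹ * w⁻¹) * el w * (s * sg 1 c) := by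
              rw [el_inv_mul]; noncomm_ring
          _ = el (y * w * y⁻¹ * w⁻¹) * (el w * sg 1 c) * s := by
              rw [← sg_one_comm]; noncomm_ring
          _ = _ := by rw [← h3]
      rw [e1, e2]
      exact smul_le' (Pos.mulU (pos_el _) (Pos.sing w c (Set.mem_univ _) hc)) h
  | add a b ha hb iha ihb =>
    obtain ⟨sa, hsa, h1⟩ := iha
    obtain ⟨sb, hsb, h2⟩ := ihb
    refine ⟨sa + sb, Pos.add _ _ hsa hsb, ?_⟩
    have ha0 : 0 ≤ a • q := smul_nonneg' ha hq
    have hb0 : 0 ≤ b • q := smul_nonneg' hb hq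
    rw [add_smul a b, smul_add, smul_add]
    refine add_le_add (h1.trans (smul_add_le hsb ha0)) (h2.trans ?_)
    rw [add_comm sa sb]
    exact smul_add_le hsa hb0

/-- iteration -/
theorem dich_B {R : Subgroup Q} (hR : R.Normal) {y : Q} {q : V} {s : GA Q}
    (hs : Pos (R : Set Q) s) (h : el y • q ≤ s • q) (k : ℕ) :
    ∃ s', Pos (R : Set Q) s' ∧ el (y ^ k) • q ≤ s' • q := by
  induction k with
  | zero => exact ⟨1, pos_one R, by rw [pow_zero, el_one]⟩
  | succ k ih =>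
    obtain ⟨t, ht, h1⟩ := ih
    refine ⟨(el y * t * el y⁻¹) * s, Pos.mulN (ht.conj hR y) hs, ?_⟩
    calc el (y ^ (k + 1)) • q = el y • (el (y ^ k) • q) := by rw [el_smul_el, pow_succ']
      _ ≤ el y • (t • q) := el_smul_le y h1
      _ = (el y * t * el y⁻¹) • (el y • q) := by
          rw [smul_smul, smul_smul]
          congr 1
          calc el y * t = el y * t * (el y⁻¹ * el y) := by rw [el_inv_mul, mul_one]
            _ = _ := by noncomm_ring
      _ ≤ (el y * t * el y⁻¹) • (s • q) := smul_le' (ht.conj hR y) h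
      _ = _ := by rw [smul_smul]

theorem dich_C (hd : ∀ p : V, 0 < p → Bd (Q := Q) (Set.univ : Set Q) p)
    {R : Subgroup Q} {x : Q} {p : V} (h : MaxR V R x p) {y : Q} (hy : Cen R y) {q : V} (hq : 0 < q)
    {s : GA Q} (hs : Pos (R : Set Q) s) (hyq : el y • q ≤ s • q) :
    ∃ J : ℕ, ∀ k : ℕ, el (y ^ k) • p ≤ el (x ^ J) • p := by
  obtain ⟨a, ha, hpa⟩ := hd q hq p
  obtain ⟨s', hs', h1⟩ := dich_A h.nor hy hq.le hs hyq ha
  obtain ⟨j, hj⟩ := h.bd (a • q)
  refine ⟨j + 1, fun k => ?_⟩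
  obtain ⟨t, ht, h2⟩ := dich_B h.nor hs' h1 k
  calc el (y ^ k) • p ≤ el (y ^ k) • (a • q) := el_smul_le _ hpa
    _ ≤ t • (a • q) := h2
    _ ≤ t • (el (x ^ j) • p) := smul_le' ht hj
    _ ≤ el x • (el (x ^ j) • p) := h.W _ (el_smul_nonneg _ h.pos.le) t ht
    _ = el (x ^ (j + 1)) • p := by rw [el_smul_el, pow_succ']

theorem dich_mono {R : Subgroup Q} {x : Q} {p : V} (h : MaxR V R x p) {i j : ℕ} (hij : i ≤ j) :
    el (x ^ i) • p ≤ el (x ^ j) • p := by
  induction hij with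
  | refl => exact le_rfl
  | step _ ih =>
    rename_i m _
    refine ih.trans ?_
    have := h.W (el (x ^ m) • p) (el_smul_nonneg _ h.pos.le) 1 (pos_one R)
    rw [one_smul, el_smul_el, ← pow_succ'] at this
    exact this

theorem dich_strict {R : Subgroup Q} {x : Q} {p : V} (h : MaxR V R x p) (j : ℕ) :
    ¬ el (x ^ (j + 1)) • p ≤ el (x ^ j) • p := by
  intro hle
  have h0 : 0 < el (x ^ j) • p := el_smul_pos _ h.pos
  have h1 := h.W (el (x ^ j) • p) h0.le (1 + 1) (Pos.add _ _ (pos_one R) (pos_one R))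
  rw [add_smul, one_smul, el_smul_el, ← pow_succ'] at h1
  have h2 := h1.trans hle
  have h3 : el (x ^ j) • p + el (x ^ j) • p ≤ el (x ^ j) • p + 0 := by rw [add_zero]; exact h2
  exact absurd (le_of_add_le_add_left h3) (not_le_of_gt h0)

theorem dich_claim (hd : ∀ p : V, 0 < p → Bd (Q := Q) (Set.univ : Set Q) p)
    {R : Subgroup Q} {x : Q} {p : V} (h : MaxR V R x p)
    (hwn : ∀ y : Q, Cen R y → (∀ q : V, 0 < q → ∀ s, Pos (R : Set Q) s → ¬ (el y • q ≤ s • q)) → Wp V R y)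
    {w : Q} (hw : Cen R w) {J : ℕ} (hJ : ∀ n : ℤ, el (w ^ n) • p ≤ el (x ^ J) • p) (n : ℤ) :
    Wp V R (x * w ^ n) := by
  haveI := h.nor
  have hy : Cen R (x * w ^ n) := Cen_mul h.nor h.cen (Cen_zpow h.nor hw n)
  refine hwn _ hy ?_
  intro q hq s hs hle
  obtain ⟨J', hJ'⟩ := dich_C hd h hy hq hs hle
  set y := x * w ^ n with hydef
  set k := J + J' + 2 with hk
  have hyk : Cen R (y ^ k) := by
    have := Cen_zpow h.nor hy (k : ℤ)
    rwa [zpow_natCast] at this
  -- decomposition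
  have hc : x ^ k * (y ^ k * w ^ (-(n * k)))⁻¹ ∈ R := by
    have hx' := (Cen_iff h.nor x).1 h.cen
    rw [Subgroup.mem_center_iff] at hx'
    rw [← QuotientGroup.eq_one_iff]
    show QuotientGroup.mk' R (x ^ k * (y ^ k * w ^ (-(n * k)))⁻¹) = 1
    rw [map_mul, map_inv, map_mul, map_pow, map_pow, map_zpow, hydef, map_mul, map_zpow]
    have hcomm : Commute (QuotientGroup.mk' R x) ((QuotientGroup.mk' R w) ^ n) :=
      (hx' _).symm
    rw [hcomm.mul_pow, ← zpow_natCast (((QuotientGroup.mk' R) w) ^ n) k, ← zpow_mul, mul_assoc,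
      ← zpow_add, add_neg_cancel, zpow_zero, mul_one, mul_inv_cancel]
  have hc2 := hyk (x ^ J)
  have key : el (x ^ k) • p ≤ el (x ^ (J + J' + 1)) • p := by
    calc el (x ^ k) • p = el (x ^ k * (y ^ k * w ^ (-(n * k)))⁻¹) • (el (y ^ k) • (el (w ^ (-(n * k))) • p)) := by
          rw [el_smul_el, el_smul_el]
          congr 2
          group
      _ ≤ el (x ^ k * (y ^ k * w ^ (-(n * k)))⁻¹) • (el (y ^ k) • (el (x ^ J) • p)) :=
          el_smul_le _ (el_smul_le _ (hJ _))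
      _ = el (x ^ k * (y ^ k * w ^ (-(n * k)))⁻¹) • (el (y ^ k * x ^ J * (y ^ k)⁻¹ * (x ^ J)⁻¹) •
            (el (x ^ J) • (el (y ^ k) • p))) := by
          rw [el_smul_el, el_smul_el, el_smul_el, el_smul_el, el_smul_el]
          congr 2
          group
      _ ≤ el (x ^ k * (y ^ k * w ^ (-(n * k)))⁻¹) • (el (y ^ k * x ^ J * (y ^ k)⁻¹ * (x ^ J)⁻¹) •
            (el (x ^ J) • (el (x ^ J') • p))) :=
          el_smul_le _ (el_smul_le _ (el_smul_le _ (hJ' k)))
      _ = (el (x ^ k * (y ^ k * w ^ (-(n * k)))⁻¹) * el (y ^ k * x ^ J * (y ^ k)⁻¹ * (x ^ J)⁻¹)) •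
            (el (x ^ (J + J')) • p) := by
          rw [el_smul_el (x ^ J), ← pow_add, smul_smul]
      _ ≤ el x • (el (x ^ (J + J')) • p) :=
          h.W _ (el_smul_nonneg _ h.pos.le) _ (Pos.mulN (pos_el_of hc) (pos_el_of hc2))
      _ = el (x ^ (J + J' + 1)) • p := by rw [el_smul_el, pow_succ']
  exact dich_strict h (J + J' + 1) key

theorem mem_sup_zpowers {R : Subgroup Q} (hR : R.Normal) (w z : Q) (hz : z ∈ R ⊔ Subgroup.zpowers w) :
    ∃ r ∈ R, ∃ n : ℤ, z = r * w ^ n := by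
  have : z ∈ ((R ⊔ Subgroup.zpowers w : Subgroup Q) : Set Q) := hz
  rw [Subgroup.normal_mul] at this
  obtain ⟨r, hr, b, hb, rfl⟩ := Set.mem_mul.1 this
  obtain ⟨n, rfl⟩ := Subgroup.mem_zpowers_iff.1 hb
  exact ⟨r, hr, n, rfl⟩

theorem dich_final {R : Subgroup Q} (hR : R.Normal) {x w : Q}
    (hall : ∀ n : ℤ, Wp V R (x * w ^ n)) : Wp V (R ⊔ Subgroup.zpowers w) x := by
  have key : ∀ s : GA Q, Pos ((R ⊔ Subgroup.zpowers w : Subgroup Q) : Set Q) s →
      ∀ q : V, 0 ≤ q → ∀ c : ℝ, 0 < c → sg (1:Q) c • (s • q) ≤ el x • q := by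
    intro s hs
    induction hs with
    | sing z c' hz hc' =>
      intro q hq c hc
      obtain ⟨r, hr, n, rfl⟩ := mem_sup_zpowers hR w z hz
      have h1 := hall (-n) (el (w ^ n) • q) (el_smul_nonneg _ hq) (sg r (c * c'))
        (Pos.sing r _ hr (mul_pos hc hc'))
      rw [el_smul_el] at h1
      have e1 : x * w ^ (-n) * w ^ n = x := by group
      rw [e1] at h1
      have e2 : sg (1:Q) c • (sg (r * w ^ n) c' • q) = sg r (c * c') • (el (w ^ n) • q) := by
        rw [smul_smul, smul_smul, sg_mul, show el (w ^ n) = sg (w ^ n) 1 from rfl, sg_mul]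
        simp
      rw [e2]
      exact h1
    | add a b ha hb iha ihb =>
      intro q hq c hc
      have h1 := iha q hq (2 * c) (by positivity)
      have h2 := ihb q hq (2 * c) (by positivity)
      have h3 := smul_le' (Pos.sing (1 : Q) (1 / 2 : ℝ) (Set.mem_univ _) (by norm_num)) (add_le_add h1 h2)
      have e1 : sg (1:Q) (1 / 2 : ℝ) • (sg (1:Q) (2 * c) • (a • q) + sg (1:Q) (2 * c) • (b • q))
          = sg (1:Q) c • ((a + b) • q) := by
        rw [← smul_add, ← add_smul, smul_smul, sg_mul]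
        congr 2
        · simp
        · ring
      have e2 : sg (1:Q) (1 / 2 : ℝ) • (el x • q + el x • q) = el x • q := by
        have : el x • q + el x • q = sg (1:Q) (2:ℝ) • (el x • q) := by
          have h5 : sg (1:Q) (2:ℝ) = 1 + 1 := by
            rw [← el_one, ← MonoidAlgebra.single_add]
            norm_num
          rw [h5, add_smul, one_smul]
        rw [this, smul_smul, sg_mul]
        rw [show (1 / 2 : ℝ) * 2 = 1 by norm_num, mul_one, show (sg (1:Q) (1:ℝ) : GA Q) = 1 from el_one, one_smul]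
      rw [e1, e2] at h3
      exact h3
  intro q hq s hs
  have := key s hs q hq 1 one_pos
  rwa [show sg (1:Q) (1:ℝ) = 1 from el_one, one_smul] at this

theorem dich_normal {R : Subgroup Q} (hR : R.Normal) {w : Q} (hw : Cen R w) :
    (R ⊔ Subgroup.zpowers w).Normal := by
  refine ⟨fun z hz g => ?_⟩
  obtain ⟨r, hr, n, rfl⟩ := mem_sup_zpowers hR w z hz
  have h1 : g * r * g⁻¹ ∈ R := hR.conj_mem r hr g
  have h2 := Cen_zpow hR hw n g
  have h3 : (w ^ n * g * (w ^ n)⁻¹ * g⁻¹)⁻¹ ∈ R := R.inv_mem h2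
  have e : g * (r * w ^ n) * g⁻¹ = (g * r * g⁻¹) * (w ^ n * g * (w ^ n)⁻¹ * g⁻¹)⁻¹ * w ^ n := by group
  rw [e]
  refine Subgroup.mul_mem _ (Subgroup.mem_sup_left (R.mul_mem h1 h3)) (Subgroup.mem_sup_right ?_)
  exact Subgroup.mem_zpowers_iff.2 ⟨n, rfl⟩

theorem maxR_dich (hm : IsMax Q V) (hd : ∀ p : V, 0 < p → Bd (Q := Q) (Set.univ : Set Q) p)
    (R : Subgroup Q) (x : Q) (p : V) (h : MaxR V R x p)
    (hwn : ∀ y : Q, Cen R y → (∀ q : V, 0 < q → ∀ s, Pos (R : Set Q) s → ¬ (el y • q ≤ s • q)) → Wp V R y)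
    (w : Q) (hw : Cen R w) (hwR : w ∉ R) :
    Wp V R w ∨ Wp V R w⁻¹ := by
  by_contra hcon
  push Not at hcon
  obtain ⟨hc1, hc2⟩ := hcon
  have g1 : ∃ q : V, 0 < q ∧ ∃ s, Pos (R : Set Q) s ∧ el w • q ≤ s • q := by
    by_contra hh
    push Not at hh
    exact hc1 (hwn w hw fun q hq s hs => hh q hq s hs)
  have g2 : ∃ q : V, 0 < q ∧ ∃ s, Pos (R : Set Q) s ∧ el w⁻¹ • q ≤ s • q := by
    by_contra hh
    push Not at hh
    exact hc2 (hwn w⁻¹ (Cen_inv h.nor hw) fun q hq s hs => hh q hq s hs)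
  obtain ⟨q1, hq1, s1, hs1, hle1⟩ := g1
  obtain ⟨q2, hq2, s2, hs2, hle2⟩ := g2
  obtain ⟨J1, hJ1⟩ := dich_C hd h hw hq1 hs1 hle1
  obtain ⟨J2, hJ2⟩ := dich_C hd h (Cen_inv h.nor hw) hq2 hs2 hle2
  have hJ : ∀ n : ℤ, el (w ^ n) • p ≤ el (x ^ (max J1 J2)) • p := by
    intro n
    obtain ⟨k, rfl | rfl⟩ := n.eq_nat_or_neg
    · rw [zpow_natCast]
      exact (hJ1 k).trans (dich_mono h (le_max_left _ _))
    · rw [zpow_neg, zpow_natCast, ← inv_pow]
      exact (hJ2 k).trans (dich_mono h (le_max_right _ _))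
  have hW := dich_final h.nor (dich_claim hd h hwn hw hJ)
  have hle := h.max _ (dich_normal h.nor hw) le_sup_left hW
  exact hwR (hle (Subgroup.mem_sup_right (Subgroup.mem_zpowers w)))

end

end H294Ore
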