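import Pool.Agent.Helper294.Ore.Core
set_option autoImplicit false
set_option linter.all false

namespace H294Ore
open MonoidAlgebra


section
variable {Q V : Type} [Group Q] [AddCommGroup V] [PartialOrder V] [IsOrderedAddMonoid V] [Module (GA Q) V] [OM Q V]


theorem mg_mul (w w' : Q) (v : V) : el (w * w') • v = el w • el w' • v := by
  rw [← el_mul, mul_smul]

theorem mg_one (v : V) : el (1 : Q) • v = v := by
  rw [el_one, one_smul]

theorem mg_le {R : Subgroup Q} {y : Q} (hW : Wp V R y) {q : V} (hq : 0 ≤ q) : q ≤ el y • q := by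
  have := hW q hq 1 (pos_one R)
  rwa [one_smul] at this

theorem mg_r {R : Subgroup Q} {y r : Q} (hW : Wp V R y) (hr : r ∈ R) {q : V} (hq : 0 ≤ q) :
    el r • q ≤ el y • q := hW q hq _ (pos_el_of hr)

theorem mg_two {R : Subgroup Q} {y : Q} (hW : Wp V R y) {q : V} (hq : 0 ≤ q) : q + q ≤ el y • q := by
  have h1 := hW q hq (sg 1 1 + sg 1 1) (Pos.add _ _ (pos_el_of R.one_mem) (pos_el_of R.one_mem))
  rw [add_smul] at h1
  have h2 : (sg (1 : Q) (1 : ℝ)) • q = q := mg_one q
  rwa [h2] at h1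

theorem mg_half (q : V) : (sg (1 : Q) (1 / 2 : ℝ)) • q + (sg (1 : Q) (1 / 2 : ℝ)) • q = q := by
  rw [← add_smul]
  have : (sg (1 : Q) (1 / 2 : ℝ)) + (sg (1 : Q) (1 / 2 : ℝ)) = el 1 := by
    show MonoidAlgebra.single (1 : Q) (1 / 2 : ℝ) + MonoidAlgebra.single (1 : Q) (1 / 2 : ℝ) = MonoidAlgebra.single 1 1
    rw [← MonoidAlgebra.single_add]
    norm_num
  rw [this, mg_one]

/-- multiplying a dominating element by an element of `R` -/
theorem mg_Wp_mul {R : Subgroup Q} {y r : Q} (hW : Wp V R y) (hr : r ∈ R) : Wp V R (y * r) := by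
  intro q hq s hs
  have h1 : s • q = (s * el r⁻¹) • (el r • q) := by
    rw [smul_smul, mul_assoc, el_inv_mul, mul_one]
  rw [h1, mg_mul]
  exact hW _ (el_smul_nonneg r hq) _ (Pos.mulN hs (pos_el_of (R.inv_mem hr)))

theorem mg_pow_mono {R : Subgroup Q} {y : Q} (hW : Wp V R y) {q : V} (hq : 0 ≤ q) {m n : ℕ} (h : m ≤ n) :
    el (y ^ m) • q ≤ el (y ^ n) • q := by
  induction n, h using Nat.le_induction with
  | base => exact le_refl _
  | succ n _ ih =>
    refine ih.trans ?_
    rw [pow_succ', mg_mul]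
    exact mg_le hW (el_smul_nonneg _ hq)

theorem mg_cen_iff {R : Subgroup Q} [R.Normal] {y : Q} :
    Cen R y ↔ ∀ w : Q, (QuotientGroup.mk' R y) * (QuotientGroup.mk' R w) =
      (QuotientGroup.mk' R w) * (QuotientGroup.mk' R y) := by
  unfold Cen
  refine forall_congr' fun w => ?_
  rw [← QuotientGroup.eq_one_iff]
  show QuotientGroup.mk' R (y * w * y⁻¹ * w⁻¹) = 1 ↔ _
  rw [map_mul, map_mul, map_mul, map_inv, map_inv, mul_inv_eq_one, mul_inv_eq_iff_eq_mul]

theorem mg_quot {R : Subgroup Q} [R.Normal] {g h : Q} (hgh : QuotientGroup.mk' R g = QuotientGroup.mk' R h) :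
    ∃ r ∈ R, g = r * h := by
  refine ⟨g * h⁻¹, ?_, by group⟩
  rw [← QuotientGroup.eq_one_iff]
  show QuotientGroup.mk' R (g * h⁻¹) = 1
  rw [map_mul, map_inv, hgh, mul_inv_cancel]

theorem mg_comm1 {G : Type} [Group G] {a b C : G} (hCb : Commute C b) (hab : a * b = C * b * a) (k : ℕ) :
    a * b ^ k = C ^ k * b ^ k * a := by
  induction k with
  | zero => simp
  | succ k ih =>
    calc a * b ^ (k + 1) = (a * b ^ k) * b := by rw [pow_succ, mul_assoc]
      _ = C ^ k * b ^ k * (a * b) := by rw [ih]; group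
      _ = C ^ k * (b ^ k * C) * b * a := by rw [hab]; group
      _ = C ^ k * (C * b ^ k) * b * a := by rw [(hCb.pow_right k).eq]
      _ = C ^ (k + 1) * b ^ (k + 1) * a := by rw [pow_succ, pow_succ]; group

theorem mg_comm2 {G : Type} [Group G] {a b C : G} (hCb : Commute C b) (hCa : Commute C a)
    (hab : a * b = C * b * a) (m k : ℕ) : a ^ m * b ^ k = C ^ (m * k) * b ^ k * a ^ m := by
  induction m with
  | zero => simp
  | succ m ih =>
    calc a ^ (m + 1) * b ^ k = a * (a ^ m * b ^ k) := by rw [pow_succ', mul_assoc]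
      _ = (a * C ^ (m * k)) * b ^ k * a ^ m := by rw [ih]; group
      _ = (C ^ (m * k) * a) * b ^ k * a ^ m := by rw [(hCa.symm.pow_right (m * k)).eq]
      _ = C ^ (m * k) * (a * b ^ k) * a ^ m := by group
      _ = C ^ (m * k) * (C ^ k * b ^ k * a) * a ^ m := by rw [mg_comm1 hCb hab]
      _ = C ^ (m * k + k) * b ^ k * (a * a ^ m) := by rw [pow_add]; group
      _ = C ^ ((m + 1) * k) * b ^ k * a ^ (m + 1) := by rw [← pow_succ']; ring_nf

theorem mg_comm3 {G : Type} [Group G] {a b C : G} (hCb : Commute C b) (hCa : Commute C a)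
    (hab : a * b = C * b * a) (k : ℕ) : C ^ (k * k) = a ^ k * b ^ k * a⁻¹ ^ k * b⁻¹ ^ k := by
  rw [mg_comm2 hCb hCa hab, inv_pow, inv_pow]
  group

/-- products of bounded elements are bounded -/
theorem mg_bd_mul {R : Subgroup Q} {x : Q} {p : V} (hcen : Cen R x) (hn : R.Normal) (hW : Wp V R x) (hp : 0 ≤ p)
    {g h : Q} {e f : ℕ} (hg : el g • p ≤ el (x ^ e) • p) (hh : el h • p ≤ el (x ^ f) • p) :
    el (g * h) • p ≤ el (x ^ (e + f + 1)) • p := by
  haveI := hn
  obtain ⟨r, hr, hgr⟩ : ∃ r ∈ R, g * x ^ f = r * (x ^ f * g) := by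
    apply mg_quot
    rw [map_mul, map_mul, map_pow]
    have h1 : Commute (QuotientGroup.mk' R x) (QuotientGroup.mk' R g) := (mg_cen_iff.mp hcen) g
    exact (h1.symm.pow_right f).eq
  calc el (g * h) • p = el g • el h • p := mg_mul _ _ _
    _ ≤ el g • el (x ^ f) • p := el_smul_le g hh
    _ = el r • el (x ^ f) • el g • p := by rw [← mg_mul, hgr, mg_mul, mg_mul]
    _ ≤ el r • el (x ^ f) • el (x ^ e) • p := el_smul_le _ (el_smul_le _ hg)
    _ ≤ el x • el (x ^ f) • el (x ^ e) • p := mg_r hW hr (el_smul_nonneg _ (el_smul_nonneg _ hp))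
    _ = el (x ^ (e + f + 1)) • p := by
        rw [← mg_mul, ← mg_mul]
        congr 2
        rw [mul_assoc, ← pow_add, ← pow_succ']
        congr 1
        omega

theorem mg_bd_pow {R : Subgroup Q} {x : Q} {p : V} (hcen : Cen R x) (hn : R.Normal) (hW : Wp V R x) (hp : 0 ≤ p)
    {y : Q} {α : ℕ} (hy : el y • p ≤ el (x ^ α) • p) (k : ℕ) :
    el (y ^ k) • p ≤ el (x ^ (k * (α + 1))) • p := by
  induction k with
  | zero => simp
  | succ k ih =>
    rw [pow_succ]
    refine (mg_bd_mul hcen hn hW hp ih hy).trans (le_of_eq ?_)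
    congr 3
    ring

/-- the key domination statement -/
theorem mg_core (R : Subgroup Q) (x : Q) (p : V) (h : MaxR V R x p)
    (hdich : ∀ w : Q, Cen R w → w ∉ R → Wp V R w ∨ Wp V R w⁻¹)
    (c : Q) (hc : Cen R c) (hcR : c ∉ R) (hWc : Wp V R c) :
    ∃ k0 : ℕ, ∀ q : V, 0 ≤ q → el x • q ≤ el (c ^ k0) • q := by
  haveI := h.nor
  by_contra hcon
  push Not at hcon
  -- Wp (c ^ k x⁻¹) never holds
  have hno : ∀ k : ℤ, ¬ Wp V R (c ^ k * x⁻¹) := by
    intro k hk
    have h1 : ∀ q : V, 0 ≤ q → el x • q ≤ el (c ^ k) • q := by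
      intro q hq
      have := mg_le hk (el_smul_nonneg x hq)
      rwa [← mg_mul, mul_assoc, inv_mul_cancel, mul_one] at this
    rcases le_or_gt 0 k with hk0 | hk0
    · obtain ⟨m, rfl⟩ := Int.eq_ofNat_of_zero_le hk0
      obtain ⟨q, hq, hq2⟩ := hcon m
      apply hq2
      have := h1 q hq
      rwa [zpow_natCast] at this
    · obtain ⟨m, hm⟩ := Int.eq_ofNat_of_zero_le (show 0 ≤ -k by omega)
      have h2 := h1 p h.pos.le
      have h3 : el (c ^ k) • p ≤ p := by
        have h4 := mg_pow_mono hWc (el_smul_nonneg (c ^ k) h.pos.le) (Nat.zero_le m)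
        rw [pow_zero, mg_one, ← mg_mul, ← zpow_natCast] at h4
        have e0 : ((m : ℕ) : ℤ) + k = 0 := by
          have : -k = (m : ℤ) := hm
          omega
        rw [← zpow_add, e0, zpow_zero, mg_one] at h4
        exact h4
      have h5 := mg_two h.W h.pos.le
      have h6 : p + p ≤ p := h5.trans (h2.trans h3)
      have h7 : p ≤ 0 := by
        have := sub_le_sub_right h6 p
        simpa using this
      exact absurd h.pos (not_lt_of_ge h7)
  have hcomm : ∀ w : Q, Commute (QuotientGroup.mk' R c) (QuotientGroup.mk' R w) := mg_cen_iff.mp hc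
  have hcomx : ∀ w : Q, Commute (QuotientGroup.mk' R x) (QuotientGroup.mk' R w) := mg_cen_iff.mp h.cen
  have hall : ∀ k : ℤ, Wp V R (x * (c ^ k)⁻¹) := by
    intro k
    have hcen : Cen R (x * (c ^ k)⁻¹) := by
      rw [mg_cen_iff]
      intro w
      rw [map_mul, map_inv, map_zpow]
      exact ((hcomx w).mul_left (((hcomm w).zpow_left k).inv_left)).eq
    by_cases hR : x * (c ^ k)⁻¹ ∈ R
    · exfalso
      apply hno (k + 1)
      have h1 : c ^ (k + 1) * x⁻¹ = c * (x * (c ^ k)⁻¹)⁻¹ := by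
        rw [zpow_add, zpow_one]
        have : c ^ k * c = c * c ^ k := (Commute.refl c).zpow_left k
        rw [this]
        group
      rw [h1]
      exact mg_Wp_mul hWc (R.inv_mem hR)
    · rcases hdich _ hcen hR with h1 | h1
      · exact h1
      · exfalso
        apply hno k
        have h2 : (x * (c ^ k)⁻¹)⁻¹ = c ^ k * x⁻¹ := by group
        rwa [h2] at h1
  -- then x dominates a bigger subgroup
  have hR'n : (R ⊔ Subgroup.zpowers c).Normal := by
    constructor
    intro n hn g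
    have hn' : n ∈ ((R ⊔ Subgroup.zpowers c : Subgroup Q) : Set Q) := hn
    rw [Subgroup.normal_mul] at hn'
    obtain ⟨r, hr, z, hz, rfl⟩ := Set.mem_mul.mp hn'
    obtain ⟨k, rfl⟩ := Subgroup.mem_zpowers_iff.mp hz
    have h1 : g * (r * c ^ k) * g⁻¹ = (g * r * g⁻¹) * (g * c ^ k * g⁻¹) := by group
    have h2 : ∃ r' ∈ R, g * c ^ k * g⁻¹ = r' * c ^ k := by
      apply mg_quot
      rw [map_mul, map_mul, map_inv, map_zpow]
      have := ((hcomm g).zpow_left k).eq
      rw [← this, mul_assoc, mul_inv_cancel, mul_one]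
    obtain ⟨r', hr', h2⟩ := h2
    rw [h1, h2]
    refine Subgroup.mul_mem _ (Subgroup.mem_sup_left (h.nor.conj_mem r hr g)) ?_
    exact Subgroup.mul_mem _ (Subgroup.mem_sup_left hr') (Subgroup.mem_sup_right (Subgroup.zpow_mem_zpowers c k))
  have hWx : Wp V (R ⊔ Subgroup.zpowers c) x := by
    intro q hq s hs
    have key : ∀ l : ℝ, 0 < l → (sg (1 : Q) l * s) • q ≤ el x • q := by
      induction hs with
      | sing w c' hw hc' =>
        intro l hl
        have hw' : w ∈ ((R ⊔ Subgroup.zpowers c : Subgroup Q) : Set Q) := hw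
        rw [Subgroup.normal_mul] at hw'
        obtain ⟨r, hr, z, hz, rfl⟩ := Set.mem_mul.mp hw'
        obtain ⟨k, rfl⟩ := Subgroup.mem_zpowers_iff.mp hz
        have h1 : (sg (1 : Q) l * sg (r * c ^ k) c') • q = sg r (l * c') • (el (c ^ k) • q) := by
          rw [smul_smul, sg_mul, sg_mul, one_mul, mul_one]
        have h2 : el x • q = el (x * (c ^ k)⁻¹) • (el (c ^ k) • q) := by
          rw [← mg_mul]
          congr 2
          group
        show (sg (1 : Q) l * sg (r * c ^ k) c') • q ≤ el x • q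
        rw [h1, h2]
        exact hall k _ (el_smul_nonneg _ hq) _ (Pos.sing r _ hr (mul_pos hl hc'))
      | add a b _ _ iha ihb =>
        intro l hl
        have ha := iha (2 * l) (by linarith)
        have hb := ihb (2 * l) (by linarith)
        have e : ∀ t : GA Q, (sg (1 : Q) l * t) • q = (sg (1 : Q) (1 / 2 : ℝ)) • ((sg (1 : Q) (2 * l) * t) • q) := by
          intro t
          rw [smul_smul, ← mul_assoc, sg_mul, one_mul]
          congr 3
          ring
        rw [mul_add, add_smul, e a, e b, ← mg_half (Q := Q) (el x • q)]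
        have hP : Pos (Set.univ : Set Q) (sg (1 : Q) (1 / 2 : ℝ)) := Pos.sing _ _ (Set.mem_univ _) (by norm_num)
        exact add_le_add (smul_le' hP ha) (smul_le' hP hb)
    have := key 1 one_pos
    rwa [show (sg (1 : Q) (1 : ℝ)) = 1 from el_one, one_mul] at this
  exact hcR (h.max _ hR'n le_sup_left hWx (Subgroup.mem_sup_right (Subgroup.mem_zpowers c)))

theorem mg_main (R : Subgroup Q) (x : Q) (p : V) (h : MaxR V R x p)
    (hdich : ∀ w : Q, Cen R w → w ∉ R → Wp V R w ∨ Wp V R w⁻¹)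
    (a b : Q) (hc : Cen R (a * b * a⁻¹ * b⁻¹)) (hcR : a * b * a⁻¹ * b⁻¹ ∉ R)
    (hWc : Wp V R (a * b * a⁻¹ * b⁻¹)) : False := by
  haveI := h.nor
  set c := a * b * a⁻¹ * b⁻¹ with hcdef
  obtain ⟨k0, hk0⟩ := mg_core R x p h hdich c hc hcR hWc
  have hp := h.pos.le
  have hcomm : ∀ w : Q, Commute (QuotientGroup.mk' R c) (QuotientGroup.mk' R w) := mg_cen_iff.mp hc
  -- bounds for the letters
  obtain ⟨α, h1, h2, h3, h4⟩ : ∃ α : ℕ, el a • p ≤ el (x ^ α) • p ∧ el b • p ≤ el (x ^ α) • p ∧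
      el a⁻¹ • p ≤ el (x ^ α) • p ∧ el b⁻¹ • p ≤ el (x ^ α) • p := by
    obtain ⟨j1, h1⟩ := h.bd (el a • p)
    obtain ⟨j2, h2⟩ := h.bd (el b • p)
    obtain ⟨j3, h3⟩ := h.bd (el a⁻¹ • p)
    obtain ⟨j4, h4⟩ := h.bd (el b⁻¹ • p)
    exact ⟨j1 + j2 + j3 + j4, h1.trans (mg_pow_mono h.W hp (by omega)), h2.trans (mg_pow_mono h.W hp (by omega)),
      h3.trans (mg_pow_mono h.W hp (by omega)), h4.trans (mg_pow_mono h.W hp (by omega))⟩
  have hck : ∀ k : ℕ, el (c ^ (k * k)) • p ≤ el (x ^ (4 * (α + 1) * k + 5)) • p := by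
    intro k
    obtain ⟨r, hr, hrc⟩ : ∃ r ∈ R, c ^ (k * k) = r * (a ^ k * b ^ k * a⁻¹ ^ k * b⁻¹ ^ k) := by
      apply mg_quot
      rw [map_mul, map_mul, map_mul, map_pow, map_pow, map_pow, map_pow, map_pow, map_inv, map_inv]
      refine mg_comm3 (hcomm b) (hcomm a) ?_ k
      have : QuotientGroup.mk' R c = QuotientGroup.mk' R a * QuotientGroup.mk' R b *
          (QuotientGroup.mk' R a)⁻¹ * (QuotientGroup.mk' R b)⁻¹ := by
        rw [hcdef, map_mul, map_mul, map_mul, map_inv, map_inv]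
      rw [this]
      group
    have hr1 : el r • p ≤ el (x ^ 1) • p := by
      rw [pow_one]
      exact mg_r h.W hr hp
    have e1 := mg_bd_pow h.cen h.nor h.W hp h1 k
    have e2 := mg_bd_pow h.cen h.nor h.W hp h2 k
    have e3 := mg_bd_pow h.cen h.nor h.W hp h3 k
    have e4 := mg_bd_pow h.cen h.nor h.W hp h4 k
    have e5 := mg_bd_mul h.cen h.nor h.W hp e1 e2
    have e6 := mg_bd_mul h.cen h.nor h.W hp e5 e3
    have e7 := mg_bd_mul h.cen h.nor h.W hp e6 e4
    have e8 := mg_bd_mul h.cen h.nor h.W hp hr1 e7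
    rw [hrc]
    refine e8.trans (le_of_eq ?_)
    congr 3
    ring
  have hxn : ∀ n : ℕ, ∀ q : V, 0 ≤ q → el (x ^ n) • q ≤ el (c ^ (k0 * n)) • q := by
    intro n
    induction n with
    | zero => intro q hq; simp
    | succ n ih =>
      intro q hq
      calc el (x ^ (n + 1)) • q = el (x ^ n) • el x • q := by rw [pow_succ, mg_mul]
        _ ≤ el (x ^ n) • el (c ^ k0) • q := el_smul_le _ (hk0 q hq)
        _ ≤ el (c ^ (k0 * n)) • el (c ^ k0) • q := ih _ (el_smul_nonneg _ hq)
        _ = el (c ^ (k0 * (n + 1))) • q := by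
            rw [← mg_mul, ← pow_add]
            congr 3
  set A := 4 * (α + 1) with hA
  set k := (k0 + 1) * (A + 6) with hk
  have hk1 : 1 ≤ k := by
    rw [hk]
    exact Nat.mul_pos (by omega) (by omega)
  set E := A * k + 5 with hE
  have hle : k0 * (E + 1) ≤ k * k := by
    have h5 : E + 1 ≤ (A + 6) * k := by
      rw [hE]
      nlinarith
    calc k0 * (E + 1) ≤ (k0 + 1) * ((A + 6) * k) := Nat.mul_le_mul (by omega) h5
      _ = k * k := by rw [hk]; ring
  have hfin : el (x ^ (E + 1)) • p ≤ el (x ^ E) • p :=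
    (hxn (E + 1) p hp).trans ((mg_pow_mono hWc hp hle).trans (hck k))
  have hpos : 0 < el (x ^ E) • p := el_smul_pos _ h.pos
  have htwo := mg_two h.W hpos.le
  rw [pow_succ', mg_mul] at hfin
  have h7 := htwo.trans hfin
  have h8 : el (x ^ E) • p ≤ 0 := by
    have := sub_le_sub_right h7 (el (x ^ E) • p)
    simpa using this
  exact absurd hpos (not_lt_of_ge h8)

theorem maxR_growth (R : Subgroup Q) (x : Q) (p : V) (h : MaxR V R x p)
    (hdich : ∀ w : Q, Cen R w → w ∉ R → Wp V R w ∨ Wp V R w⁻¹)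
    (a b : Q) (hc : Cen R (a * b * a⁻¹ * b⁻¹)) : a * b * a⁻¹ * b⁻¹ ∈ R := by
  by_contra hcR
  haveI := h.nor
  rcases hdich _ hc hcR with hW | hW
  · exact mg_main R x p h hdich a b hc hcR hW
  · have hinv : (a * b * a⁻¹ * b⁻¹)⁻¹ = b * a * b⁻¹ * a⁻¹ := by group
    rw [hinv] at hW
    refine mg_main R x p h hdich b a ?_ ?_ hW
    · rw [← hinv, mg_cen_iff]
      intro w
      rw [map_inv]
      have := (mg_cen_iff.mp hc) w
      exact (Commute.inv_left this).eq
    · rw [← hinv]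
      intro h1
      exact hcR (by simpa using R.inv_mem h1)

end

end H294Ore
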