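import Pool.Agent.Helper294.Ore.Core
set_option autoImplicit false
set_option linter.all false

namespace H294Ore
open MonoidAlgebra


section
variable {Q V : Type} [Group Q] [AddCommGroup V] [PartialOrder V] [IsOrderedAddMonoid V] [Module (GA Q) V] [OM Q V]



theorem wp_mul_mem {R : Subgroup Q} {w r : Q} (hw : Wp V R w) (hr : r ∈ R) : Wp V R (w * r) := by
  intro q hq s hs
  have h1 := hw (el r • q) (el_smul_nonneg r hq) (s * el r⁻¹) (hs.mulN (pos_el_of (R.inv_mem hr)))
  rw [smul_smul, smul_smul, mul_assoc, el_inv_mul, mul_one, el_mul] at h1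
  exact h1

theorem wp_mem_mul {R : Subgroup Q} {w r : Q} (hw : Wp V R w) (hr : r ∈ R) : Wp V R (r * w) := by
  intro q hq s hs
  have h1 := hw q hq (el r⁻¹ * s) ((pos_el_of (R.inv_mem hr)).mulN hs)
  have h2 := el_smul_le r h1
  rw [smul_smul, smul_smul, ← mul_assoc, el_mul_inv, one_mul, el_mul] at h2
  exact h2

theorem wp_mul {R : Subgroup Q} {w w' : Q} (hw : Wp V R w) (hw' : Wp V R w') : Wp V R (w * w') := by
  intro q hq s hs
  have h1 := hw' q hq 1 (pos_one R)
  rw [one_smul] at h1
  have h2 := hw (el w' • q) (el_smul_nonneg w' hq) s hs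
  rw [smul_smul (el w) (el w') q, el_mul] at h2
  exact le_trans (smul_le' hs h1) h2

theorem wp_pow {R : Subgroup Q} {w : Q} (hw : Wp V R w) (n : ℕ) : Wp V R (w ^ (n + 1)) := by
  induction n with
  | zero => simpa using hw
  | succ n ih => rw [pow_succ]; exact wp_mul ih hw

theorem sg_two (w : Q) : sg w 2 = el w + el w := by
  rw [← MonoidAlgebra.single_add]; norm_num

theorem wp_not_mem {R : Subgroup Q} {w : Q} {p : V} (hp : 0 < p) (hw : Wp V R w) : w ∉ R := by
  intro hm
  have h1 := hw p hp.le (sg w 2) (Pos.sing _ _ hm two_pos)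
  rw [sg_two, add_smul] at h1
  have h2 := el_smul_pos w hp
  have h3 : el w • p ≤ 0 := by
    have := sub_nonneg.2 h1
    rw [sub_add_cancel_left] at this
    exact neg_nonneg.1 this
  exact absurd h2 (not_lt_of_ge h3)

theorem wp_not_inv {R : Subgroup Q} {w : Q} {p : V} (hp : 0 < p) (hw : Wp V R w) : ¬ Wp V R w⁻¹ := by
  intro h
  have := wp_mul hw h
  rw [mul_inv_cancel] at this
  exact wp_not_mem hp this R.one_mem

theorem wp_sup {R : Subgroup Q} {x w : Q} (hR : R.Normal)
    (hk : ∀ k : ℤ, Wp V R (x * w ^ k)) : Wp V (R ⊔ Subgroup.zpowers w) x := by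
  have key : ∀ t : GA Q, Pos ((R ⊔ Subgroup.zpowers w : Subgroup Q) : Set Q) t → ∀ m : ℝ, 0 < m →
      ∀ q : V, 0 ≤ q → (sg 1 m * t) • q ≤ el x • q := by
    intro t ht
    induction ht with
    | sing v c hv hc =>
      intro m hm q hq
      have hv' : v ∈ R ⊔ Subgroup.zpowers w := hv
      rw [Subgroup.mem_sup_of_normal_left] at hv'
      obtain ⟨r, hr, z, hz, rfl⟩ := hv'
      obtain ⟨n, rfl⟩ := Subgroup.mem_zpowers_iff.1 hz
      have h1 := hk (-n) (el (w ^ n) • q) (el_smul_nonneg _ hq) (sg r (m * c)) (Pos.sing _ _ hr (mul_pos hm hc))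
      rw [smul_smul, smul_smul, sg_mul, el_mul] at h1
      rw [sg_mul, one_mul]
      have e : x * w ^ (-n) * w ^ n = x := by group
      rw [e, mul_one] at h1
      exact h1
    | add a b _ _ iha ihb =>
      intro m hm q hq
      have h1 := iha (2 * m) (by positivity) q hq
      have h2 := ihb (2 * m) (by positivity) q hq
      have hh : Pos (Set.univ : Set Q) (sg 1 (1/2 : ℝ)) := Pos.sing _ _ (Set.mem_univ _) (by norm_num)
      have h3 := smul_le' hh h1
      have h4 := smul_le' hh h2
      have h5 := add_le_add h3 h4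
      have e1 : sg (1:Q) (1/2 : ℝ) • (sg 1 (2 * m) * a) • q = (sg 1 m * a) • q := by
        rw [smul_smul, ← mul_assoc, sg_mul]; congr 3
        · simp
        · ring_nf
      have e2 : sg (1:Q) (1/2 : ℝ) • (sg 1 (2 * m) * b) • q = (sg 1 m * b) • q := by
        rw [smul_smul, ← mul_assoc, sg_mul]; congr 3
        · simp
        · ring_nf
      have e3 : sg (1:Q) (1/2 : ℝ) • el x • q + sg (1:Q) (1/2 : ℝ) • el x • q = el x • q := by
        rw [← add_smul, ← MonoidAlgebra.single_add, show (1/2 + 1/2 : ℝ) = 1 by norm_num,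
          show (MonoidAlgebra.single (1:Q) (1:ℝ)) = 1 from el_one, one_smul]
      rw [e1, e2, e3] at h5
      rw [mul_add, add_smul]
      exact h5
  intro q hq s hs
  have := key s hs 1 one_pos q hq
  rw [show (sg (1:Q) (1:ℝ)) = 1 from el_one, one_mul] at this
  exact this

theorem maxR_wild (R : Subgroup Q) (x : Q) (p : V) (h : MaxR V R x p)
    (hdich : ∀ w : Q, Cen R w → w ∉ R → Wp V R w ∨ Wp V R w⁻¹)
    (hcomm : ∀ a b : Q, a * b * a⁻¹ * b⁻¹ ∈ R) : Wild V R x p := by
  have hN := h.nor
  have hp := h.pos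
  have hW := h.W
  have hd : ∀ w : Q, w ∉ R → Wp V R w ∨ Wp V R w⁻¹ := fun w hw => hdich w (fun a => hcomm w a) hw
  refine ⟨h.nor, hcomm, h.pos, h.W, h.bd, hd, ?_, ?_⟩
  · intro w hw
    by_contra hcon
    push Not at hcon
    have hwp : ∀ n : ℕ, 0 < n → Wp V R (w ^ n) := by
      intro n hn
      obtain ⟨m, rfl⟩ := Nat.exists_eq_succ_of_ne_zero hn.ne'
      exact wp_pow hw m
    have hneg : ∀ k : ℤ, k < 0 → Wp V R (x * w ^ (-k)) := by
      intro k hk
      obtain ⟨n, hn⟩ := Int.eq_ofNat_of_zero_le (show 0 ≤ -k by omega)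
      rw [hn, zpow_natCast]
      exact wp_mul hW (hwp n (by omega))
    have hall : ∀ k : ℤ, Wp V R (x * w ^ (-k)) := by
      intro k
      by_cases hk : k < 0
      · exact hneg k hk
      · obtain ⟨n, rfl⟩ := Int.eq_ofNat_of_zero_le (show 0 ≤ k by omega)
        have hy : w ^ n * x⁻¹ ∉ R := by
          intro hm
          refine hcon (n + 1) ?_
          rw [pow_succ', mul_assoc]
          exact wp_mul_mem hw hm
        rcases hd _ hy with h1 | h1
        · exact absurd h1 (hcon n)
        · rw [mul_inv_rev, inv_inv] at h1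
          rw [zpow_neg, zpow_natCast]
          exact h1
    have hall' : ∀ k : ℤ, Wp V R (x * w ^ k) := by
      intro k
      have := hall (-k)
      rwa [neg_neg] at this
    have hs := wp_sup hN hall'
    have hnn : (R ⊔ Subgroup.zpowers w : Subgroup Q).Normal := by
      constructor
      intro n hn g
      have e : g * n * g⁻¹ = (g * n * g⁻¹ * n⁻¹) * n := by group
      rw [e]
      exact (R ⊔ Subgroup.zpowers w : Subgroup Q).mul_mem ((le_sup_left : R ≤ R ⊔ Subgroup.zpowers w) (hcomm g n)) hn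
    have hle := h.max _ hnn le_sup_left hs
    exact wp_not_mem hp hw (hle ((le_sup_right : Subgroup.zpowers w ≤ R ⊔ Subgroup.zpowers w) (Subgroup.mem_zpowers w)))
  · intro w
    obtain ⟨j, hj⟩ := h.bd (el w • p)
    refine ⟨j + 1, ?_⟩
    have hq : 0 < el (x ^ j) • p := el_smul_pos _ hp
    by_cases hy : x ^ (j + 1) * w⁻¹ ∈ R
    · exfalso
      have h1 := hW _ hq.le (sg (x ^ (j + 1) * w⁻¹) 2) (Pos.sing _ _ hy two_pos)
      have h2 := el_smul_le (x ^ (j + 1) * w⁻¹) hj
      rw [smul_smul, el_mul, inv_mul_cancel_right] at h2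
      rw [smul_smul (el x) (el (x ^ j)) p, el_mul, ← pow_succ'] at h1
      have h3 := le_trans h1 h2
      rw [sg_two, add_smul] at h3
      have h4 := el_smul_pos (x ^ (j + 1) * w⁻¹) hq
      have h5 : el (x ^ (j + 1) * w⁻¹) • el (x ^ j) • p ≤ 0 := by
        have := sub_nonneg.2 h3
        rw [sub_add_cancel_left] at this
        exact neg_nonneg.1 this
      exact absurd h4 (not_lt_of_ge h5)
    · rcases hd _ hy with h1 | h1
      · exact h1
      · exfalso
        have h2 := h1 (el (x ^ (j + 1)) • p) (el_smul_nonneg _ hp.le) 1 (pos_one R)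
        rw [one_smul, smul_smul, el_mul, mul_inv_rev, inv_inv, inv_mul_cancel_right] at h2
        have h3 := hW _ hq.le (sg 1 2) (Pos.sing _ _ R.one_mem two_pos)
        rw [smul_smul (el x) (el (x ^ j)) p, el_mul, ← pow_succ'] at h3
        have h4 := le_trans h3 (le_trans h2 hj)
        rw [sg_two, add_smul, el_one, one_smul] at h4
        have h5 : el (x ^ j) • p ≤ 0 := by
          have := sub_nonneg.2 h4
          rw [sub_add_cancel_left] at this
          exact neg_nonneg.1 this
        exact absurd hq (not_lt_of_ge h5)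

end

end H294Ore
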