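import Pool.Agent.Helper294.Ore.Core
set_option autoImplicit false
set_option linter.all false

namespace H294Ore
open MonoidAlgebra




open MonoidAlgebra

theorem noeth_GA {Q : Type} [Group Q] (h : IsNoetherianRing (SubR (⊤ : Subgroup Q).toSubmonoid)) :
    IsNoetherianRing (GA Q) := by
  have htop : ∀ a : GA Q, a ∈ SubR (⊤ : Subgroup Q).toSubmonoid := by
    intro a
    induction a using MonoidAlgebra.induction_linear with
    | zero => exact Subring.zero_mem _
    | add x y hx hy => exact Subring.add_mem _ hx hy
    | single w r => exact Subring.subset_closure ⟨w, by simp, r, rfl⟩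
  have hsurj : Function.Surjective (SubR (⊤ : Subgroup Q).toSubmonoid).subtype := by
    intro a
    exact ⟨⟨a, htop a⟩, rfl⟩
  exact isNoetherianRing_of_surjective _ _ _ hsurj

end H294Ore
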