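import Pool.Agent.Helper294.Ore.Core
set_option autoImplicit false
set_option linter.all false

namespace H294Ore
open MonoidAlgebra



theorem noeth_aux_conj {Q : Type} [Group Q] (D : Submonoid Q) (y y' : Q) (hyy : y' * y = 1)
    (h : ∀ w ∈ D, y * w * y' ∈ D) : ∀ s ∈ SubR D, el y * s * el y' ∈ SubR D := by
  intro s hs
  unfold SubR at hs ⊢
  induction hs using Subring.closure_induction with
  | mem x hx =>
    obtain ⟨w, hw, c, rfl⟩ := hx
    rw [sg_mul, sg_mul, one_mul, mul_one]
    exact Subring.subset_closure ⟨_, h w hw, c, rfl⟩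
  | zero => rw [mul_zero, zero_mul]; exact Subring.zero_mem _
  | one =>
    rw [mul_one, el_mul]
    refine Subring.subset_closure ⟨y * y', ?_, 1, rfl⟩
    have := h 1 D.one_mem
    rwa [mul_one] at this
  | add a b _ _ iha ihb => rw [mul_add, add_mul]; exact Subring.add_mem _ iha ihb
  | neg a _ iha => rw [mul_neg, neg_mul]; exact Subring.neg_mem _ iha
  | mul a b _ _ iha ihb =>
    have e : el y * (a * b) * el y' = (el y * a * el y') * (el y * b * el y') := by
      have h1 : el y' * el y = 1 := by rw [el_mul, hyy, el_one]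
      calc el y * (a * b) * el y' = el y * a * 1 * b * el y' := by simp only [mul_assoc, one_mul]
        _ = el y * a * (el y' * el y) * b * el y' := by rw [h1]
        _ = _ := by simp only [mul_assoc]
    rw [e]
    exact Subring.mul_mem _ iha ihb

/-- elements of `SubR D` are sums of `sg w c` with `w ∈ D` -/
theorem noeth_aux_add {Q : Type} [Group Q] (D : Submonoid Q) {t : GA Q} (ht : t ∈ SubR D) :
    t ∈ AddSubgroup.closure {a : GA Q | ∃ w ∈ D, ∃ c : ℝ, a = sg w c} := by
  unfold SubR at ht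
  rw [Subring.mem_closure_iff] at ht
  refine AddSubgroup.closure_mono ?_ ht
  intro a ha
  have ha' : a ∈ Submonoid.closure {a : GA Q | ∃ w ∈ D, ∃ c : ℝ, a = sg w c} := ha
  clear ha ht
  induction ha' using Submonoid.closure_induction with
  | mem x hx => exact hx
  | one => exact ⟨1, D.one_mem, 1, el_one.symm⟩
  | mul a b _ _ iha ihb =>
    obtain ⟨w, hw, c, rfl⟩ := iha
    obtain ⟨w', hw', c', rfl⟩ := ihb
    exact ⟨w * w', D.mul_mem hw hw', c * c', sg_mul _ _ _ _⟩

theorem noeth_aux_ext {Q : Type} [Group Q] (S : Subring (GA Q)) (u t : GA Q) {n N : ℕ} (hN : n ≤ N)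
    (c : ℕ → GA Q) (hc : ∀ i, c i ∈ S) (ht : t = ∑ i ∈ Finset.range n, c i * u ^ i) :
    ∃ c' : ℕ → GA Q, (∀ i, c' i ∈ S) ∧ t = ∑ i ∈ Finset.range N, c' i * u ^ i := by
  refine ⟨fun i => if i < n then c i else 0, fun i => ?_, ?_⟩
  · beta_reduce
    split_ifs
    · exact hc i
    · exact S.zero_mem
  · rw [ht]
    symm
    rw [← Finset.sum_subset (Finset.range_mono hN)]
    · refine Finset.sum_congr rfl fun i hi => ?_
      beta_reduce
      rw [if_pos (Finset.mem_range.mp hi)]
    · intro i _ hi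
      beta_reduce
      rw [if_neg (fun h => hi (Finset.mem_range.mpr h)), zero_mul]

theorem noeth_aux_gen {Q : Type} [Group Q] (D E : Submonoid Q) (y : Q)
    (h : ∀ w ∈ E, ∃ w' ∈ D, ∃ k : ℕ, w = w' * y ^ k) {t : GA Q} (ht : t ∈ SubR E) :
    ∃ (n : ℕ) (c : ℕ → GA Q), (∀ i, c i ∈ SubR D) ∧ t = ∑ i ∈ Finset.range n, c i * el y ^ i := by
  have ht' := noeth_aux_add E ht
  clear ht
  have hpow : ∀ k : ℕ, (el y : GA Q) ^ k = el (y ^ k) := by
    intro k
    induction k with
    | zero => rw [pow_zero, pow_zero, el_one]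
    | succ k ih => rw [pow_succ, ih, el_mul, pow_succ]
  induction ht' using AddSubgroup.closure_induction with
  | mem x hx =>
    obtain ⟨w, hw, c, rfl⟩ := hx
    obtain ⟨w', hw', k, rfl⟩ := h w hw
    refine ⟨k + 1, fun i => if i = k then sg w' c else 0, fun i => ?_, ?_⟩
    · beta_reduce
      split_ifs
      · exact Subring.subset_closure ⟨w', hw', c, rfl⟩
      · exact Subring.zero_mem _
    · rw [Finset.sum_eq_single k]
      · beta_reduce
        rw [if_pos rfl, hpow, sg_mul, mul_one]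
      · intro i _ hi
        beta_reduce
        rw [if_neg hi, zero_mul]
      · intro hk
        exact absurd (Finset.mem_range.mpr (Nat.lt_succ_self k)) hk
  | zero => exact ⟨0, fun _ => 0, fun _ => Subring.zero_mem _, by simp⟩
  | add a b _ _ iha ihb =>
    obtain ⟨n, c, hc, hca⟩ := iha
    obtain ⟨m, d, hd, hdb⟩ := ihb
    obtain ⟨c', hc', hca'⟩ := noeth_aux_ext (SubR D) (el y) a (le_max_left n m) c hc hca
    obtain ⟨d', hd', hdb'⟩ := noeth_aux_ext (SubR D) (el y) b (le_max_right n m) d hd hdb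
    refine ⟨max n m, fun i => c' i + d' i, fun i => Subring.add_mem _ (hc' i) (hd' i), ?_⟩
    simp only [add_mul, Finset.sum_add_distrib]
    rw [← hca', ← hdb']
  | neg a _ iha =>
    obtain ⟨n, c, hc, hca⟩ := iha
    refine ⟨n, fun i => - c i, fun i => Subring.neg_mem _ (hc i), ?_⟩
    simp only [neg_mul, Finset.sum_neg_distrib]
    rw [← hca]

theorem noeth_list {Q : Type} [Group Q]
    (hilb : ∀ (S T : Subring (GA Q)) (_ : S ≤ T) (y : (GA Q)ˣ) (_ : (y : GA Q) ∈ T)
      (_ : ∀ s ∈ S, (y : GA Q) * s * ((y⁻¹ : (GA Q)ˣ) : GA Q) ∈ S) (_ : ∀ s ∈ S, ((y⁻¹ : (GA Q)ˣ) : GA Q) * s * (y : GA Q) ∈ S)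
      (_ : ∀ t ∈ T, ∃ (n : ℕ) (c : ℕ → GA Q), (∀ i, c i ∈ S) ∧ t = ∑ i ∈ Finset.range n, c i * (y : GA Q) ^ i)
      (_ : IsNoetherianRing S), IsNoetherianRing T)
    (R : Subgroup Q) (l : List Q)
    (hn : ∀ y ∈ l, ∀ r ∈ R, y * r * y⁻¹ ∈ R ∧ y⁻¹ * r * y ∈ R)
    (hc : ∀ y ∈ l, ∀ z ∈ l, y * z * y⁻¹ * z⁻¹ ∈ R)
    (h0 : IsNoetherianRing (SubR R.toSubmonoid)) :
    IsNoetherianRing (SubR (Submonoid.closure ((R : Set Q) ∪ {y | y ∈ l}))) := by
  induction l with
  | nil =>
    have e : Submonoid.closure ((R : Set Q) ∪ {y | y ∈ ([] : List Q)}) = R.toSubmonoid := by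
      have : {y : Q | y ∈ ([] : List Q)} = ∅ := by ext; simp
      rw [this, Set.union_empty]
      exact Submonoid.closure_eq R.toSubmonoid
    rw [e]
    exact h0
  | cons y l' ih =>
    have ih' := ih (fun z hz => hn z (List.mem_cons_of_mem _ hz))
      (fun z hz z' hz' => hc z (List.mem_cons_of_mem _ hz) z' (List.mem_cons_of_mem _ hz'))
    set D := Submonoid.closure ((R : Set Q) ∪ {y | y ∈ l'}) with hD
    set E := Submonoid.closure ((R : Set Q) ∪ {z | z ∈ y :: l'}) with hE
    have hDE : D ≤ E := by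
      refine Submonoid.closure_mono (Set.union_subset_union_right _ ?_)
      intro z hz
      exact List.mem_cons_of_mem _ hz
    have hyy : y ∈ y :: l' := List.mem_cons_self
    have hyE : y ∈ E := Submonoid.subset_closure (Or.inr hyy)
    have hRD : ∀ r ∈ R, r ∈ D := fun r hr => Submonoid.subset_closure (Or.inl hr)
    have hlD : ∀ z ∈ l', z ∈ D := fun z hz => Submonoid.subset_closure (Or.inr hz)
    have c1 : ∀ w ∈ D, y * w * y⁻¹ ∈ D := by
      intro w hw
      rw [hD] at hw
      induction hw using Submonoid.closure_induction with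
      | mem x hx =>
        rcases hx with hx | hx
        · exact hRD _ (hn y hyy x hx).1
        · have h1 := hRD _ (hc y hyy x (List.mem_cons_of_mem _ hx))
          have h2 := D.mul_mem h1 (hlD x hx)
          rwa [inv_mul_cancel_right] at h2
      | one => rw [mul_one, mul_inv_cancel]; exact D.one_mem
      | mul a b _ _ iha ihb =>
        have e : y * (a * b) * y⁻¹ = (y * a * y⁻¹) * (y * b * y⁻¹) := by group
        rw [e]; exact D.mul_mem iha ihb
    have c2 : ∀ w ∈ D, y⁻¹ * w * y ∈ D := by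
      intro w hw
      rw [hD] at hw
      induction hw using Submonoid.closure_induction with
      | mem x hx =>
        rcases hx with hx | hx
        · exact hRD _ (hn y hyy x hx).2
        · have h1 := hRD _ (hn y hyy _ (hc x (List.mem_cons_of_mem _ hx) y hyy)).2
          have h2 := D.mul_mem h1 (hlD x hx)
          have e : y⁻¹ * (x * y * x⁻¹ * y⁻¹) * y * x = y⁻¹ * x * y := by group
          rwa [e] at h2
      | one => rw [mul_one, inv_mul_cancel]; exact D.one_mem
      | mul a b _ _ iha ihb =>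
        have e : y⁻¹ * (a * b) * y = (y⁻¹ * a * y) * (y⁻¹ * b * y) := by group
        rw [e]; exact D.mul_mem iha ihb
    have c1k : ∀ k : ℕ, ∀ w ∈ D, y ^ k * w * (y ^ k)⁻¹ ∈ D := by
      intro k
      induction k with
      | zero => intro w hw; simpa using hw
      | succ k ihk =>
        intro w hw
        have e : y ^ (k + 1) * w * (y ^ (k + 1))⁻¹ = y ^ k * (y * w * y⁻¹) * (y ^ k)⁻¹ := by
          rw [pow_succ]; group
        rw [e]
        exact ihk _ (c1 w hw)
    have hgen : ∀ w ∈ E, ∃ w' ∈ D, ∃ k : ℕ, w = w' * y ^ k := by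
      intro w hw
      rw [hE] at hw
      induction hw using Submonoid.closure_induction with
      | mem x hx =>
        rcases hx with hx | hx
        · exact ⟨x, hRD x hx, 0, by simp⟩
        · rcases List.mem_cons.mp hx with hx | hx
          · exact ⟨1, D.one_mem, 1, by simp [hx]⟩
          · exact ⟨x, hlD x hx, 0, by simp⟩
      | one => exact ⟨1, D.one_mem, 0, by simp⟩
      | mul a b _ _ iha ihb =>
        obtain ⟨a', ha', k, rfl⟩ := iha
        obtain ⟨b', hb', m, rfl⟩ := ihb
        refine ⟨a' * (y ^ k * b' * (y ^ k)⁻¹), D.mul_mem ha' (c1k k b' hb'), k + m, ?_⟩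
        rw [pow_add]; group
    refine hilb (SubR D) (SubR E) ?_ ⟨el y, el y⁻¹, el_mul_inv y, el_inv_mul y⟩ ?_ ?_ ?_ ?_ ih'
    · refine Subring.closure_mono ?_
      rintro a ⟨w, hw, c, rfl⟩
      exact ⟨w, hDE hw, c, rfl⟩
    · exact Subring.subset_closure ⟨y, hyE, 1, rfl⟩
    · exact noeth_aux_conj D y y⁻¹ (inv_mul_cancel y) c1
    · exact noeth_aux_conj D y⁻¹ y (mul_inv_cancel y) c2
    · intro t ht
      exact noeth_aux_gen D E y hgen ht

end H294Ore
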