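import Pool.Agent.Helper294.Ore.Core
set_option autoImplicit false
set_option linter.all false

namespace H294Ore
open MonoidAlgebra



theorem aux663_comm {Q : Type} [Group Q] {N : Subgroup Q} [N.Normal] {x : Q} (h : Cen N x) (g : Q) :
    Commute (QuotientGroup.mk' N g) (QuotientGroup.mk' N x) := by
  have h2 : QuotientGroup.mk' N (x * g * x⁻¹ * g⁻¹) = 1 := (QuotientGroup.eq_one_iff _).2 (h g)
  rw [map_mul, map_mul, map_mul, map_inv, map_inv] at h2
  have h3 : QuotientGroup.mk' N x * QuotientGroup.mk' N g =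
      QuotientGroup.mk' N g * QuotientGroup.mk' N x := by
    rw [mul_inv_eq_one, mul_inv_eq_iff_eq_mul] at h2; exact h2
  exact h3.symm

theorem aux663_zcomm {Q : Type} [Group Q] {N : Subgroup Q} [N.Normal] {x : Q} (h : Cen N x) (g : Q)
    (k : ℤ) : g * x ^ k * g⁻¹ * (x ^ k)⁻¹ ∈ N := by
  rw [← QuotientGroup.eq_one_iff]
  have h1 := (aux663_comm h g).zpow_right k
  change QuotientGroup.mk' N (g * x ^ k * g⁻¹ * (x ^ k)⁻¹) = 1
  rw [map_mul, map_mul, map_mul, map_inv, map_inv, map_zpow, h1.eq]
  group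

open Pointwise in
theorem aux663_norm {Q : Type} [Group Q] {n : ℕ} (C : CS Q n) : ∀ i ≤ n, (C.c i).Normal := by
  intro i
  induction i with
  | zero => intro _; rw [C.c0]; infer_instance
  | succ i ih =>
    intro hi
    haveI := ih (by omega)
    have hc := C.cent i (by omega)
    rw [C.step i (by omega)]
    refine ⟨fun b hb g => ?_⟩
    have hb' : b ∈ ((C.c i : Set Q) * (Subgroup.zpowers (C.x i) : Set Q)) := by
      rw [← Subgroup.normal_mul]; exact hb
    obtain ⟨a, ha, z, hz, rfl⟩ := hb'
    obtain ⟨k, rfl⟩ := hz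
    simp only
    have e : g * (a * (C.x i) ^ k) * g⁻¹ =
        (g * a * g⁻¹) * (g * (C.x i) ^ k * g⁻¹ * ((C.x i) ^ k)⁻¹) * (C.x i) ^ k := by group
    rw [e]
    refine mul_mem (mul_mem ?_ ?_) ?_
    · exact Subgroup.mem_sup_left (this.conj_mem a ha g)
    · exact Subgroup.mem_sup_left (aux663_zcomm hc g k)
    · exact Subgroup.mem_sup_right ⟨k, rfl⟩

open Pointwise in
theorem noeth_sub {Q : Type} [Group Q] {n : ℕ} (C : CS Q n)
    (hl : ∀ (R : Subgroup Q) (l : List Q), (∀ y ∈ l, ∀ r ∈ R, y * r * y⁻¹ ∈ R ∧ y⁻¹ * r * y ∈ R) →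
      (∀ y ∈ l, ∀ z ∈ l, y * z * y⁻¹ * z⁻¹ ∈ R) → IsNoetherianRing (SubR R.toSubmonoid) →
      IsNoetherianRing (SubR (Submonoid.closure ((R : Set Q) ∪ {y | y ∈ l}))))
    (R : Subgroup Q) :
    IsNoetherianRing (SubR R.toSubmonoid) := by
  have key : ∀ i ≤ n, IsNoetherianRing (SubR (R ⊓ C.c i).toSubmonoid) := by
    intro i
    induction i with
    | zero =>
      intro _
      have e : SubR (R ⊓ C.c 0).toSubmonoid =
          (MonoidAlgebra.singleOneRingHom : ℝ →+* MonoidAlgebra ℝ Q).range := by
        apply le_antisymm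
        · refine Subring.closure_le.2 ?_
          rintro a ⟨w, hw, c, rfl⟩
          have hw1 : w = 1 := by
            have : w ∈ R ⊓ C.c 0 := hw
            rw [C.c0] at this
            exact Subgroup.mem_bot.1 this.2
          subst hw1
          exact ⟨c, rfl⟩
        · rintro _ ⟨c, rfl⟩
          exact Subring.subset_closure ⟨1, (R ⊓ C.c 0).one_mem, c, rfl⟩
      rw [e]
      infer_instance
    | succ i ih =>
      intro hi
      have hA := ih (by omega)
      have hc := C.cent i (by omega)
      have hst := C.step i (by omega)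
      haveI hN : (C.c i).Normal := aux663_norm C i (by omega)
      haveI hN' : (C.c (i + 1)).Normal := aux663_norm C (i + 1) hi
      set x := C.x i with hx
      set N := C.c i with hNdef
      let K : AddSubgroup ℤ :=
        { carrier := {k | ∃ a ∈ N, x ^ k * a ∈ R}
          zero_mem' := ⟨1, N.one_mem, by simp [R.one_mem]⟩
          add_mem' := by
            rintro k l ⟨a, ha, hka⟩ ⟨b, hb, hlb⟩
            refine ⟨(x ^ (-l) * a * (x ^ (-l))⁻¹) * b, mul_mem (hN.conj_mem a ha _) hb, ?_⟩
            have e : x ^ (k + l) * ((x ^ (-l) * a * (x ^ (-l))⁻¹) * b) = (x ^ k * a) * (x ^ l * b) := by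
              group
            rw [e]
            exact mul_mem hka hlb
          neg_mem' := by
            rintro k ⟨a, ha, hka⟩
            refine ⟨x ^ k * a⁻¹ * (x ^ k)⁻¹, hN.conj_mem _ (N.inv_mem ha) _, ?_⟩
            have e : x ^ (-k) * (x ^ k * a⁻¹ * (x ^ k)⁻¹) = (x ^ k * a)⁻¹ := by group
            rw [e]
            exact inv_mem hka }
      obtain ⟨k0, hk0⟩ := Int.subgroup_cyclic K
      have hk0K : k0 ∈ K := by rw [hk0]; exact AddSubgroup.mem_closure_singleton_self k0
      obtain ⟨a0, ha0, hyR⟩ := hk0K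
      set y := x ^ k0 * a0 with hy
      have hxc : x ∈ C.c (i + 1) := by rw [hst]; exact Subgroup.mem_sup_right ⟨1, by simp⟩
      have hNc : N ≤ C.c (i + 1) := by rw [hst]; exact le_sup_left
      have hyc : y ∈ C.c (i + 1) := mul_mem (zpow_mem hxc k0) (hNc ha0)
      have hclos : (R ⊓ C.c (i + 1)).toSubmonoid =
          Submonoid.closure (((R ⊓ N : Subgroup Q) : Set Q) ∪ {z | z ∈ [y, y⁻¹]}) := by
        apply le_antisymm
        · intro b hb
          have hbR : b ∈ R := (show b ∈ R ⊓ C.c (i + 1) from hb).1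
          have hbc : b ∈ C.c (i + 1) := (show b ∈ R ⊓ C.c (i + 1) from hb).2
          rw [hst] at hbc
          have hb' : b ∈ ((N : Set Q) * (Subgroup.zpowers x : Set Q)) := by
            rw [← Subgroup.normal_mul]; exact hbc
          obtain ⟨a, ha, z, hz, hab⟩ := hb'
          obtain ⟨k, rfl⟩ := hz
          simp only at hab
          have hkK : k ∈ K := by
            refine ⟨x ^ (-k) * a * (x ^ (-k))⁻¹, hN.conj_mem a ha _, ?_⟩
            have e : x ^ k * (x ^ (-k) * a * (x ^ (-k))⁻¹) = a * x ^ k := by group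
            rw [e, hab]
            exact hbR
          rw [hk0] at hkK
          obtain ⟨m, hm⟩ := AddSubgroup.mem_closure_singleton.1 hkK
          have hkm : k = k0 * m := by rw [← hm, smul_eq_mul, mul_comm]
          have hbN : b * (y ^ m)⁻¹ ∈ N := by
            rw [← QuotientGroup.eq_one_iff]
            change QuotientGroup.mk' N (b * (y ^ m)⁻¹) = 1
            have ea : QuotientGroup.mk' N a = 1 := (QuotientGroup.eq_one_iff _).2 ha
            have ea0 : QuotientGroup.mk' N a0 = 1 := (QuotientGroup.eq_one_iff _).2 ha0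
            rw [← hab, map_mul, map_mul, map_inv, map_zpow, map_zpow, hy, map_mul, map_zpow, ea, ea0,
              one_mul, mul_one, hkm, zpow_mul, mul_inv_cancel]
          have hbR' : b * (y ^ m)⁻¹ ∈ R := mul_mem hbR (inv_mem (zpow_mem hyR m))
          have hym : y ^ m ∈ Submonoid.closure (((R ⊓ N : Subgroup Q) : Set Q) ∪ {z | z ∈ [y, y⁻¹]}) := by
            have h1 : y ∈ Submonoid.closure (((R ⊓ N : Subgroup Q) : Set Q) ∪ {z | z ∈ [y, y⁻¹]}) :=
              Submonoid.subset_closure (Or.inr (by simp))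
            have h2 : y⁻¹ ∈ Submonoid.closure (((R ⊓ N : Subgroup Q) : Set Q) ∪ {z | z ∈ [y, y⁻¹]}) :=
              Submonoid.subset_closure (Or.inr (by simp))
            rcases Int.eq_nat_or_neg m with ⟨j, rfl | rfl⟩
            · rw [zpow_natCast]; exact pow_mem h1 j
            · rw [zpow_neg, zpow_natCast, ← inv_pow]; exact pow_mem h2 j
          have e : b = (b * (y ^ m)⁻¹) * y ^ m := by group
          rw [e]
          exact mul_mem (Submonoid.subset_closure (Or.inl ⟨hbR', hbN⟩)) hym
        · refine Submonoid.closure_le.2 ?_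
          rintro z (hz | hz)
          · exact ⟨hz.1, hNc hz.2⟩
          · have hz' : z = y ∨ z = y⁻¹ := by simpa using hz
            rcases hz' with rfl | rfl
            · exact ⟨hyR, hyc⟩
            · exact ⟨R.inv_mem hyR, (C.c (i + 1)).inv_mem hyc⟩
      rw [hclos]
      apply hl (R ⊓ N) [y, y⁻¹] _ _ hA
      · intro z hz r hr
        have hz' : z = y ∨ z = y⁻¹ := by simpa using hz
        have hzR : z ∈ R := by
          rcases hz' with rfl | rfl
          · exact hyR
          · exact R.inv_mem hyR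
        refine ⟨⟨R.mul_mem (R.mul_mem hzR hr.1) (R.inv_mem hzR), hN.conj_mem r hr.2 z⟩,
          ⟨R.mul_mem (R.mul_mem (R.inv_mem hzR) hr.1) hzR, ?_⟩⟩
        have := hN.conj_mem r hr.2 z⁻¹
        rwa [inv_inv] at this
      · intro z hz w hw
        have hz' : z = y ∨ z = y⁻¹ := by simpa using hz
        have hw' : w = y ∨ w = y⁻¹ := by simpa using hw
        have e : z * w * z⁻¹ * w⁻¹ = 1 := by
          rcases hz' with rfl | rfl <;> rcases hw' with rfl | rfl <;> group
        rw [e]
        exact one_mem _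
  have h := key n le_rfl
  rw [C.cn, inf_top_eq] at h
  exact h

end H294Ore
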