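import Pool.Agent.Helper294.Ore.Core
set_option autoImplicit false
set_option linter.all false

namespace H294Ore
open MonoidAlgebra



theorem ore_transfer {Q : Type} [Group Q] (R : Subgroup Q)
    (h : ∀ a b : GA R, Pos Set.univ a → Pos Set.univ b → ∃ s t : GA R, Pos Set.univ s ∧ Pos Set.univ t ∧ s * a = t * b) :
    OreSub R := by
  let φ : GA R →+* GA Q := MonoidAlgebra.mapDomainRingHom ℝ R.subtype
  have hφ : ∀ (r : R) (c : ℝ), φ (sg r c) = sg (r : Q) c := by
    intro r c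
    simp [φ, sg]
  have h1 : ∀ a : GA R, Pos Set.univ a → Pos (R : Set Q) (φ a) := by
    intro a ha
    induction ha with
    | sing w c _ hc => rw [hφ]; exact Pos.sing _ _ w.2 hc
    | add a b _ _ iha ihb => rw [map_add]; exact Pos.add _ _ iha ihb
  have h2 : ∀ a : GA Q, Pos (R : Set Q) a → ∃ a' : GA R, Pos Set.univ a' ∧ φ a' = a := by
    intro a ha
    induction ha with
    | sing w c hw hc => exact ⟨sg ⟨w, hw⟩ c, Pos.sing _ _ (Set.mem_univ _) hc, hφ _ _⟩
    | add a b _ _ iha ihb =>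
      obtain ⟨a', pa, ea⟩ := iha
      obtain ⟨b', pb, eb⟩ := ihb
      exact ⟨a' + b', Pos.add _ _ pa pb, by rw [map_add, ea, eb]⟩
  intro a b ha hb
  obtain ⟨a', pa, ea⟩ := h2 a ha
  obtain ⟨b', pb, eb⟩ := h2 b hb
  obtain ⟨s, t, hs, ht, e⟩ := h a' b' pa pb
  refine ⟨φ s, φ t, h1 s hs, h1 t ht, ?_⟩
  rw [← ea, ← eb, ← map_mul, ← map_mul, e]

end H294Ore
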