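import Pool.Agent.Helper294.Ore.Core
set_option autoImplicit false
set_option linter.all false

namespace H294Ore
open MonoidAlgebra



/-- precones of the group algebra -/
structure Pre {Q : Type} [Group Q] (P : Set (GA Q)) : Prop where
  zero : (0 : GA Q) ∈ P
  add : ∀ a ∈ P, ∀ b ∈ P, a + b ∈ P
  scale : ∀ a ∈ P, ∀ (w : Q) (c : ℝ), 0 < c → sg w c * a ∈ P

theorem Pre.posmul {Q : Type} [Group Q] {P : Set (GA Q)} (hP : Pre P) {D : Set Q} {s : GA Q}
    (hs : Pos D s) {a : GA Q} (ha : a ∈ P) : s * a ∈ P := by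
  induction hs with
  | sing w c _ hc => exact hP.scale a ha w c hc
  | add x y _ _ ihx ihy => rw [add_mul]; exact hP.add _ ihx _ ihy

theorem neg_sg {Q : Type} [Group Q] (w : Q) (c : ℝ) : (sg w c : GA Q) = -sg w (-c) := by
  show MonoidAlgebra.single w c = -MonoidAlgebra.single w (-c)
  rw [← MonoidAlgebra.single_neg, neg_neg]

/-- symmetric part of a precone -/
noncomputable def core {Q : Type} [Group Q] (P : Set (GA Q)) (hP : Pre P) :
    Submodule (GA Q) (GA Q) where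
  carrier := {x | x ∈ P ∧ -x ∈ P}
  zero_mem' := ⟨hP.zero, by rw [neg_zero]; exact hP.zero⟩
  add_mem' := fun {a b} ha hb => ⟨hP.add _ ha.1 _ hb.1, by
    rw [neg_add]; exact hP.add _ ha.2 _ hb.2⟩
  smul_mem' := fun r x hx => by
    rw [smul_eq_mul]
    induction r using MonoidAlgebra.induction_linear with
    | zero => rw [zero_mul]; exact ⟨hP.zero, by rw [neg_zero]; exact hP.zero⟩
    | add a b iha ihb =>
      rw [add_mul]
      exact ⟨hP.add _ iha.1 _ ihb.1, by rw [neg_add]; exact hP.add _ iha.2 _ ihb.2⟩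
    | single w c =>
      rcases lt_trichotomy c 0 with hc | hc | hc
      · have e : (MonoidAlgebra.single w c : GA Q) = -sg w (-c) := neg_sg w c
        rw [e, neg_mul]
        refine ⟨?_, ?_⟩
        · rw [← mul_neg]
          exact hP.scale _ hx.2 _ _ (by linarith)
        · rw [neg_neg]
          exact hP.scale _ hx.1 _ _ (by linarith)
      · rw [hc, MonoidAlgebra.single_zero, zero_mul]
        exact ⟨hP.zero, by rw [neg_zero]; exact hP.zero⟩
      · refine ⟨hP.scale _ hx.1 _ _ hc, ?_⟩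
        rw [← mul_neg]
        exact hP.scale _ hx.2 _ _ hc

theorem mem_core {Q : Type} [Group Q] {P : Set (GA Q)} {hP : Pre P} {x : GA Q} :
    x ∈ core P hP ↔ x ∈ P ∧ -x ∈ P := Iff.rfl

/-- the bad precones -/
structure FF {Q : Type} [Group Q] (f g : GA Q) (P : Set (GA Q)) : Prop where
  pre : Pre P
  f_mem : f ∈ P
  g_mem : -g ∈ P
  not : ¬ (-f ∈ P ∧ g ∈ P)

theorem FF_base {Q : Type} [Group Q] (f g : GA Q) (hf : Pos Set.univ f) (hg : Pos Set.univ g)
    (hno : ¬ ∃ s t : GA Q, Pos Set.univ s ∧ Pos Set.univ t ∧ s * f = t * g) :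
    FF f g {x | ∃ s t : GA Q, (s = 0 ∨ Pos Set.univ s) ∧ (t = 0 ∨ Pos Set.univ t) ∧
      x = s * f - t * g} := by
  have hadd : ∀ s t : GA Q, (s = 0 ∨ Pos Set.univ s) → (t = 0 ∨ Pos Set.univ t) →
      (s + t = 0 ∨ Pos Set.univ (s + t)) := by
    rintro s t (rfl | hs) (rfl | ht)
    · left; simp
    · right; simpa using ht
    · right; simpa using hs
    · right; exact Pos.add _ _ hs ht
  have hone : Pos Set.univ (1 : GA Q) := by rw [← el_one]; exact pos_el 1
  have hsc : ∀ s : GA Q, (s = 0 ∨ Pos Set.univ s) → ∀ (w : Q) (c : ℝ), 0 < c →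
      (sg w c * s = 0 ∨ Pos Set.univ (sg w c * s)) := by
    rintro s (rfl | hs) w c hc
    · left; simp
    · right; exact Pos.mulU (Pos.sing w c (Set.mem_univ _) hc) hs
  refine ⟨⟨⟨0, 0, Or.inl rfl, Or.inl rfl, by simp⟩, ?_, ?_⟩, ⟨1, 0, Or.inr hone, Or.inl rfl, by simp⟩,
    ⟨0, 1, Or.inl rfl, Or.inr hone, by simp⟩, ?_⟩
  · rintro _ ⟨s, t, hs, ht, rfl⟩ _ ⟨s', t', hs', ht', rfl⟩
    exact ⟨s + s', t + t', hadd _ _ hs hs', hadd _ _ ht ht', by rw [add_mul, add_mul]; abel⟩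
  · rintro _ ⟨s, t, hs, ht, rfl⟩ w c hc
    exact ⟨sg w c * s, sg w c * t, hsc _ hs _ _ hc, hsc _ ht _ _ hc, by
      rw [mul_sub, mul_assoc, mul_assoc]⟩
  · rintro ⟨⟨s, t, hs, ht, h⟩, -⟩
    have h1 : (s + 1) * f = t * g := by
      rw [add_mul, one_mul]
      have : s * f - t * g + f = 0 := by rw [← h]; simp
      have h2 : s * f + f - t * g = 0 := by rw [← this]; abel
      exact sub_eq_zero.1 h2
    have hs1 : Pos Set.univ (s + 1) := by
      rcases hs with rfl | hs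
      · rw [zero_add]; exact hone
      · exact Pos.add _ _ hs hone
    rcases ht with rfl | ht
    · rw [zero_mul] at h1
      exact (Pos.mulU hs1 hf).ne_zero h1
    · exact hno ⟨_, _, hs1, ht, h1⟩

/-- existence of a maximal bad precone with maximal core -/
theorem exists_max {Q : Type} [Group Q] [IsNoetherianRing (GA Q)] (f g : GA Q)
    (hf : Pos Set.univ f) (hg : Pos Set.univ g)
    (hno : ¬ ∃ s t : GA Q, Pos Set.univ s ∧ Pos Set.univ t ∧ s * f = t * g) :
    ∃ (P : Set (GA Q)) (hP : FF f g P), (∀ P', FF f g P' → P ⊆ P' → P' = P) ∧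
      ∀ P' (hP' : FF f g P'), core P hP.pre ≤ core P' hP'.pre → core P' hP'.pre = core P hP.pre := by
  classical
  have hbase := FF_base f g hf hg hno
  set A : Set (Submodule (GA Q) (GA Q)) := {I | ∃ (P : Set (GA Q)) (hP : FF f g P), I = core P hP.pre}
    with hA
  have hne : A.Nonempty := ⟨_, _, hbase, rfl⟩
  obtain ⟨I, ⟨P0, hP0, rfl⟩, hmax⟩ := set_has_maximal_iff_noetherian.2
    (inferInstance : IsNoetherian (GA Q) (GA Q)) A hne
  have hmax' : ∀ P' (hP' : FF f g P'), core P0 hP0.pre ≤ core P' hP'.pre →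
      core P' hP'.pre = core P0 hP0.pre := by
    intro P' hP' hle
    by_contra hne'
    exact hmax _ ⟨P', hP', rfl⟩ (lt_of_le_of_ne hle (Ne.symm hne'))
  obtain ⟨P, hP0P, hPmax⟩ := zorn_subset_nonempty {P | FF f g P} (by
    intro c hc hchain hcne
    refine ⟨⋃₀ c, ?_, fun s hs => Set.subset_sUnion_of_mem hs⟩
    obtain ⟨P1, hP1⟩ := hcne
    have hdir : ∀ x ∈ ⋃₀ c, ∀ y ∈ ⋃₀ c, ∃ S ∈ c, x ∈ S ∧ y ∈ S := by
      rintro x ⟨S, hS, hx⟩ y ⟨T, hT, hy⟩
      rcases hchain.total hS hT with h | h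
      · exact ⟨T, hT, h hx, hy⟩
      · exact ⟨S, hS, hx, h hy⟩
    refine ⟨⟨⟨P1, hP1, (hc hP1).pre.zero⟩, ?_, ?_⟩, ⟨P1, hP1, (hc hP1).f_mem⟩,
      ⟨P1, hP1, (hc hP1).g_mem⟩, ?_⟩
    · intro a ha b hb
      obtain ⟨S, hS, h1, h2⟩ := hdir a ha b hb
      exact ⟨S, hS, (hc hS).pre.add _ h1 _ h2⟩
    · rintro a ⟨S, hS, ha⟩ w r hr
      exact ⟨S, hS, (hc hS).pre.scale _ ha w r hr⟩
    · rintro ⟨h1, h2⟩
      obtain ⟨S, hS, h3, h4⟩ := hdir _ h1 _ h2
      exact (hc hS).not ⟨h3, h4⟩) P0 hP0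
  have hPFF : FF f g P := hPmax.prop
  have hcore : core P hPFF.pre = core P0 hP0.pre := by
    apply hmax' P hPFF
    intro x hx
    exact ⟨hP0P hx.1, hP0P hx.2⟩
  refine ⟨P, hPFF, ?_, ?_⟩
  · intro P' hP' hPP
    exact Set.Subset.antisymm (hPmax.le_of_ge hP' hPP) hPP
  · intro P' hP' hle
    rw [hcore] at hle ⊢
    exact hmax' P' hP' hle

/-- the submodule generated by the unit `f - g` (bounded elements) -/
noncomputable def bdd {Q : Type} [Group Q] {P : Set (GA Q)} (hP : Pre P) (p0 : GA Q) (h0 : p0 ∈ P) :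
    Submodule (GA Q) (GA Q) where
  carrier := {v | ∃ s, Pos Set.univ s ∧ s * p0 - v ∈ P ∧ s * p0 + v ∈ P}
  zero_mem' := ⟨1, by rw [← el_one]; exact pos_el 1, by simpa using h0, by simpa using h0⟩
  add_mem' := by
    rintro a b ⟨s, hs, h1, h2⟩ ⟨t, ht, h3, h4⟩
    refine ⟨s + t, Pos.add _ _ hs ht, ?_, ?_⟩
    · have := hP.add _ h1 _ h3
      rw [show (s + t) * p0 - (a + b) = (s * p0 - a) + (t * p0 - b) by rw [add_mul]; abel]
      exact this
    · have := hP.add _ h2 _ h4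
      rw [show (s + t) * p0 + (a + b) = (s * p0 + a) + (t * p0 + b) by rw [add_mul]; abel]
      exact this
  smul_mem' := fun r x hx => by
    rw [smul_eq_mul]
    have hone : Pos Set.univ (1 : GA Q) := by rw [← el_one]; exact pos_el 1
    have hsc : ∀ (w : Q) (c : ℝ), 0 < c → ∃ s, Pos Set.univ s ∧ s * p0 - sg w c * x ∈ P ∧
        s * p0 + sg w c * x ∈ P := by
      intro w c hc
      obtain ⟨s, hs, h1, h2⟩ := hx
      refine ⟨sg w c * s, Pos.mulU (Pos.sing w c (Set.mem_univ _) hc) hs, ?_, ?_⟩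
      · rw [mul_assoc, ← mul_sub]
        exact hP.scale _ h1 _ _ hc
      · rw [mul_assoc, ← mul_add]
        exact hP.scale _ h2 _ _ hc
    induction r using MonoidAlgebra.induction_linear with
    | zero => exact ⟨1, hone, by simpa using h0, by simpa using h0⟩
    | add a b iha ihb =>
      obtain ⟨s, hs, h1, h2⟩ := iha
      obtain ⟨t, ht, h3, h4⟩ := ihb
      refine ⟨s + t, Pos.add _ _ hs ht, ?_, ?_⟩
      · have := hP.add _ h1 _ h3
        rw [show (s + t) * p0 - (a + b) * x = (s * p0 - a * x) + (t * p0 - b * x) by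
          rw [add_mul, add_mul]; abel]
        exact this
      · have := hP.add _ h2 _ h4
        rw [show (s + t) * p0 + (a + b) * x = (s * p0 + a * x) + (t * p0 + b * x) by
          rw [add_mul, add_mul]; abel]
        exact this
    | single w c =>
      rcases lt_trichotomy c 0 with hc | hc | hc
      · have e : (MonoidAlgebra.single w c : GA Q) = -sg w (-c) := neg_sg w c
        obtain ⟨s, hs, h1, h2⟩ := hsc w (-c) (by linarith)
        rw [e, neg_mul]
        exact ⟨s, hs, by rw [sub_neg_eq_add]; exact h2, by rw [← sub_eq_add_neg]; exact h1⟩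
      · rw [hc, MonoidAlgebra.single_zero, zero_mul]
        exact ⟨1, hone, by simpa using h0, by simpa using h0⟩
      · exact hsc w c hc

/-- order on a module given by a cone -/
@[reducible] def conePO {V : Type} [AddCommGroup V] (S : Set V) (h0 : (0 : V) ∈ S)
    (hadd : ∀ a ∈ S, ∀ b ∈ S, a + b ∈ S) (hanti : ∀ a ∈ S, -a ∈ S → a = 0) : PartialOrder V where
  le a b := b - a ∈ S
  le_refl a := by rw [sub_self]; exact h0
  le_trans a b c hab hbc := by
    have := hadd _ hbc _ hab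
    rwa [sub_add_sub_cancel] at this
  le_antisymm a b hab hba := by
    have := hanti _ hba (by rwa [neg_sub])
    exact sub_eq_zero.1 this

theorem conePO_iom {V : Type} [AddCommGroup V] (S : Set V) (h0 : (0 : V) ∈ S)
    (hadd : ∀ a ∈ S, ∀ b ∈ S, a + b ∈ S) (hanti : ∀ a ∈ S, -a ∈ S → a = 0) :
    @IsOrderedAddMonoid V _ (conePO S h0 hadd hanti).toPreorder := by
  letI := conePO S h0 hadd hanti
  constructor
  · intro a b hab c
    show b + c - (a + c) ∈ S
    rw [add_sub_add_right_eq_sub]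
    exact hab
  · intro a b hab c
    show c + b - (c + a) ∈ S
    rw [add_sub_add_left_eq_sub]
    exact hab

theorem setup {Q : Type} [Group Q] [IsNoetherianRing (GA Q)] (f g : GA Q) (hf : Pos Set.univ f) (hg : Pos Set.univ g)
    (hno : ¬ ∃ s t : GA Q, Pos Set.univ s ∧ Pos Set.univ t ∧ s * f = t * g) :
    ∃ (M V : Type) (_ : AddCommGroup M) (_ : Module (GA Q) M) (_ : AddCommGroup V) (_ : PartialOrder V)
      (_ : IsOrderedAddMonoid V) (_ : Module (GA Q) V) (_ : OM Q V) (ι : V →ₗ[GA Q] M) (m : M) (a b : V),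
      IsNoetherian (GA Q) M ∧ Function.Injective ι ∧
      (∀ X : Submodule (GA Q) M, X ⊓ LinearMap.range ι = ⊥ → X = ⊥) ∧
      IsMax Q V ∧ Simple' Q V ∧ f • m = ι a ∧ g • m = ι b ∧ 0 ≤ a ∧ b ≤ 0 ∧ ¬ (a = 0 ∧ b = 0) := by
  classical
  obtain ⟨P, hP, hF1, hF2⟩ := exists_max f g hf hg hno
  have hPr := hP.pre
  set I := core P hPr with hI
  have hIP : ∀ x ∈ I, x ∈ P := fun x hx => hx.1
  have hone : Pos Set.univ (1 : GA Q) := by rw [← el_one]; exact pos_el 1
  set p0 : GA Q := f - g with hp0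
  have hp0P : p0 ∈ P := by
    rw [hp0, sub_eq_add_neg]; exact hPr.add _ hP.f_mem _ hP.g_mem
  set V' := bdd hPr p0 hp0P with hV'
  have hfV : f ∈ V' := ⟨1, hone, by
    rw [one_mul, hp0, show f - g - f = -g by abel]; exact hP.g_mem, by
    rw [one_mul]; exact hPr.add _ hp0P _ hP.f_mem⟩
  have hgV : g ∈ V' := ⟨1, hone, by
    rw [one_mul, sub_eq_add_neg]; exact hPr.add _ hp0P _ hP.g_mem, by
    rw [one_mul, hp0, sub_add_cancel]; exact hP.f_mem⟩
  have hIV : I ≤ V' := fun x hx => ⟨1, hone, by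
    rw [one_mul, sub_eq_add_neg]; exact hPr.add _ hp0P _ hx.2, by
    rw [one_mul]; exact hPr.add _ hp0P _ hx.1⟩
  -- `V'` is hereditary
  have hVh : ∀ p ∈ P, ∀ q ∈ P, p + q ∈ V' → p ∈ V' := by
    rintro p hp q hq ⟨s, hs, h1, h2⟩
    refine ⟨s, hs, ?_, hPr.add _ (hPr.posmul hs hp0P) _ hp⟩
    have := hPr.add _ h1 _ hq
    rwa [show s * p0 - (p + q) + q = s * p0 - p by abel] at this
  -- hereditary submodules above `I` contain `f` and `g`
  have hher : ∀ C : Submodule (GA Q) (GA Q), I ≤ C → C ≠ I →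
      (∀ p ∈ P, ∀ q ∈ P, p + q ∈ C → p ∈ C) → f ∈ C ∧ g ∈ C := by
    intro C hIC hne hC
    by_contra hcon
    set P' : Set (GA Q) := {x | ∃ p ∈ P, ∃ c ∈ C, x = p + c} with hP'
    have hPP : P ⊆ P' := fun x hx => ⟨x, hx, 0, C.zero_mem, by rw [add_zero]⟩
    have hpre : Pre P' := by
      refine ⟨hPP hPr.zero, ?_, ?_⟩
      · rintro _ ⟨p, hp, c, hc, rfl⟩ _ ⟨q, hq, d, hd, rfl⟩
        exact ⟨p + q, hPr.add _ hp _ hq, c + d, C.add_mem hc hd, by abel⟩
      · rintro _ ⟨p, hp, c, hc, rfl⟩ w r hr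
        exact ⟨sg w r * p, hPr.scale _ hp _ _ hr, sg w r * c, C.smul_mem _ hc, by rw [mul_add]⟩
    have hFF : FF f g P' := by
      refine ⟨hpre, hPP hP.f_mem, hPP hP.g_mem, ?_⟩
      rintro ⟨⟨p, hp, c, hc, h1⟩, ⟨q, hq, d, hd, h2⟩⟩
      apply hcon
      constructor
      · apply hC f hP.f_mem p hp
        have : f + p = -c := by
          have : f = -(p + c) := by rw [← h1, neg_neg]
          rw [this]; abel
        rw [this]; exact C.neg_mem hc
      · have h3 : -g ∈ C := by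
          apply hC (-g) hP.g_mem q hq
          have : -g + q = -d := by rw [h2]; abel
          rw [this]; exact C.neg_mem hd
        have := C.neg_mem h3
        rwa [neg_neg] at this
    have heq := hF1 P' hFF hPP
    apply hne
    apply le_antisymm _ hIC
    intro c hc
    have hCP : ∀ c ∈ C, c ∈ P := by
      intro c hc
      rw [← heq]
      exact ⟨0, hPr.zero, c, hc, by rw [zero_add]⟩
    exact ⟨hCP c hc, hCP _ (C.neg_mem hc)⟩
  have hherV : ∀ C : Submodule (GA Q) (GA Q), I ≤ C → C ≠ I →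
      (∀ p ∈ P, ∀ q ∈ P, p + q ∈ C → p ∈ C) → V' ≤ C := by
    intro C hIC hne hC
    obtain ⟨h1, h2⟩ := hher C hIC hne hC
    rintro v ⟨s, hs, h3, h4⟩
    have hp0C : p0 ∈ C := C.sub_mem h1 h2
    have hsC : s * p0 ∈ C := C.smul_mem s hp0C
    have h5 : s * p0 - v ∈ C := by
      apply hC _ h3 _ h4
      rw [show s * p0 - v + (s * p0 + v) = s * p0 + s * p0 by abel]
      exact C.add_mem hsC hsC
    have := C.sub_mem hsC h5
    rwa [sub_sub_cancel] at this
  -- the quotient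
  set Vm := V'.map I.mkQ with hVm
  set mp : Set (GA Q ⧸ I) := {y | ∃ r ∈ P, I.mkQ r = y} with hmp
  have hmk : ∀ x, I.mkQ x ∈ mp ↔ x ∈ P := by
    intro x
    constructor
    · rintro ⟨r, hr, h⟩
      have h1 : x - r ∈ I := by
        rw [← Submodule.Quotient.eq I]
        exact h.symm
      have := hPr.add _ hr _ h1.1
      rwa [add_sub_cancel] at this
    · intro h; exact ⟨x, h, rfl⟩
  have hmkV : ∀ x, I.mkQ x ∈ Vm ↔ x ∈ V' := by
    intro x
    constructor
    · rintro ⟨r, hr, h⟩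
      have h1 : x - r ∈ I := by
        rw [← Submodule.Quotient.eq I]
        exact h.symm
      have := V'.add_mem hr (hIV h1)
      rwa [add_sub_cancel] at this
    · intro h; exact ⟨x, h, rfl⟩
  have hmk0 : ∀ x, I.mkQ x = 0 ↔ x ∈ I := by
    intro x
    rw [Submodule.mkQ_apply, Submodule.Quotient.mk_eq_zero]
  set S : Set Vm := {v | (v : GA Q ⧸ I) ∈ mp} with hS
  have hS0 : (0 : Vm) ∈ S := ⟨0, hPr.zero, by simp⟩
  have hSadd : ∀ a ∈ S, ∀ b ∈ S, a + b ∈ S := by
    rintro a ⟨r, hr, h1⟩ b ⟨t, ht, h2⟩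
    exact ⟨r + t, hPr.add _ hr _ ht, by rw [map_add, h1, h2]; rfl⟩
  have hSanti : ∀ a ∈ S, -a ∈ S → a = 0 := by
    rintro ⟨a, ha⟩ ⟨r, hr, h1⟩ h2
    have h3 : I.mkQ (-r) ∈ mp := by
      have : ((-(⟨a, ha⟩ : Vm) : Vm) : GA Q ⧸ I) ∈ mp := h2
      rw [map_neg, h1]
      exact this
    rw [hmk] at h3
    have h4 : I.mkQ r = 0 := (hmk0 r).2 ⟨hr, h3⟩
    apply Subtype.ext
    show a = 0
    rw [← h4, h1]
  have hSsc : ∀ a ∈ S, ∀ (w : Q) (c : ℝ), 0 < c → sg w c • a ∈ S := by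
    rintro a ⟨r, hr, h1⟩ w c hc
    exact ⟨sg w c * r, hPr.scale _ hr _ _ hc, by
      rw [← smul_eq_mul, map_smul, h1]; rfl⟩
  letI po : PartialOrder Vm := conePO S hS0 hSadd hSanti
  haveI iom : IsOrderedAddMonoid Vm := conePO_iom S hS0 hSadd hSanti
  have hle0 : ∀ v : Vm, 0 ≤ v ↔ v ∈ S := by
    intro v
    show v - 0 ∈ S ↔ v ∈ S
    rw [sub_zero]
  haveI om : OM Q Vm := ⟨fun w c v hc hv => by
    rw [hle0] at hv ⊢
    exact hSsc v hv w c hc⟩
  refine ⟨GA Q ⧸ I, Vm, inferInstance, inferInstance, inferInstance, po, iom, inferInstance, om,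
    Vm.subtype, I.mkQ 1, ⟨I.mkQ f, (hmkV f).2 hfV⟩, ⟨I.mkQ g, (hmkV g).2 hgV⟩, inferInstance,
    Subtype.val_injective, ?_, ?_, ?_, ?_, ?_, ?_, ?_, ?_⟩
  · -- essential
    intro X hX
    rw [Submodule.range_subtype] at hX
    set X' := X.comap I.mkQ with hX'
    have hIX : I ≤ X' := by
      intro x hx
      show I.mkQ x ∈ X
      rw [(hmk0 x).2 hx]
      exact X.zero_mem
    have hVX : ∀ x ∈ V', x ∈ X' → x ∈ I := by
      intro x hx hxX
      rw [← hmk0]
      have : I.mkQ x ∈ X ⊓ Vm := ⟨hxX, (hmkV x).2 hx⟩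
      rw [hX] at this
      exact (Submodule.mem_bot _).1 this
    set P' : Set (GA Q) := {x | ∃ p ∈ P, p ∈ V' ∧ ∃ c ∈ X', x = p + c} with hP'
    have hpre : Pre P' := by
      refine ⟨⟨0, hPr.zero, V'.zero_mem, 0, X'.zero_mem, by rw [add_zero]⟩, ?_, ?_⟩
      · rintro _ ⟨p, hp, hpV, c, hc, rfl⟩ _ ⟨q, hq, hqV, d, hd, rfl⟩
        exact ⟨p + q, hPr.add _ hp _ hq, V'.add_mem hpV hqV, c + d, X'.add_mem hc hd, by abel⟩
      · rintro _ ⟨p, hp, hpV, c, hc, rfl⟩ w r hr
        exact ⟨sg w r * p, hPr.scale _ hp _ _ hr, V'.smul_mem _ hpV, sg w r * c,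
          X'.smul_mem _ hc, by rw [mul_add]⟩
    have hFF : FF f g P' := by
      refine ⟨hpre, ⟨f, hP.f_mem, hfV, 0, X'.zero_mem, by rw [add_zero]⟩,
        ⟨-g, hP.g_mem, V'.neg_mem hgV, 0, X'.zero_mem, by rw [add_zero]⟩, ?_⟩
      rintro ⟨⟨p, hp, hpV, c, hc, h1⟩, ⟨q, hq, hqV, d, hd, h2⟩⟩
      apply hP.not
      constructor
      · have e : f + p = -c := by
          have : f = -(p + c) := by rw [← h1, neg_neg]
          rw [this]; abel
        have h3 : f + p ∈ I := hVX _ (V'.add_mem hfV hpV) (by rw [e]; exact X'.neg_mem hc)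
        have := hPr.add _ hp _ h3.2
        rwa [show p + -(f + p) = -f by abel] at this
      · have e : -g + q = -d := by rw [h2]; abel
        have h3 : -g + q ∈ I := hVX _ (V'.add_mem (V'.neg_mem hgV) hqV) (by
          rw [e]; exact X'.neg_mem hd)
        have := hPr.add _ hq _ h3.2
        rwa [show q + -(-g + q) = g by abel] at this
    have hXc : X' ≤ core P' hFF.pre := by
      intro x hx
      exact ⟨⟨0, hPr.zero, V'.zero_mem, x, hx, by rw [zero_add]⟩,
        ⟨0, hPr.zero, V'.zero_mem, -x, X'.neg_mem hx, by rw [zero_add]⟩⟩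
    have hcore := hF2 P' hFF (hIX.trans hXc)
    rw [hcore] at hXc
    rw [eq_bot_iff]
    intro y hy
    obtain ⟨x, rfl⟩ := I.mkQ_surjective y
    rw [Submodule.mem_bot, hmk0]
    exact hXc hy
  · -- maximal
    intro C hCadd hCsc hCanti hCpos v hv
    rw [hle0]
    set C' : Set (GA Q) := {x | ∃ h : I.mkQ x ∈ Vm, (⟨I.mkQ x, h⟩ : Vm) ∈ C} with hC'
    have hC'add : ∀ x ∈ C', ∀ y ∈ C', x + y ∈ C' := by
      rintro x ⟨hx, hx2⟩ y ⟨hy, hy2⟩
      refine ⟨by rw [map_add]; exact Vm.add_mem hx hy, ?_⟩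
      have := hCadd _ hx2 _ hy2
      have e : (⟨I.mkQ (x + y), by rw [map_add]; exact Vm.add_mem hx hy⟩ : Vm) =
        ⟨I.mkQ x, hx⟩ + ⟨I.mkQ y, hy⟩ := Subtype.ext (map_add _ _ _)
      rw [e]
      exact this
    have hC'sc : ∀ x ∈ C', ∀ (w : Q) (c : ℝ), 0 < c → sg w c * x ∈ C' := by
      rintro x ⟨hx, hx2⟩ w c hc
      have e0 : I.mkQ (sg w c * x) = sg w c • I.mkQ x := by rw [← smul_eq_mul, map_smul]
      refine ⟨by rw [e0]; exact Vm.smul_mem _ hx, ?_⟩
      have := hCsc _ hx2 w c hc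
      have e : (⟨I.mkQ (sg w c * x), by rw [e0]; exact Vm.smul_mem _ hx⟩ : Vm) =
        sg w c • ⟨I.mkQ x, hx⟩ := Subtype.ext e0
      rw [e]
      exact this
    have hC'V : ∀ x ∈ C', x ∈ V' := by
      rintro x ⟨hx, -⟩
      exact (hmkV x).1 hx
    have hC'anti : ∀ x ∈ C', -x ∈ C' → x ∈ I := by
      rintro x ⟨hx, hx2⟩ ⟨hnx, hnx2⟩
      rw [← hmk0]
      have e : (⟨I.mkQ (-x), hnx⟩ : Vm) = -⟨I.mkQ x, hx⟩ := Subtype.ext (map_neg _ _)
      rw [e] at hnx2
      have := hCanti _ hx2 hnx2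
      exact congrArg Subtype.val this
    have hPC : ∀ x ∈ P, x ∈ V' → x ∈ C' := by
      intro x hx hxV
      refine ⟨(hmkV x).2 hxV, ?_⟩
      apply hCpos
      rw [hle0]
      exact (hmk x).2 hx
    have hC'0 : (0 : GA Q) ∈ C' := hPC 0 hPr.zero V'.zero_mem
    set P' : Set (GA Q) := {x | ∃ p ∈ P, ∃ c ∈ C', x = p + c} with hP'
    have hPP : P ⊆ P' := fun x hx => ⟨x, hx, 0, hC'0, by rw [add_zero]⟩
    have hpre : Pre P' := by
      refine ⟨hPP hPr.zero, ?_, ?_⟩
      · rintro _ ⟨p, hp, c, hc, rfl⟩ _ ⟨q, hq, d, hd, rfl⟩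
        exact ⟨p + q, hPr.add _ hp _ hq, c + d, hC'add _ hc _ hd, by abel⟩
      · rintro _ ⟨p, hp, c, hc, rfl⟩ w r hr
        exact ⟨sg w r * p, hPr.scale _ hp _ _ hr, sg w r * c, hC'sc _ hc _ _ hr, by rw [mul_add]⟩
    have hFF : FF f g P' := by
      refine ⟨hpre, hPP hP.f_mem, hPP hP.g_mem, ?_⟩
      rintro ⟨⟨p, hp, c, hc, h1⟩, ⟨q, hq, d, hd, h2⟩⟩
      apply hP.not
      have hfC := hPC f hP.f_mem hfV
      have hgC := hPC (-g) hP.g_mem (V'.neg_mem hgV)
      constructor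
      · have e : f + c = -p := by
          have : f = -(p + c) := by rw [← h1, neg_neg]
          rw [this]; abel
        have hfc : f + c ∈ C' := hC'add _ hfC _ hc
        have hpV : p ∈ V' := by
          have := V'.neg_mem (hC'V _ hfc)
          rwa [e, neg_neg] at this
        have hpI : p ∈ I := by
          apply hC'anti p (hPC p hp hpV)
          rw [← e]; exact hfc
        have := hPr.add _ hpI.2
        have hfcI : f + c ∈ I := by rw [e]; exact I.neg_mem hpI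
        have hcI : f ∈ I := by
          apply hC'anti f hfC
          have h3 : -f = c - (f + c) := by abel
          have h4 : -(f + c) ∈ P := hfcI.2
          rw [h3, sub_eq_add_neg]
          exact hC'add _ hc _ (hPC _ h4 (V'.neg_mem (hC'V _ hfc)))
        exact hcI.2
      · have e : -g + d = -q := by rw [h2]; abel
        have hgc : -g + d ∈ C' := hC'add _ hgC _ hd
        have hqV : q ∈ V' := by
          have := V'.neg_mem (hC'V _ hgc)
          rwa [e, neg_neg] at this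
        have hqI : q ∈ I := by
          apply hC'anti q (hPC q hq hqV)
          rw [← e]; exact hgc
        have hgcI : -g + d ∈ I := by rw [e]; exact I.neg_mem hqI
        have hI2 : -g ∈ I := by
          apply hC'anti (-g) hgC
          have h3 : - -g = d - (-g + d) := by abel
          have h4 : -(-g + d) ∈ P := hgcI.2
          rw [h3, sub_eq_add_neg]
          exact hC'add _ hd _ (hPC _ h4 (V'.neg_mem (hC'V _ hgc)))
        have := hI2.2
        rwa [neg_neg] at this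
    have heq := hF1 P' hFF hPP
    obtain ⟨v, hvm⟩ := v
    obtain ⟨x, rfl⟩ := I.mkQ_surjective v
    show I.mkQ x ∈ mp
    rw [hmk, ← heq]
    exact ⟨0, hPr.zero, x, ⟨hvm, hv⟩, by rw [zero_add]⟩
  · -- simple
    intro H hH
    set C := (H.map Vm.subtype).comap I.mkQ with hC
    have hIC : I ≤ C := by
      intro x hx
      show I.mkQ x ∈ H.map Vm.subtype
      rw [(hmk0 x).2 hx]
      exact Submodule.zero_mem _
    have hmemC : ∀ x, x ∈ C ↔ ∃ h : I.mkQ x ∈ Vm, (⟨I.mkQ x, h⟩ : Vm) ∈ H := by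
      intro x
      constructor
      · rintro ⟨⟨y, hy⟩, hyH, hyx⟩
        have hyx' : y = I.mkQ x := hyx
        subst hyx'
        exact ⟨hy, hyH⟩
      · rintro ⟨h, hH⟩
        exact ⟨_, hH, rfl⟩
    by_cases hne : C = I
    · left
      rw [eq_bot_iff]
      rintro ⟨y, hy⟩ hyH
      obtain ⟨x, rfl⟩ := I.mkQ_surjective y
      have h1 : x ∈ C := (hmemC x).2 ⟨hy, hyH⟩
      rw [hne] at h1
      rw [Submodule.mem_bot]
      exact Subtype.ext ((hmk0 x).2 h1)
    · right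
      have hCh : ∀ p ∈ P, ∀ q ∈ P, p + q ∈ C → p ∈ C := by
        intro p hp q hq hpq
        obtain ⟨h1, h2⟩ := (hmemC _).1 hpq
        have h3 : p + q ∈ V' := (hmkV _).1 h1
        have hpV : p ∈ V' := hVh p hp q hq h3
        have hqV : q ∈ V' := hVh q hq p hp (by rwa [add_comm])
        rw [hmemC]
        refine ⟨(hmkV p).2 hpV, ?_⟩
        apply hH ⟨I.mkQ p, (hmkV p).2 hpV⟩ ⟨I.mkQ q, (hmkV q).2 hqV⟩
        · rw [hle0]; exact (hmk p).2 hp
        · rw [hle0]; exact (hmk q).2 hq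
        · have e : (⟨I.mkQ p, (hmkV p).2 hpV⟩ : Vm) + ⟨I.mkQ q, (hmkV q).2 hqV⟩ =
            ⟨I.mkQ (p + q), h1⟩ := Subtype.ext (map_add _ _ _).symm
          rw [e]; exact h2
      have hVC := hherV C hIC hne hCh
      rw [eq_top_iff]
      rintro ⟨y, hy⟩ -
      obtain ⟨x, rfl⟩ := I.mkQ_surjective y
      obtain ⟨h1, h2⟩ := (hmemC x).1 (hVC ((hmkV x).1 hy))
      exact h2
  · show f • I.mkQ 1 = I.mkQ f
    rw [← map_smul, smul_eq_mul, mul_one]
  · show g • I.mkQ 1 = I.mkQ g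
    rw [← map_smul, smul_eq_mul, mul_one]
  · rw [hle0]
    exact (hmk f).2 hP.f_mem
  · show (0 : Vm) - ⟨I.mkQ g, (hmkV g).2 hgV⟩ ∈ S
    rw [zero_sub]
    show -(I.mkQ g) ∈ mp
    rw [← map_neg]
    exact (hmk _).2 hP.g_mem
  · rintro ⟨h1, h2⟩
    apply hP.not
    have h3 : I.mkQ f = 0 := congrArg Subtype.val h1
    have h4 : I.mkQ g = 0 := congrArg Subtype.val h2
    exact ⟨((hmk0 f).1 h3).2, ((hmk0 g).1 h4).1⟩

end H294Ore
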