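import Pool.Agent.Helper294.Ore.Core
set_option autoImplicit false
set_option linter.all false

namespace H294Ore
open MonoidAlgebra


section
variable {Q V : Type} [Group Q] [AddCommGroup V] [PartialOrder V] [IsOrderedAddMonoid V] [Module (GA Q) V] [OM Q V]


theorem tame_aux_sg (c d : ℝ) (v : V) : sg (1 : Q) c • sg (1 : Q) d • v = sg (1 : Q) (c * d) • v := by
  rw [smul_smul, sg_mul, one_mul]

theorem tame_aux_el (w w' : Q) (v : V) : el w • el w' • v = el (w * w') • v := by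
  rw [smul_smul, el_mul]

theorem tame_aux_comm (c : ℝ) (a : GA Q) (v : V) : a • sg (1 : Q) c • v = sg (1 : Q) c • a • v := by
  rw [smul_smul, smul_smul, sg_one_comm]

theorem tame_aux_pow1 {x u : Q} {l : ℝ}
    (h : ∀ v : V, el (x * u) • v = sg (1 : Q) l • el (u * x) • v) (m : ℕ) :
    ∀ v : V, el (x ^ m * u) • v = sg (1 : Q) (l ^ m) • el (u * x ^ m) • v := by
  induction m with
  | zero =>
    intro v
    simp only [pow_zero, one_mul, mul_one]
    rw [show sg (1 : Q) (1 : ℝ) = 1 from el_one, one_smul]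
  | succ m ih =>
    intro v
    rw [pow_succ, mul_assoc, ← tame_aux_el (x ^ m) (x * u), h, tame_aux_comm, tame_aux_el,
      ← mul_assoc, ← tame_aux_el (x ^ m * u) x, ih, tame_aux_sg, tame_aux_el, mul_assoc,
      pow_succ, mul_comm l]

theorem tame_aux_pow2 {y u : Q} {l : ℝ}
    (h : ∀ v : V, el (y * u) • v = sg (1 : Q) l • el (u * y) • v) (m : ℕ) :
    ∀ v : V, el (y * u ^ m) • v = sg (1 : Q) (l ^ m) • el (u ^ m * y) • v := by
  induction m with
  | zero =>
    intro v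
    simp only [pow_zero, one_mul, mul_one]
    rw [show sg (1 : Q) (1 : ℝ) = 1 from el_one, one_smul]
  | succ m ih =>
    intro v
    rw [pow_succ, ← mul_assoc, ← tame_aux_el (y * u ^ m) u, ih, tame_aux_el,
      mul_assoc, ← tame_aux_el (u ^ m) (y * u), h, tame_aux_comm, tame_aux_sg, tame_aux_el,
      ← mul_assoc, pow_succ]

theorem tame_aux_bd {y : Q} {p : V} {c : ℝ} (hc : 0 < c) (h : el y • p ≤ sg (1 : Q) c • p) (m : ℕ) :
    el (y ^ m) • p ≤ sg (1 : Q) (c ^ m) • p := by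
  induction m with
  | zero => simp only [pow_zero]; exact le_rfl
  | succ m ih =>
    rw [pow_succ', ← tame_aux_el]
    refine (el_smul_le y ih).trans ?_
    rw [tame_aux_comm]
    refine (smul_le' (Pos.sing (D := Set.univ) (1 : Q) (c ^ m) (Set.mem_univ _) (pow_pos hc m)) h).trans ?_
    rw [tame_aux_sg, pow_succ]

theorem tame_aux_le {p : V} (hp : 0 < p) {c d : ℝ} (h : sg (1 : Q) c • p ≤ sg (1 : Q) d • p) :
    c ≤ d := by
  by_contra hcon
  push Not at hcon
  have h1 : 0 < sg (1 : Q) (c - d) • p :=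
    smul_pos' (Pos.sing (D := Set.univ) (1 : Q) (c - d) (Set.mem_univ _) (sub_pos.mpr hcon)) hp
  have h2 : sg (1 : Q) c • p = sg (1 : Q) d • p + sg (1 : Q) (c - d) • p := by
    rw [← add_smul]
    congr 1
    rw [show sg (1 : Q) d + sg (1 : Q) (c - d) = sg (1 : Q) (d + (c - d)) from
      (MonoidAlgebra.single_add _ _ _).symm]
    congr 1
    ring
  rw [h2] at h
  have h3 : sg (1 : Q) (c - d) • p ≤ 0 := by
    simpa using h
  exact absurd h1 (not_lt_of_ge h3)

theorem tame_aux_key {p : V} (hp : 0 < p)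
    (hb : ∀ v : V, ∃ c : ℝ, 0 < c ∧ v ≤ sg (1 : Q) c • p) {x u : Q} {l : ℝ} (hl : 0 < l)
    (h : ∀ v : V, el (x * u) • v = sg (1 : Q) l • el (u * x) • v) : l ≤ 1 := by
  obtain ⟨a, ha, ha'⟩ := hb (el x • p)
  obtain ⟨b, hb1, hb'⟩ := hb (el u • p)
  obtain ⟨a2, ha2, ha2'⟩ := hb (el x⁻¹ • p)
  obtain ⟨b2, hb2, hb2'⟩ := hb (el u⁻¹ • p)
  have key : ∀ m : ℕ, (l ^ m) ^ m ≤ (a2 * b2 * (a * b)) ^ m := by
    intro m
    have h1 := tame_aux_pow2 (tame_aux_pow1 h m) m
    -- upper bound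
    have h2 : el (x ^ m * u ^ m) • p ≤ sg (1 : Q) (b ^ m * a ^ m) • p := by
      rw [← tame_aux_el]
      refine (el_smul_le (x ^ m) (tame_aux_bd hb1 hb' m)).trans ?_
      rw [tame_aux_comm]
      refine (smul_le' (Pos.sing (D := Set.univ) (1 : Q) (b ^ m) (Set.mem_univ _) (pow_pos hb1 m))
        (tame_aux_bd ha ha' m)).trans ?_
      rw [tame_aux_sg]
    have h3 : el (x⁻¹ ^ m * u⁻¹ ^ m) • p ≤ sg (1 : Q) (b2 ^ m * a2 ^ m) • p := by
      rw [← tame_aux_el]
      refine (el_smul_le (x⁻¹ ^ m) (tame_aux_bd hb2 hb2' m)).trans ?_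
      rw [tame_aux_comm]
      refine (smul_le' (Pos.sing (D := Set.univ) (1 : Q) (b2 ^ m) (Set.mem_univ _) (pow_pos hb2 m))
        (tame_aux_bd ha2 ha2' m)).trans ?_
      rw [tame_aux_sg]
    have h4 : p ≤ sg (1 : Q) (b2 ^ m * a2 ^ m) • el (u ^ m * x ^ m) • p := by
      have := el_smul_le (u ^ m * x ^ m) h3
      rw [tame_aux_el, tame_aux_comm] at this
      have e : u ^ m * x ^ m * (x⁻¹ ^ m * u⁻¹ ^ m) = 1 := by
        rw [inv_pow, inv_pow]; group
      rw [e, el_one, one_smul] at this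
      exact this
    have h5 : sg (1 : Q) ((l ^ m) ^ m) • p ≤
        sg (1 : Q) ((l ^ m) ^ m) • sg (1 : Q) (b2 ^ m * a2 ^ m) • el (u ^ m * x ^ m) • p :=
      smul_le' (Pos.sing (D := Set.univ) (1 : Q) _ (Set.mem_univ _) (by positivity)) h4
    rw [tame_aux_comm, ← h1] at h5
    have h6 := h5.trans (smul_le' (Pos.sing (D := Set.univ) (1 : Q) (b2 ^ m * a2 ^ m)
      (Set.mem_univ _) (by positivity)) h2)
    rw [tame_aux_sg] at h6
    have h7 := tame_aux_le hp h6
    calc (l ^ m) ^ m ≤ b2 ^ m * a2 ^ m * (b ^ m * a ^ m) := h7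
      _ = (a2 * b2 * (a * b)) ^ m := by rw [mul_pow, mul_pow, mul_pow]; ring
  by_contra hcon
  push Not at hcon
  obtain ⟨m, hm⟩ := pow_unbounded_of_one_lt (a2 * b2 * (a * b)) hcon
  have h1 : a2 * b2 * (a * b) < l ^ (m + 1) :=
    lt_of_lt_of_le hm (pow_le_pow_right₀ hcon.le (Nat.le_succ m))
  have h2 := key (m + 1)
  have h3 : (a2 * b2 * (a * b)) ^ (m + 1) < (l ^ (m + 1)) ^ (m + 1) :=
    pow_lt_pow_left₀ h1 (by positivity) (Nat.succ_ne_zero m)
  exact absurd h2 (not_le_of_gt h3)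

/-- the group elements acting by scalars -/
def tameS (Q V : Type) [Group Q] [AddCommGroup V] [PartialOrder V] [IsOrderedAddMonoid V]
    [Module (GA Q) V] [OM Q V] : Subgroup Q where
  carrier := {w | ∃ l : ℝ, 0 < l ∧ ∀ v : V, el w • v = sg (1 : Q) l • v}
  one_mem' := ⟨1, one_pos, fun v => rfl⟩
  mul_mem' := by
    rintro w w' ⟨l, hl, h⟩ ⟨l', hl', h'⟩
    refine ⟨l' * l, mul_pos hl' hl, fun v => ?_⟩
    rw [← tame_aux_el, h', tame_aux_comm, h, tame_aux_sg]
  inv_mem' := by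
    rintro w ⟨l, hl, h⟩
    refine ⟨l⁻¹, inv_pos.mpr hl, fun v => ?_⟩
    have h1 : el w⁻¹ • el w • v = v := by
      rw [tame_aux_el, inv_mul_cancel, el_one, one_smul]
    rw [h, tame_aux_comm] at h1
    have h2 : sg (1 : Q) l⁻¹ • sg (1 : Q) l • el w⁻¹ • v = sg (1 : Q) l⁻¹ • v :=
      congrArg (fun z => sg (1 : Q) l⁻¹ • z) h1
    rw [tame_aux_sg, inv_mul_cancel₀ hl.ne', show sg (1 : Q) (1 : ℝ) = 1 from el_one, one_smul] at h2
    exact h2

theorem tame_all {n : ℕ} (C : CS Q n) (p : V) (hp : 0 < p)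
    (hb : ∀ v : V, ∃ c : ℝ, 0 < c ∧ v ≤ sg (1 : Q) c • p)
    (hsc : ∀ z : Q, (∀ (u : Q) (v : V), el (z * u) • v = el (u * z) • v) →
      ∃ l : ℝ, 0 < l ∧ ∀ v : V, el z • v = sg (1 : Q) l • v) (w : Q) :
    ∃ l : ℝ, 0 < l ∧ ∀ v : V, el w • v = sg (1 : Q) l • v := by
  have key : ∀ i, i ≤ n → C.c i ≤ tameS Q V := by
    intro i
    induction i with
    | zero => intro _; rw [C.c0]; exact bot_le
    | succ i ih =>
      intro hi
      have ih' := ih (by omega)
      rw [C.step i (by omega)]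
      refine sup_le ih' ?_
      rw [Subgroup.zpowers_le]
      refine hsc (C.x i) fun u v => ?_
      obtain ⟨l, hl, h⟩ := ih' (C.cent i (by omega) u)
      have h1 : ∀ v : V, el (C.x i * u) • v = sg (1 : Q) l • el (u * C.x i) • v := by
        intro v
        rw [← h, tame_aux_el]
        congr 2
        group
      have h2 : ∀ v : V, el (u * C.x i) • v = sg (1 : Q) l⁻¹ • el (C.x i * u) • v := by
        intro v
        rw [h1, tame_aux_sg, inv_mul_cancel₀ hl.ne', show sg (1 : Q) (1 : ℝ) = 1 from el_one,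
          one_smul]
      have h3 := tame_aux_key hp hb hl h1
      have h4 := tame_aux_key hp hb (inv_pos.mpr hl) h2
      have h5 : l = 1 := le_antisymm h3 ((inv_le_one₀ hl).mp h4)
      rw [h1, h5, show sg (1 : Q) (1 : ℝ) = 1 from el_one, one_smul]
  exact key n le_rfl (by rw [C.cn]; exact Subgroup.mem_top w)

end

end H294Ore
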