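import Pool.Agent.Helper294.Ore.Core
set_option autoImplicit false
set_option linter.all false

namespace H294Ore
open MonoidAlgebra


section
variable {Q V : Type} [Group Q] [AddCommGroup V] [PartialOrder V] [IsOrderedAddMonoid V] [Module (GA Q) V] [OM Q V]


theorem j2580_el1 (c d : ℝ) (u : V) : sg (1 : Q) c • sg (1 : Q) d • u = sg (1 : Q) (c * d) • u := by
  rw [smul_smul, sg_mul, one_mul]

theorem j2580_sgpos {c : ℝ} (hc : 0 < c) {p : V} (hp : 0 < p) : 0 < sg (1 : Q) c • p :=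
  smul_pos' (Pos.sing (D := Set.univ) (1 : Q) c (Set.mem_univ _) hc) hp

theorem j2580_add (c d : ℝ) (u : V) :
    sg (1 : Q) c • u + sg (1 : Q) d • u = sg (1 : Q) (c + d) • u := by
  rw [← add_smul]
  congr 1
  exact (MonoidAlgebra.single_add _ _ _).symm

/-- infinitesimals are stable under positive multiples of group elements -/
theorem j2580_half (p : V) (hp : 0 < p)
    (hb : ∀ v : V, ∃ c : ℝ, 0 < c ∧ v ≤ sg (1 : Q) c • p) (w : Q) (r : ℝ) (hr : 0 < r) (v : V)
    (hv : ∀ ε : ℝ, 0 < ε → v ≤ sg (1 : Q) ε • p) (ε : ℝ) (hε : 0 < ε) :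
    sg w r • v ≤ sg (1 : Q) ε • p := by
  obtain ⟨K, hK, hK'⟩ := hb (el w • p)
  have h1 := hv (ε / (r * K)) (by positivity)
  have h2 := smul_le' (Pos.sing (D := Set.univ) w r (Set.mem_univ _) hr) h1
  have h3 : sg w r • sg (1 : Q) (ε / (r * K)) • p =
      sg (1 : Q) (r * (ε / (r * K))) • (el w • p) := by
    rw [smul_smul, smul_smul, sg_mul, sg_mul, mul_one, one_mul, mul_one]
  have h4 := smul_le' (Pos.sing (D := Set.univ) (1 : Q) (r * (ε / (r * K))) (Set.mem_univ _)
    (by positivity)) hK'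
  rw [j2580_el1] at h4
  have h5 : r * (ε / (r * K)) * K = ε := by field_simp
  rw [h5] at h4
  rw [h3] at h2
  exact h2.trans h4

theorem tame_inf (hs : Simple' Q V) (p : V) (hp : 0 < p) (hb : ∀ v : V, ∃ c : ℝ, 0 < c ∧ v ≤ sg (1 : Q) c • p)
    (v : V) (hv : ∀ ε : ℝ, 0 < ε → v ≤ sg (1 : Q) ε • p ∧ -v ≤ sg (1 : Q) ε • p) : v = 0 := by
  have hadd : ∀ a b : V, (∀ ε : ℝ, 0 < ε → a ≤ sg (1 : Q) ε • p ∧ -a ≤ sg (1 : Q) ε • p) →
      (∀ ε : ℝ, 0 < ε → b ≤ sg (1 : Q) ε • p ∧ -b ≤ sg (1 : Q) ε • p) →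
      (∀ ε : ℝ, 0 < ε → a + b ≤ sg (1 : Q) ε • p ∧ -(a + b) ≤ sg (1 : Q) ε • p) := by
    intro a b ha hb' ε hε
    have h1 := ha (ε / 2) (by positivity)
    have h2 := hb' (ε / 2) (by positivity)
    have h3 : sg (1 : Q) ε • p = sg (1 : Q) (ε / 2) • p + sg (1 : Q) (ε / 2) • p := by
      rw [j2580_add, add_halves]
    rw [h3]
    refine ⟨add_le_add h1.1 h2.1, ?_⟩
    rw [neg_add]
    exact add_le_add h1.2 h2.2
  have hzero : ∀ ε : ℝ, 0 < ε → (0 : V) ≤ sg (1 : Q) ε • p ∧ -(0 : V) ≤ sg (1 : Q) ε • p := by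
    intro ε hε
    rw [neg_zero]
    exact ⟨(j2580_sgpos hε hp).le, (j2580_sgpos hε hp).le⟩
  let H : Submodule (GA Q) V :=
    { carrier := {v | ∀ ε : ℝ, 0 < ε → v ≤ sg (1 : Q) ε • p ∧ -v ≤ sg (1 : Q) ε • p}
      add_mem' := fun {a b} ha hb' => hadd a b ha hb'
      zero_mem' := hzero
      smul_mem' := by
        intro a v hv
        induction a using MonoidAlgebra.induction_linear with
        | zero => rw [zero_smul]; exact hzero
        | add x y hx hy => rw [add_smul]; exact hadd _ _ hx hy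
        | single w r =>
          intro ε hε
          change sg w r • v ≤ _ ∧ -(sg w r • v) ≤ _
          rcases lt_trichotomy r 0 with h | h | h
          · have e : sg w r = -(sg w (-r)) := by
              change MonoidAlgebra.single w r = -(MonoidAlgebra.single w (-r))
              rw [MonoidAlgebra.single_neg, neg_neg]
            rw [e, neg_smul, neg_neg, ← smul_neg]
            exact ⟨j2580_half p hp hb w (-r) (by linarith) _ (fun ε hε => (hv ε hε).2) ε hε,
              j2580_half p hp hb w (-r) (by linarith) _ (fun ε hε => (hv ε hε).1) ε hε⟩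
          · rw [h]
            have e : sg w (0 : ℝ) = 0 := MonoidAlgebra.single_zero _
            rw [e, zero_smul]
            exact hzero ε hε
          · refine ⟨j2580_half p hp hb w r h _ (fun ε hε => (hv ε hε).1) ε hε, ?_⟩
            rw [← smul_neg]
            exact j2580_half p hp hb w r h _ (fun ε hε => (hv ε hε).2) ε hε }
  have hH : ∀ a b : V, 0 ≤ a → 0 ≤ b → a + b ∈ H → a ∈ H := by
    intro a b ha hb' hab ε hε
    have h1 := hab ε hε
    refine ⟨(le_add_of_nonneg_right hb').trans h1.1, ?_⟩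
    exact (neg_nonpos.2 ha).trans (j2580_sgpos hε hp).le
  rcases hs H hH with h | h
  · have : v ∈ H := hv
    rw [h] at this
    exact (Submodule.mem_bot _).1 this
  · exfalso
    have hpH : p ∈ H := by rw [h]; exact Submodule.mem_top
    have h1 := (hpH (1 / 2) (by norm_num)).1
    have h2 := j2580_sgpos (Q := Q) (c := 1 / 2) (by norm_num) hp
    have h3 : sg (1 : Q) (1 / 2) • p + sg (1 : Q) (1 / 2) • p = p := by
      rw [j2580_add, show (1 / 2 + 1 / 2 : ℝ) = 1 by norm_num]
      rw [show (sg (1:Q) (1:ℝ)) = 1 from el_one, one_smul]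
    have h4 : sg (1 : Q) (1 / 2) • p + sg (1 : Q) (1 / 2) • p ≤ sg (1 : Q) (1 / 2) • p + 0 := by
      rw [h3, add_zero]
      exact h1
    have h5 := le_of_add_le_add_left h4
    exact absurd h2 (not_lt_of_ge h5)

end

end H294Ore
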