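import Pool.Agent.Helper294.Ore.Core
set_option autoImplicit false
set_option linter.all false

namespace H294Ore
open MonoidAlgebra


section
variable {Q V : Type} [Group Q] [AddCommGroup V] [PartialOrder V] [IsOrderedAddMonoid V] [Module (GA Q) V] [OM Q V]



theorem rs_zero (v : V) : sg (1 : Q) 0 • v = 0 := by
  rw [show sg (1 : Q) 0 = 0 from MonoidAlgebra.single_zero _, zero_smul]

theorem rs_one (v : V) : sg (1 : Q) 1 • v = v := by
  rw [show (sg (1:Q) (1:ℝ)) = 1 from el_one, one_smul]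

theorem rs_add (r s : ℝ) (v : V) : sg (1 : Q) (r + s) • v = sg (1 : Q) r • v + sg (1 : Q) s • v := by
  rw [show sg (1 : Q) (r + s) = sg (1 : Q) r + sg (1 : Q) s from MonoidAlgebra.single_add _ _ _,
    add_smul]

theorem rs_mul (r s : ℝ) (v : V) : sg (1 : Q) r • (sg (1 : Q) s • v) = sg (1 : Q) (r * s) • v := by
  rw [smul_smul, sg_mul, one_mul]

theorem rs_neg (r : ℝ) (v : V) : sg (1 : Q) (-r) • v = -(sg (1 : Q) r • v) := by
  have h := rs_add (Q := Q) r (-r) v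
  rw [add_neg_cancel, rs_zero] at h
  exact (neg_eq_of_add_eq_zero_right h.symm).symm

theorem rs_sub (r s : ℝ) (v : V) : sg (1 : Q) (r - s) • v = sg (1 : Q) r • v - sg (1 : Q) s • v := by
  rw [sub_eq_add_neg, rs_add, rs_neg, sub_eq_add_neg]

theorem rs_mono {r : ℝ} (hr : 0 ≤ r) {a b : V} (h : a ≤ b) : sg (1 : Q) r • a ≤ sg (1 : Q) r • b := by
  rcases hr.lt_or_eq with hr | hr
  · exact smul_le' (Pos.sing (D := Set.univ) 1 r (Set.mem_univ _) hr) h
  · rw [← hr, rs_zero, rs_zero]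

theorem rs_coef {r s : ℝ} (h : r ≤ s) {p : V} (hp : 0 ≤ p) : sg (1 : Q) r • p ≤ sg (1 : Q) s • p := by
  have h1 : 0 ≤ sg (1 : Q) (s - r) • p := by
    have := rs_mono (Q := Q) (sub_nonneg.2 h) hp
    rwa [smul_zero] at this
  rw [rs_sub] at h1
  exact sub_nonneg.1 h1

theorem tame_total (hm : IsMax Q V)
    (hall : ∀ w : Q, ∃ l : ℝ, 0 < l ∧ ∀ v : V, el w • v = sg (1 : Q) l • v) (v : V) :
    0 ≤ v ∨ v ≤ 0 := by
  by_contra hcon
  push Not at hcon
  obtain ⟨hv1, hv2⟩ := hcon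
  let C : Set V := {u | ∃ r : ℝ, 0 ≤ r ∧ sg (1 : Q) r • v ≤ u}
  by_cases hC : ∀ a ∈ C, -a ∈ C → a = 0
  · apply hv1
    refine hm C ?_ ?_ hC ?_ v ?_
    · rintro a ⟨r, hr, hra⟩ b ⟨s, hs, hsb⟩
      exact ⟨r + s, add_nonneg hr hs, by rw [rs_add]; exact add_le_add hra hsb⟩
    · rintro a ⟨r, hr, hra⟩ w c hc
      obtain ⟨l, hl, hlv⟩ := hall w
      refine ⟨c * l * r, by positivity, ?_⟩
      have e1 : sg w c • a = sg (1 : Q) (c * l) • a := by
        rw [show sg w c = sg 1 c * el w by rw [show el w = sg w 1 from rfl, sg_mul, one_mul, mul_one],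
          mul_smul, hlv, rs_mul]
      rw [e1, ← rs_mul]
      exact rs_mono (by positivity) hra
    · intro u hu
      exact ⟨0, le_rfl, by rw [rs_zero]; exact hu⟩
    · exact ⟨1, zero_le_one, by rw [rs_one]⟩
  · push Not at hC
    obtain ⟨u, ⟨r, hr, hru⟩, ⟨s, hs, hsu⟩, hu0⟩ := hC
    have h1 : sg (1 : Q) (r + s) • v ≤ 0 := by
      rw [rs_add]
      have := add_le_add hru hsu
      rwa [add_neg_cancel] at this
    rcases (add_nonneg hr hs).lt_or_eq with h | h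
    · apply hv2
      have h2 := rs_mono (Q := Q) (inv_nonneg.2 h.le) h1
      rwa [rs_mul, inv_mul_cancel₀ h.ne', rs_one, smul_zero] at h2
    · have hr0 : r = 0 := by linarith
      have hs0 : s = 0 := by linarith
      rw [hr0, rs_zero] at hru
      rw [hs0, rs_zero] at hsu
      exact hu0 (le_antisymm (neg_nonneg.1 hsu) hru)

theorem tame_line (hm : IsMax Q V) (p : V) (hp : 0 < p)
    (hb : ∀ v : V, ∃ c : ℝ, 0 < c ∧ v ≤ sg (1 : Q) c • p)
    (hinf : ∀ v : V, (∀ ε : ℝ, 0 < ε → v ≤ sg (1 : Q) ε • p ∧ -v ≤ sg (1 : Q) ε • p) → v = 0)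
    (hall : ∀ w : Q, ∃ l : ℝ, 0 < l ∧ ∀ v : V, el w • v = sg (1 : Q) l • v) (v : V) :
    ∃ c : ℝ, v = sg (1 : Q) c • p := by
  have htot := tame_total (Q := Q) (V := V) hm hall
  set S : Set ℝ := {c | sg (1 : Q) c • p ≤ v} with hS
  have hne : S.Nonempty := by
    obtain ⟨c, hc, hcv⟩ := hb (-v)
    refine ⟨-c, ?_⟩
    show sg (1 : Q) (-c) • p ≤ v
    rw [rs_neg]
    exact neg_le.1 hcv
  obtain ⟨c0, hc0, hcv0⟩ := hb v
  have hbd : BddAbove S := by
    refine ⟨c0, fun c hc => ?_⟩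
    by_contra hlt
    push Not at hlt
    have h1 : sg (1 : Q) c • p ≤ sg (1 : Q) c0 • p := le_trans hc hcv0
    have h2 : 0 < sg (1 : Q) (c - c0) • p :=
      smul_pos' (Pos.sing (D := Set.univ) 1 (c - c0) (Set.mem_univ _) (sub_pos.2 hlt)) hp
    rw [rs_sub] at h2
    exact absurd h1 (not_le_of_gt (sub_pos.1 h2))
  refine ⟨sSup S, ?_⟩
  rw [← sub_eq_zero]
  apply hinf
  intro ε hε
  constructor
  · have h1 : v ≤ sg (1 : Q) (sSup S + ε) • p := by
      rcases htot (v - sg (1 : Q) (sSup S + ε) • p) with h | h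
      · exfalso
        have h2 : sSup S + ε ∈ S := sub_nonneg.1 h
        have := le_csSup hbd h2
        linarith
      · exact sub_nonpos.1 h
    rw [rs_add] at h1
    rw [sub_le_iff_le_add']
    exact h1
  · obtain ⟨c1, hc1, hlt⟩ := exists_lt_of_lt_csSup hne (show sSup S - ε < sSup S by linarith)
    have h1 : sg (1 : Q) (sSup S - ε) • p ≤ v := (rs_coef hlt.le hp.le).trans hc1
    rw [rs_sub] at h1
    rw [neg_sub]
    exact sub_le_comm.1 h1

end

end H294Ore
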