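import Pool.Agent.Helper294.Ore.Core
set_option autoImplicit false
set_option linter.all false

namespace H294Ore
open MonoidAlgebra


section
variable {Q V : Type} [Group Q] [AddCommGroup V] [PartialOrder V] [IsOrderedAddMonoid V] [Module (GA Q) V] [OM Q V]



theorem td_negR {R : Subgroup Q} {y r : Q} (hy : Wp V R y) (hr : r ∈ R) :
    Wp V R (y * r) := by
  intro q hq s hs
  have h1 := hy (el r • q) (el_smul_nonneg r hq) (s * el r⁻¹)
    (Pos.mulN hs (pos_el_of (R.inv_mem hr)))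
  have h2 : (s * el r⁻¹) • (el r • q) = s • q := by
    rw [smul_smul, mul_assoc, el_inv_mul, mul_one]
  rw [h2, smul_smul, el_mul] at h1
  exact h1

theorem td_Rneg {R : Subgroup Q} {y r : Q} (hy : Wp V R y) (hr : r ∈ R) :
    Wp V R (r * y) := by
  intro q hq s hs
  have h1 := hy q hq (el r⁻¹ * s) (Pos.mulN (pos_el_of (R.inv_mem hr)) hs)
  have h2 := el_smul_le (V := V) r h1
  rw [smul_smul, smul_smul, ← mul_assoc, el_mul_inv, one_mul, el_mul] at h2
  exact h2

theorem td_mul {R : Subgroup Q} {y z : Q} (hy : Wp V R y) (hz : Wp V R z) :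
    Wp V R (y * z) := by
  intro q hq s hs
  have h1 := hz q hq s hs
  have h2 := hy (el z • q) (el_smul_nonneg z hq) 1 (pos_one R)
  rw [one_smul, smul_smul, el_mul] at h2
  exact h1.trans h2

theorem td_add {D : Set Q} {a b : GA Q} (ha : a = 0 ∨ Pos D a) (hb : b = 0 ∨ Pos D b) :
    (a + b = 0 ∨ Pos D (a + b)) := by
  rcases ha with rfl | ha
  · rw [zero_add]; exact hb
  · rcases hb with rfl | hb
    · rw [add_zero]; exact Or.inr ha
    · exact Or.inr (Pos.add _ _ ha hb)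

theorem td_step {R : Subgroup Q} {a1 b0 b1 : GA Q} {t : Q} (ht : Wp V R t⁻¹)
    (ha1 : a1 = 0 ∨ Pos {δ : Q | Wp V R δ⁻¹} a1)
    (hb0 : Pos (R : Set Q) b0) (hb1 : b1 = 0 ∨ Pos {δ : Q | Wp V R δ⁻¹} b1) :
    (a1 + el t * (b0 + b1) = 0 ∨ Pos {δ : Q | Wp V R δ⁻¹} (a1 + el t * (b0 + b1))) := by
  apply td_add ha1
  rw [mul_add]
  apply td_add
  · right
    refine Pos.mul (D := {t}) (E := (R : Set Q)) ?_ (pos_el_of rfl) hb0
    intro x hx y hy
    have hx' : x = t := hx
    subst hx'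
    show Wp V R (x * y)⁻¹
    rw [mul_inv_rev]
    exact td_Rneg ht (R.inv_mem hy)
  · rcases hb1 with rfl | hb1
    · left; rw [mul_zero]
    · right
      refine Pos.mul (D := {t}) (E := {δ : Q | Wp V R δ⁻¹}) ?_ (pos_el_of rfl) hb1
      intro x hx y hy
      have hx' : x = t := hx
      subst hx'
      show Wp V R (x * y)⁻¹
      rw [mul_inv_rev]
      exact td_mul hy ht

theorem top_decomp (R : Subgroup Q) (x : Q) (p : V) (h : Wild V R x p) (f : GA Q) (hf : Pos Set.univ f) :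
    ∃ (w : Q) (f0 f1 : GA Q), Pos (R : Set Q) f0 ∧ (f1 = 0 ∨ Pos {δ : Q | Wp V R δ⁻¹} f1) ∧ el w * f = f0 + f1 := by
  induction hf with
  | sing w c hw hc =>
    refine ⟨w⁻¹, sg 1 c, 0, Pos.sing 1 c R.one_mem hc, Or.inl rfl, ?_⟩
    rw [show el w⁻¹ = sg w⁻¹ 1 from rfl, sg_mul, inv_mul_cancel, one_mul, add_zero]
  | add a b _ _ iha ihb =>
    obtain ⟨u, a0, a1, ha0, ha1, ha⟩ := iha
    obtain ⟨v, b0, b1, hb0, hb1, hb⟩ := ihb
    have hub : el u * b = el (u * v⁻¹) * (b0 + b1) := by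
      rw [← hb, ← mul_assoc, el_mul, inv_mul_cancel_right]
    have hva : el v * a = el (u * v⁻¹)⁻¹ * (a0 + a1) := by
      rw [← ha, ← mul_assoc, el_mul, mul_inv_rev, inv_inv, inv_mul_cancel_right]
    by_cases ht : u * v⁻¹ ∈ R
    · refine ⟨u, a0 + el (u * v⁻¹) * b0, a1 + el (u * v⁻¹) * b1, ?_, ?_, ?_⟩
      · exact Pos.add _ _ ha0 (Pos.mulN (pos_el_of ht) hb0)
      · apply td_add ha1
        rcases hb1 with rfl | hb1
        · left; rw [mul_zero]
        · right
          refine Pos.mul (D := {u * v⁻¹}) (E := {δ : Q | Wp V R δ⁻¹}) ?_ (pos_el_of rfl) hb1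
          intro x hx y hy
          have hx' : x = u * v⁻¹ := hx
          subst hx'
          show Wp V R (u * v⁻¹ * y)⁻¹
          rw [mul_inv_rev]
          exact td_negR hy (R.inv_mem ht)
      · rw [mul_add, ha, hub, mul_add]; abel
    · rcases h.dich _ ht with h1 | h1
      · refine ⟨v, b0, b1 + el (u * v⁻¹)⁻¹ * (a0 + a1), hb0, ?_, ?_⟩
        · exact td_step (by rw [inv_inv]; exact h1) hb1 ha0 ha1
        · rw [mul_add, hva, hb]; abel
      · refine ⟨u, a0, a1 + el (u * v⁻¹) * (b0 + b1), ha0, ?_, ?_⟩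
        · exact td_step h1 ha1 hb0 hb1
        · rw [mul_add, ha, hub]; abel

end

end H294Ore
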