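import Pool.Agent.Helper294.Ore.Core
set_option autoImplicit false
set_option linter.all false

namespace H294Ore
open MonoidAlgebra



section unipaux
variable {Q M : Type} [Group Q] [AddCommGroup M] [Module (GA Q) M]

theorem un_sg_smul (w : Q) (c : ℝ) (v : M) : sg w c • v = sg (1 : Q) c • (el w • v) := by
  rw [smul_smul, sg_mul, one_mul, mul_one]

theorem un_comm (c : ℝ) (a : GA Q) (v : M) : a • (sg (1 : Q) c • v) = sg (1 : Q) c • (a • v) := by
  rw [smul_smul, smul_smul, sg_one_comm]

theorem un_sg_mul (c c' : ℝ) (v : M) : sg (1 : Q) c • (sg (1 : Q) c' • v) = sg (1 : Q) (c * c') • v := by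
  rw [smul_smul, sg_mul, one_mul]

theorem un_sg_one (v : M) : sg (1 : Q) (1 : ℝ) • v = v := by
  rw [show (sg (1:Q) (1:ℝ)) = 1 from el_one, one_smul]

theorem un_sg_add (c c' : ℝ) (v : M) : sg (1 : Q) c • v + sg (1 : Q) c' • v = sg (1 : Q) (c + c') • v := by
  rw [← add_smul]
  congr 1
  exact (MonoidAlgebra.single_add _ _ _).symm

theorem un_sg_zero (v : M) : sg (1 : Q) (0 : ℝ) • v = 0 := by
  have : (sg (1 : Q) (0 : ℝ)) = 0 := MonoidAlgebra.single_zero _
  rw [this, zero_smul]

theorem un_sg_inj (Q : Type) {M : Type} [Group Q] [AddCommGroup M] [Module (GA Q) M] {c : ℝ} (hc : c ≠ 0) {v : M} (h : sg (1 : Q) c • v = 0) : v = 0 := by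
  have h2 : sg (1 : Q) c⁻¹ • (sg (1 : Q) c • v) = v := by
    rw [un_sg_mul, inv_mul_cancel₀ hc, un_sg_one]
  rw [← h2, h, smul_zero]

theorem un_sg_eq (Q : Type) {M : Type} [Group Q] [AddCommGroup M] [Module (GA Q) M] {c c' : ℝ} {v : M} (hv : v ≠ 0) (h : sg (1 : Q) c • v = sg (1 : Q) c' • v) : c = c' := by
  by_contra hne
  apply hv
  apply un_sg_inj Q (sub_ne_zero.2 hne)
  have : sg (1 : Q) (c - c') • v = sg (1 : Q) c • v - sg (1 : Q) c' • v := by
    rw [← sub_smul]
    congr 1
    exact (MonoidAlgebra.single_sub _ _ _)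
  rw [this, h, sub_self]

theorem un_normal {n : ℕ} (C : CS Q n) : ∀ i, i ≤ n → (C.c i).Normal := by
  intro i
  induction i with
  | zero => intro _; rw [C.c0]; infer_instance
  | succ i ih =>
    intro hi
    have hN := ih (by omega)
    rw [C.step i (by omega)]
    have hcen := C.cent i (by omega)
    constructor
    intro a ha w
    have hmap : (C.c i ⊔ Subgroup.zpowers (C.x i)).map (MulAut.conj w).toMonoidHom ≤ C.c i ⊔ Subgroup.zpowers (C.x i) := by
      rw [Subgroup.map_sup]
      apply sup_le
      · rintro _ ⟨b, hb, rfl⟩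
        exact Subgroup.mem_sup_left (hN.conj_mem b hb w)
      · rw [MonoidHom.map_zpowers, Subgroup.zpowers_le]
        have h1 : w * C.x i * w⁻¹ = (C.x i * w * (C.x i)⁻¹ * w⁻¹)⁻¹ * C.x i := by group
        show w * C.x i * w⁻¹ ∈ _
        rw [h1]
        exact mul_mem (Subgroup.mem_sup_left (inv_mem (hcen w))) (Subgroup.mem_sup_right (Subgroup.mem_zpowers _))
    exact hmap ⟨a, ha, rfl⟩

/-- the vectors on which `N` acts by `χ` -/
def unM (M : Type) [AddCommGroup M] [Module (GA Q) M] (N : Subgroup Q) (hN : N.Normal) (χ : Q → ℝ)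
    (hχm : ∀ a b, χ (a * b) = χ a * χ b) (hχ : ∀ w, 0 < χ w) : Submodule (GA Q) M where
  carrier := {m | ∀ w ∈ N, el w • m = sg (1 : Q) (χ w) • m}
  zero_mem' := by intro w _; rw [smul_zero, smul_zero]
  add_mem' := by
    intro a b ha hb w hw
    rw [smul_add, smul_add, ha w hw, hb w hw]
  smul_mem' := by
    intro a m hm
    have hconj : ∀ u w, χ (u⁻¹ * w * u) = χ w := by
      intro u w
      have h1 : χ (u * (u⁻¹ * w * u)) = χ (w * u) := by congr 1; group
      rw [hχm u, hχm w] at h1
      have := (hχ u).ne'
      apply mul_left_cancel₀ this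
      rw [h1]; ring
    induction a using MonoidAlgebra.induction_linear with
    | zero => intro w _; rw [zero_smul, smul_zero, smul_zero]
    | add x y hx hy =>
      intro w hw
      rw [add_smul, smul_add, smul_add, hx w hw, hy w hw]
    | single u r =>
      intro w hw
      have h0 : (MonoidAlgebra.single u r : GA Q) = sg u r := rfl
      rw [h0, un_sg_smul u r m, un_comm]
      have h1 : el w • (el u • m) = el u • (el (u⁻¹ * w * u) • m) := by
        rw [smul_smul, smul_smul, el_mul, el_mul]
        congr 2
        group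
      have h2 : u⁻¹ * w * u ∈ N := by
        have := hN.conj_mem w hw u⁻¹
        rwa [inv_inv] at this
      rw [h1, hm _ h2, hconj, un_comm, un_comm]

theorem mem_unM {N : Subgroup Q} {hN : N.Normal} {χ : Q → ℝ}
    {hχm : ∀ a b, χ (a * b) = χ a * χ b} {hχ : ∀ w, 0 < χ w} {m : M} :
    m ∈ unM M N hN χ hχm hχ ↔ ∀ w ∈ N, el w • m = sg (1 : Q) (χ w) • m := Iff.rfl

end unipaux

theorem unip {Q M : Type} [Group Q] [AddCommGroup M] [Module (GA Q) M] {n : ℕ} (C : CS Q n)
    (hNoe : IsNoetherian (GA Q) M) (W : Submodule (GA Q) M) (p : M) (hp : p ≠ 0) (hpW : p ∈ W)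
    (hW : ∀ v ∈ W, ∃ c : ℝ, v = sg (1 : Q) c • p) (χ : Q → ℝ) (hχ : ∀ w, 0 < χ w)
    (hact : ∀ w : Q, el w • p = sg (1 : Q) (χ w) • p)
    (hess : ∀ X : Submodule (GA Q) M, X ⊓ W = ⊥ → X = ⊥)
    (f : GA Q) (hf : Pos Set.univ f) (m : M) (hm : f • m ∈ W) : m ∈ W := by
  have hχm : ∀ a b, χ (a * b) = χ a * χ b := by
    intro a b
    apply un_sg_eq Q hp
    rw [← hact, ← el_mul, ← smul_smul, hact b, un_comm, hact a, un_sg_mul, mul_comm]
  have hχ1 : χ 1 = 1 := by
    have h1 := hχm 1 1
    rw [mul_one] at h1
    have h2 := (hχ 1).ne'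
    apply mul_left_cancel₀ h2
    rw [← h1, mul_one]
  have hfp : ∀ f : GA Q, Pos Set.univ f → ∃ r : ℝ, 0 < r ∧ f • p = sg (1 : Q) r • p := by
    intro f hf
    induction hf with
    | sing w c _ hc => exact ⟨c * χ w, mul_pos hc (hχ w), by rw [un_sg_smul, hact, un_sg_mul]⟩
    | add a b _ _ iha ihb =>
      obtain ⟨r, hr, h1⟩ := iha
      obtain ⟨r', hr', h2⟩ := ihb
      exact ⟨r + r', add_pos hr hr', by rw [add_smul, h1, h2, un_sg_add]⟩
  have hfW : ∀ v ∈ W, f • v = 0 → v = 0 := by
    intro v hv hfv
    obtain ⟨c, rfl⟩ := hW v hv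
    obtain ⟨r, hr, h1⟩ := hfp f hf
    rw [un_comm, h1, un_sg_mul] at hfv
    by_contra hne
    have hc : c ≠ 0 := by
      rintro rfl
      exact hne (un_sg_zero p)
    exact hp (un_sg_inj Q (mul_ne_zero hc hr.ne') hfv)
  have hN := un_normal C
  -- all vectors act
  have hlast : ∀ (h : (C.c n).Normal) (m : M), m ∈ unM M (C.c n) h χ hχm hχ → m ∈ W := by
    intro h m hm
    by_cases hm0 : m = 0
    · rw [hm0]; exact W.zero_mem
    have hact2 : ∀ a : GA Q, ∃ c : ℝ, a • m = sg (1 : Q) c • m := by
      intro a
      induction a using MonoidAlgebra.induction_linear with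
      | zero => exact ⟨0, by rw [zero_smul, un_sg_zero]⟩
      | add x y hx hy =>
        obtain ⟨c, hc⟩ := hx
        obtain ⟨c', hc'⟩ := hy
        exact ⟨c + c', by rw [add_smul, hc, hc', un_sg_add]⟩
      | single u r =>
        refine ⟨r * χ u, ?_⟩
        have h0 : (MonoidAlgebra.single u r : GA Q) = sg u r := rfl
        rw [h0, un_sg_smul u r m, hm u (by rw [C.cn]; trivial), un_sg_mul]
    have hX : Submodule.span (GA Q) {m} ⊓ W ≠ ⊥ := by
      intro hcon
      have := hess _ hcon
      rw [Submodule.span_singleton_eq_bot] at this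
      exact hm0 this
    obtain ⟨v, hv, hv0⟩ := Submodule.exists_mem_ne_zero_of_ne_bot hX
    obtain ⟨hv1, hv2⟩ := Submodule.mem_inf.1 hv
    obtain ⟨a, rfl⟩ := Submodule.mem_span_singleton.1 hv1
    obtain ⟨c, hc⟩ := hact2 a
    have hc0 : c ≠ 0 := by
      rintro rfl
      apply hv0
      rw [hc, un_sg_zero]
    have : m = sg (1 : Q) c⁻¹ • (a • m) := by
      rw [hc, un_sg_mul, inv_mul_cancel₀ hc0, un_sg_one]
    rw [this]
    exact W.smul_mem _ hv2
  -- main induction
  have key : ∀ j i : ℕ, ∀ (hi : i + j = n), ∀ m ∈ unM M (C.c i) (hN i (by omega)) χ hχm hχ,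
      f • m ∈ W → m ∈ W := by
    intro j
    induction j with
    | zero =>
      intro i hi m hm _
      have hin : i = n := by omega
      subst hin
      exact hlast _ m hm
    | succ j ih =>
      intro i hi m hm hfm
      have hin : i < n := by omega
      set Mi := unM M (C.c i) (hN i (by omega)) χ hχm hχ with hMi
      have hWMi : W ≤ Mi := by
        intro v hv w _
        obtain ⟨c, rfl⟩ := hW v hv
        rw [un_comm, hact, un_comm]
      have hcen := C.cent i hin
      set x := C.x i with hx
      -- kernel characterisation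
      have hker : ∀ m ∈ Mi, el x • m = sg (1 : Q) (χ x) • m →
          m ∈ unM M (C.c (i + 1)) (hN (i + 1) (by omega)) χ hχm hχ := by
        intro m hm hxm
        let S : Subgroup Q :=
          { carrier := {w | el w • m = sg (1 : Q) (χ w) • m}
            one_mem' := by
              show el (1 : Q) • m = sg (1 : Q) (χ 1) • m
              rw [hχ1]
            mul_mem' := by
              intro a b ha hb
              show el (a * b) • m = sg (1 : Q) (χ (a * b)) • m
              have ha' : el a • m = sg (1 : Q) (χ a) • m := ha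
              have hb' : el b • m = sg (1 : Q) (χ b) • m := hb
              rw [← el_mul, ← smul_smul, hb', un_comm, ha', un_sg_mul, hχm, mul_comm]
            inv_mem' := by
              intro a ha
              show el a⁻¹ • m = sg (1 : Q) (χ a⁻¹) • m
              have ha' : el a • m = sg (1 : Q) (χ a) • m := ha
              have h1 : m = sg (1 : Q) (χ a) • (el a⁻¹ • m) := by
                rw [← un_comm, ← ha', smul_smul, el_inv_mul, one_smul]
              have h2 : χ a⁻¹ * χ a = 1 := by rw [← hχm, inv_mul_cancel, hχ1]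
              conv_rhs => rw [h1, un_sg_mul, h2, un_sg_one] }
        have hS : C.c (i + 1) ≤ S := by
          rw [C.step i hin]
          apply sup_le
          · intro w hw; exact hm w hw
          · rw [Subgroup.zpowers_le]; exact hxm
        intro w hw
        exact hS hw
      have hmemx : ∀ m ∈ Mi, el x • m - sg (1 : Q) (χ x) • m ∈ Mi := fun m hm =>
        Mi.sub_mem (Mi.smul_mem _ hm) (Mi.smul_mem _ hm)
      have hlin : ∀ (a : GA Q), ∀ m ∈ Mi, el x • (a • m) = a • (el x • m) := by
        intro a
        induction a using MonoidAlgebra.induction_linear with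
        | zero => intro m _; rw [zero_smul, smul_zero, zero_smul]
        | add y z hy hz => intro m hm; rw [add_smul, smul_add, hy m hm, hz m hm, add_smul]
        | single u r =>
          intro m hm
          have h0 : (MonoidAlgebra.single u r : GA Q) = sg u r := rfl
          rw [h0, un_sg_smul u r m, un_sg_smul u r (el x • m), un_comm]
          congr 1
          have h1 : el x • (el u • m) = el (x * u * x⁻¹ * u⁻¹) • (el u • (el x • m)) := by
            rw [smul_smul, smul_smul, smul_smul, el_mul, el_mul, el_mul]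
            congr 2
            group
          have h2 : el u • (el x • m) ∈ Mi := Mi.smul_mem _ (Mi.smul_mem _ hm)
          have h3 := h2 _ (hcen u)
          have h4 : χ (x * u * x⁻¹ * u⁻¹) = 1 := by
            have e1 : χ (x * u * x⁻¹ * u⁻¹) * (χ u * χ x) = χ x * χ u := by
              rw [← hχm, ← hχm, ← hχm]
              congr 1
              group
            have e2 : χ u * χ x ≠ 0 := mul_ne_zero (hχ u).ne' (hχ x).ne'
            apply mul_right_cancel₀ e2
            rw [e1]; ring
          rw [h1, h3, h4, un_sg_one]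
      let θ : Module.End (GA Q) Mi :=
        { toFun := fun m => ⟨el x • (m : M) - sg (1 : Q) (χ x) • (m : M), hmemx m m.2⟩
          map_add' := by
            intro a b
            apply Subtype.ext
            show el x • ((a : M) + (b : M)) - sg (1 : Q) (χ x) • ((a : M) + (b : M)) =
              (el x • (a : M) - sg (1 : Q) (χ x) • (a : M)) + (el x • (b : M) - sg (1 : Q) (χ x) • (b : M))
            rw [smul_add, smul_add]; abel
          map_smul' := by
            intro a m
            apply Subtype.ext
            show el x • (a • (m : M)) - sg (1 : Q) (χ x) • (a • (m : M)) =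
              a • (el x • (m : M) - sg (1 : Q) (χ x) • (m : M))
            rw [hlin a m m.2, smul_sub, un_comm] }
      have hθ : ∀ m : Mi, ((θ m : Mi) : M) = el x • (m : M) - sg (1 : Q) (χ x) • (m : M) := fun _ => rfl
      have hθW : ∀ m : Mi, (m : M) ∈ W → θ m = 0 := by
        intro m hm
        apply Subtype.ext
        rw [hθ]
        obtain ⟨c, hc⟩ := hW m hm
        rw [hc, un_comm, hact, un_comm]
        simp
      have hkerθ : ∀ m : Mi, θ m = 0 → f • (m : M) ∈ W → (m : M) ∈ W := by
        intro m hm0 hfm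
        apply ih (i + 1) (by omega) m _ hfm
        apply hker m m.2
        have := congrArg (fun t : Mi => (t : M)) hm0
        simp only [hθ] at this
        exact sub_eq_zero.1 this
      have hNMi : IsNoetherian (GA Q) Mi := inferInstance
      obtain ⟨k, hk1, hk⟩ := (θ.eventually_disjoint_ker_pow_range_pow.and
        (Filter.eventually_ge_atTop 1)).exists
      have hrange : LinearMap.range (θ ^ k) = ⊥ := by
        have h1 : (LinearMap.range (θ ^ k)).map Mi.subtype ⊓ W = ⊥ := by
          rw [eq_bot_iff]
          intro v hv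
          obtain ⟨hv1, hv2⟩ := Submodule.mem_inf.1 hv
          obtain ⟨y, hy, rfl⟩ := Submodule.mem_map.1 hv1
          have h2 : y ∈ LinearMap.ker (θ ^ k) := by
            rw [LinearMap.mem_ker]
            obtain ⟨l, rfl⟩ : ∃ l, k = l + 1 := ⟨k - 1, by omega⟩
            rw [pow_succ, Module.End.mul_apply, hθW y hv2, map_zero]
          have h3 : y = 0 := by
            have := Submodule.disjoint_def.1 hk1 y h2 hy
            exact this
          rw [h3]; simp
        have h2 := hess _ h1
        rw [eq_bot_iff]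
        intro y hy
        have h3 : Mi.subtype y ∈ Submodule.map Mi.subtype (LinearMap.range (θ ^ k)) :=
          Submodule.mem_map_of_mem hy
        rw [h2, Submodule.mem_bot] at h3
        exact (Submodule.mem_bot _).2 (Subtype.ext h3)
      have hpow : ∀ m : Mi, (θ ^ k) m = 0 := by
        intro m
        have : (θ ^ k) m ∈ LinearMap.range (θ ^ k) := LinearMap.mem_range_self _ _
        rw [hrange] at this
        exact this
      -- conclusion
      have hθm : θ ⟨m, hm⟩ = 0 := by
        by_contra hne
        have hex : ∃ r, (θ ^ r) ⟨m, hm⟩ = 0 := ⟨k, hpow _⟩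
        classical
        obtain ⟨r, hr1, hr2⟩ : ∃ r, (θ ^ (r + 1)) ⟨m, hm⟩ = 0 ∧ (θ ^ r) ⟨m, hm⟩ ≠ 0 := by
          have hpos : Nat.find hex ≠ 0 := by
            intro h0
            have := Nat.find_spec hex
            rw [h0, pow_zero, Module.End.one_apply] at this
            apply hne
            rw [this, map_zero]
          refine ⟨Nat.find hex - 1, ?_, Nat.find_min hex (by omega)⟩
          have : Nat.find hex - 1 + 1 = Nat.find hex := by omega
          rw [this]
          exact Nat.find_spec hex
        have hr0 : r ≠ 0 := by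
          rintro rfl
          rw [zero_add, pow_one] at hr1
          exact hne hr1
        have hf0 : f • ((θ ^ r) ⟨m, hm⟩) = 0 := by
          rw [← map_smul]
          obtain ⟨l, rfl⟩ : ∃ l, r = l + 1 := ⟨r - 1, by omega⟩
          rw [pow_succ, Module.End.mul_apply, hθW (f • ⟨m, hm⟩) hfm, map_zero]
        have hf0' : f • (((θ ^ r) ⟨m, hm⟩ : Mi) : M) = 0 := by
          have := congrArg (fun t : Mi => (t : M)) hf0
          simpa using this
        have h1 : (((θ ^ r) ⟨m, hm⟩ : Mi) : M) ∈ W := by
          apply hkerθ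
          · rw [← Module.End.mul_apply, ← pow_succ']
            exact hr1
          · rw [hf0']; exact W.zero_mem
        have h2 := hfW _ h1 hf0'
        apply hr2
        exact Subtype.ext h2
      exact hkerθ ⟨m, hm⟩ hθm hfm
  refine key n 0 (by omega) m ?_ hm
  intro w hw
  rw [C.c0, Subgroup.mem_bot] at hw
  rw [hw, hχ1]

end H294Ore
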