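import Pool.Agent.Helper294.Ore.Core
set_option autoImplicit false
set_option linter.all false

namespace H294Ore
open MonoidAlgebra



section wild
variable {Q V : Type} [Group Q] [AddCommGroup V] [PartialOrder V] [IsOrderedAddMonoid V]
    [Module (GA Q) V] [OM Q V]

theorem Wp.mulW {R : Subgroup Q} {x y : Q} (hx : Wp V R x) (hy : Wp V R y) : Wp V R (x * y) := by
  intro q hq s hs
  rw [← el_mul, mul_smul]
  refine le_trans (hy q hq s hs) ?_
  have := hx (el y • q) (el_smul_nonneg y hq) 1 (pos_one R)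
  rwa [one_smul] at this

theorem Wp.lmul {R : Subgroup Q} {x r : Q} (hr : r ∈ R) (hx : Wp V R x) : Wp V R (r * x) := by
  intro q hq s hs
  rw [← el_mul, mul_smul]
  have h1 := hx q hq (el r⁻¹ * s) (Pos.mulN (pos_el_of (R.inv_mem hr)) hs)
  have h2 := el_smul_le r h1
  rwa [← mul_smul, ← mul_assoc, el_mul_inv, one_mul] at h2

theorem Wp.rmul {R : Subgroup Q} {x r : Q} (hr : r ∈ R) (hx : Wp V R x) : Wp V R (x * r) := by
  intro q hq s hs
  rw [← el_mul, mul_smul]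
  have h1 := hx (el r • q) (el_smul_nonneg r hq) (s * el r⁻¹)
    (Pos.mulN hs (pos_el_of (R.inv_mem hr)))
  rwa [← mul_smul (s * el r⁻¹), mul_assoc, el_inv_mul, mul_one] at h1

theorem Wp.pos_dom {R : Subgroup Q} {x : Q} (hx : Wp V R x) {σ : GA Q}
    (hσ : Pos (R : Set Q) σ) {q : V} (hq : 0 ≤ q) {s : GA Q} (hs : Pos (R : Set Q) s) :
    s • q ≤ σ • (el x • q) := by
  induction hσ with
  | sing r c hr hc =>
    have h1 := hx q hq (sg r⁻¹ c⁻¹ * s)
      (Pos.mulN (Pos.sing _ _ (R.inv_mem hr) (inv_pos.mpr hc)) hs)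
    have h2 := smul_le' (Pos.sing r c hr hc) h1
    rwa [← mul_smul, ← mul_assoc, sg_mul, mul_inv_cancel, mul_inv_cancel₀ hc.ne',
      show (sg (1 : Q) (1 : ℝ) : GA Q) = 1 from el_one, one_mul] at h2
  | add a b ha hb iha ihb =>
    rw [add_smul]
    exact le_add_of_le_of_nonneg iha (smul_nonneg' hb (el_smul_nonneg x hq))

theorem rsmul_eq (c : ℝ) (x : GA Q) : c • x = sg 1 c * x := by
  induction x using MonoidAlgebra.induction_linear with
  | zero => simp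
  | add x y hx hy => rw [smul_add, mul_add, hx, hy]
  | single w r =>
    rw [show (MonoidAlgebra.single w r : GA Q) = sg w r from rfl, sg_mul, one_mul]
    simp [sg]

theorem half_add (σ : GA Q) : sg 1 (1 / 2) * σ + sg 1 (1 / 2) * σ = σ := by
  rw [← rsmul_eq, ← add_smul]
  norm_num

theorem sg_cancel (c : ℝ) (hc : c ≠ 0) (σ : GA Q) (a : V) :
    (sg 1 c : GA Q) • ((sg 1 c⁻¹ * σ) • a) = σ • a := by
  rw [← mul_smul, ← mul_assoc, sg_mul, mul_one, mul_inv_cancel₀ hc,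
    show (sg (1 : Q) (1 : ℝ) : GA Q) = 1 from el_one, one_mul]

theorem neg_bound {R : Subgroup Q} {a : V} (ha : 0 ≤ a) {D : Set Q}
    (hD : ∀ δ ∈ D, Wp V R δ⁻¹) {τ : GA Q} (hτ : τ ∈ Sp D) :
    ∀ σ, Pos (R : Set Q) σ → -(σ • a) ≤ τ • a ∧ τ • a ≤ σ • a := by
  unfold Sp at hτ
  induction hτ using Submodule.span_induction with
  | mem y hy =>
    obtain ⟨δ, hδ, rfl⟩ := hy
    intro σ hσ
    have h0 : 0 ≤ el δ • a := el_smul_nonneg δ ha
    have hσa := smul_nonneg' hσ ha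
    refine ⟨le_trans (neg_nonpos.mpr hσa) h0, ?_⟩
    have h1 := Wp.pos_dom (hD δ hδ) hσ h0 (pos_one R)
    rwa [one_smul, ← mul_smul (el δ⁻¹), el_inv_mul, one_smul] at h1
  | zero =>
    intro σ hσ
    have := smul_nonneg' hσ ha
    rw [zero_smul]
    exact ⟨neg_nonpos.mpr this, this⟩
  | add x y _ _ hx hy =>
    intro σ hσ
    have hh : Pos (R : Set Q) (sg 1 (1 / 2) * σ) := hσ.scale (by norm_num)
    obtain ⟨h1, h2⟩ := hx _ hh
    obtain ⟨h3, h4⟩ := hy _ hh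
    have e : σ • a = (sg 1 (1 / 2) * σ) • a + (sg 1 (1 / 2) * σ) • a := by
      rw [← add_smul, half_add]
    rw [add_smul, e, neg_add]
    exact ⟨add_le_add h1 h3, add_le_add h2 h4⟩
  | smul c x _ hx =>
    intro σ hσ
    rcases lt_trichotomy c 0 with hc | hc | hc
    · have hc' : 0 < -c := by linarith
      obtain ⟨h1, h2⟩ := hx (sg 1 (-c)⁻¹ * σ) (hσ.scale (inv_pos.mpr hc'))
      have h3 := OM.mono (1 : Q) (-c) _ hc' (sub_nonneg.mpr h1)
      have h4 := OM.mono (1 : Q) (-c) _ hc' (sub_nonneg.mpr h2)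
      have e : (c • x) • a = -((sg 1 (-c) : GA Q) • (x • a)) := by
        rw [← mul_smul, ← rsmul_eq, ← neg_smul, ← neg_smul, neg_neg]
      rw [smul_sub, smul_neg, sg_cancel (-c) hc'.ne', ] at h3
      rw [smul_sub, sg_cancel (-c) hc'.ne'] at h4
      rw [e]
      constructor
      · exact neg_le_neg (sub_nonneg.mp h4)
      · have := sub_nonneg.mp h3
        exact neg_le.mp this
    · subst hc
      have := smul_nonneg' hσ ha
      rw [zero_smul, zero_smul]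
      exact ⟨neg_nonpos.mpr this, this⟩
    · obtain ⟨h1, h2⟩ := hx (sg 1 c⁻¹ * σ) (hσ.scale (inv_pos.mpr hc))
      have h3 := OM.mono (1 : Q) c _ hc (sub_nonneg.mpr h1)
      have h4 := OM.mono (1 : Q) c _ hc (sub_nonneg.mpr h2)
      have e : (c • x) • a = (sg 1 c : GA Q) • (x • a) := by
        rw [← mul_smul, ← rsmul_eq]
      rw [smul_sub, smul_neg, sg_cancel c hc.ne'] at h3
      rw [smul_sub, sg_cancel c hc.ne'] at h4
      rw [e]
      exact ⟨sub_nonneg.mp h3, sub_nonneg.mp h4⟩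

/-- a bound on nonnegative vectors extends to symmetric intervals -/
theorem bnd_apply (htot : ∀ v : V, 0 ≤ v ∨ v ≤ 0) {D : Set Q} {s τ : GA Q} (hs : Pos D s)
    (hτ : ∀ q : V, 0 ≤ q → -(s • q) ≤ τ • q ∧ τ • q ≤ s • q) {u v : V} (h1 : -u ≤ v) (h2 : v ≤ u) :
    -(s • u) ≤ τ • v ∧ τ • v ≤ s • u := by
  rcases htot v with hv | hv
  · obtain ⟨h3, h4⟩ := hτ v hv
    have h5 := smul_le' hs h2
    exact ⟨le_trans (neg_le_neg h5) h3, le_trans h4 h5⟩
  · have hv' : 0 ≤ -v := neg_nonneg.mpr hv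
    obtain ⟨h3, h4⟩ := hτ (-v) hv'
    have h5 : s • (-v) ≤ s • u := smul_le' hs (neg_le.mp h1)
    rw [smul_neg τ] at h3 h4
    constructor
    · have := le_trans h4 h5
      exact neg_le.mp this
    · have := le_trans (neg_le_neg h5) h3
      exact neg_le_neg_iff.mp this

theorem sg_bounds (w : Q) (c : ℝ) {q : V} (hq : 0 ≤ q) :
    -((sg w (|c| + 1) : GA Q) • q) ≤ (sg w c : GA Q) • q ∧
      (sg w c : GA Q) • q ≤ (sg w (|c| + 1) : GA Q) • q := by
  have hadd : ∀ c₁ c₂ : ℝ, (sg w c₁ : GA Q) + sg w c₂ = sg w (c₁ + c₂) := by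
    intro c₁ c₂
    exact (MonoidAlgebra.single_add w c₁ c₂).symm
  constructor
  · have h1 : 0 < |c| + 1 + c := by
      have := neg_abs_le c
      linarith
    have h2 := OM.mono w _ q h1 hq
    rw [← hadd, add_smul] at h2
    exact neg_le_iff_add_nonneg'.mpr h2
  · have h1 : 0 < |c| + 1 - c := by
      have := le_abs_self c
      linarith
    have h2 := OM.mono w _ q h1 hq
    have h3 : (sg w (|c| + 1) : GA Q) = sg w c + sg w (|c| + 1 - c) := by
      rw [hadd]; congr 1; ring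
    rw [h3, add_smul]
    exact le_add_of_nonneg_right h2

theorem bound_SubR (R : Subgroup Q) (htot : ∀ v : V, 0 ≤ v ∨ v ≤ 0) {S : Submonoid Q}
    (hS : ∀ w ∈ S, w ∈ R ∨ Wp V R w⁻¹) {τ : GA Q} (hτ : τ ∈ SubR S) :
    ∃ s, Pos (R : Set Q) s ∧ ∀ q : V, 0 ≤ q → -(s • q) ≤ τ • q ∧ τ • q ≤ s • q := by
  unfold SubR at hτ
  induction hτ using Subring.closure_induction with
  | mem y hy =>
    obtain ⟨w, hw, c, rfl⟩ := hy
    have hc : 0 < |c| + 1 := by positivity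
    rcases hS w hw with hw | hw
    · exact ⟨sg w (|c| + 1), Pos.sing _ _ hw hc, fun q hq => sg_bounds w c hq⟩
    · refine ⟨sg 1 (|c| + 1), Pos.sing _ _ R.one_mem hc, fun q hq => ?_⟩
      obtain ⟨h1, h2⟩ := sg_bounds w c hq
      have h3 : (sg w (|c| + 1) : GA Q) • q ≤ (sg 1 (|c| + 1) : GA Q) • q := by
        have h4 : el w • q ≤ q := by
          have h5 := hw (el w • q) (el_smul_nonneg w hq) 1 (pos_one R)
          rwa [one_smul, ← mul_smul, el_inv_mul, one_smul] at h5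
        have h6 := smul_le' (Pos.sing (D := (R : Set Q)) 1 (|c| + 1) R.one_mem hc) h4
        rwa [← mul_smul, show (el w : GA Q) = sg w 1 from rfl, sg_mul, one_mul, mul_one] at h6
      exact ⟨le_trans (neg_le_neg h3) h1, le_trans h2 h3⟩
  | zero =>
    refine ⟨1, pos_one R, fun q hq => ?_⟩
    rw [zero_smul, one_smul]
    exact ⟨neg_nonpos.mpr hq, hq⟩
  | one =>
    refine ⟨1, pos_one R, fun q hq => ?_⟩
    rw [one_smul]
    exact ⟨le_trans (neg_nonpos.mpr hq) hq, le_rfl⟩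
  | add x y _ _ hx hy =>
    obtain ⟨s, hs, hx⟩ := hx
    obtain ⟨t, ht, hy⟩ := hy
    refine ⟨s + t, Pos.add _ _ hs ht, fun q hq => ?_⟩
    obtain ⟨h1, h2⟩ := hx q hq
    obtain ⟨h3, h4⟩ := hy q hq
    rw [add_smul, add_smul, neg_add]
    exact ⟨add_le_add h1 h3, add_le_add h2 h4⟩
  | neg x _ hx =>
    obtain ⟨s, hs, hx⟩ := hx
    refine ⟨s, hs, fun q hq => ?_⟩
    obtain ⟨h1, h2⟩ := hx q hq
    rw [neg_smul]
    exact ⟨neg_le_neg h2, neg_le.mp h1⟩
  | mul x y _ _ hx hy =>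
    obtain ⟨s, hs, hx⟩ := hx
    obtain ⟨t, ht, hy⟩ := hy
    refine ⟨s * t, Pos.mulN hs ht, fun q hq => ?_⟩
    obtain ⟨h1, h2⟩ := hy q hq
    have := bnd_apply htot hs hx h1 h2
    rw [mul_smul, mul_smul]
    exact this

theorem clos_cases {R : Subgroup Q} {l : List Q} (hl : ∀ y ∈ l, y ∈ R ∨ Wp V R y⁻¹) :
    ∀ w ∈ Submonoid.closure ((R : Set Q) ∪ {y | y ∈ l}), w ∈ R ∨ Wp V R w⁻¹ := by
  intro w hw
  induction hw using Submonoid.closure_induction with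
  | mem y hy =>
    rcases hy with hy | hy
    · exact Or.inl hy
    · exact hl y hy
  | one => exact Or.inl R.one_mem
  | mul x y _ _ hx hy =>
    rcases hx with hx | hx <;> rcases hy with hy | hy
    · exact Or.inl (R.mul_mem hx hy)
    · right; rw [mul_inv_rev]; exact Wp.rmul (R.inv_mem hx) hy
    · right; rw [mul_inv_rev]; exact Wp.lmul (R.inv_mem hy) hx
    · right; rw [mul_inv_rev]; exact Wp.mulW hy hx

theorem list_max {R : Subgroup Q} (hdich : ∀ w : Q, w ∉ R → Wp V R w ∨ Wp V R w⁻¹) (l : List Q)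
    (hl : l ≠ []) : ∃ δ₀ ∈ l, ∀ δ ∈ l, δ * δ₀⁻¹ ∈ R ∨ Wp V R (δ * δ₀⁻¹)⁻¹ := by
  induction l with
  | nil => exact absurd rfl hl
  | cons d l ih =>
    by_cases hl' : l = []
    · subst hl'
      refine ⟨d, List.mem_cons_self, ?_⟩
      intro δ hδ
      rw [List.mem_singleton] at hδ
      subst hδ
      left
      rw [mul_inv_cancel]
      exact R.one_mem
    · obtain ⟨δ₀, hδ₀, hmax⟩ := ih hl'
      by_cases h : d * δ₀⁻¹ ∈ R ∨ Wp V R (d * δ₀⁻¹)⁻¹
      · refine ⟨δ₀, List.mem_cons_of_mem _ hδ₀, ?_⟩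
        intro δ hδ
        rcases List.mem_cons.mp hδ with rfl | hδ
        · exact h
        · exact hmax δ hδ
      · push Not at h
        have h1 : Wp V R (d * δ₀⁻¹) := by
          rcases hdich _ h.1 with h2 | h2
          · exact h2
          · exact absurd h2 h.2
        refine ⟨d, List.mem_cons_self, ?_⟩
        intro δ hδ
        rcases List.mem_cons.mp hδ with rfl | hδ
        · left
          rw [mul_inv_cancel]
          exact R.one_mem
        · right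
          have e : (δ * d⁻¹)⁻¹ = (d * δ₀⁻¹) * (δ * δ₀⁻¹)⁻¹ := by group
          rw [e]
          rcases hmax δ hδ with h2 | h2
          · exact Wp.rmul (R.inv_mem h2) h1
          · exact Wp.mulW h1 h2

theorem pos_list {D : Set Q} {f : GA Q} (hf : Pos D f) :
    ∃ l : List Q, l ≠ [] ∧ (∀ δ ∈ l, δ ∈ D) ∧ Pos {δ | δ ∈ l} f := by
  induction hf with
  | sing w c hw hc =>
    refine ⟨[w], by simp, ?_, Pos.sing w c (by simp) hc⟩
    intro δ hδ
    rw [List.mem_singleton] at hδ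
    rw [hδ]; exact hw
  | add a b _ _ iha ihb =>
    obtain ⟨l1, h1, h2, h3⟩ := iha
    obtain ⟨l2, _, h5, h6⟩ := ihb
    refine ⟨l1 ++ l2, by simp [h1], ?_, ?_⟩
    · intro δ hδ
      rcases List.mem_append.mp hδ with h | h
      · exact h2 δ h
      · exact h5 δ h
    · refine Pos.add _ _ (h3.mono ?_) (h6.mono ?_)
      · intro δ hδ
        exact List.mem_append.mpr (Or.inl hδ)
      · intro δ hδ
        exact List.mem_append.mpr (Or.inr hδ)

theorem pow_mono {R : Subgroup Q} {x₀ : Q} (h0 : Wp V R x₀) {a : V} (ha : 0 ≤ a) {k k' : ℕ}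
    (h : k ≤ k') : el (x₀ ^ k) • a ≤ el (x₀ ^ k') • a := by
  induction k', h using Nat.le_induction with
  | base => exact le_rfl
  | succ n hn ih =>
    refine le_trans ih ?_
    rw [pow_succ', ← el_mul, mul_smul]
    have := h0 _ (el_smul_nonneg (x₀ ^ n) ha) 1 (pos_one R)
    rwa [one_smul] at this

theorem Wp.powW {R : Subgroup Q} {x₀ : Q} (h0 : Wp V R x₀) (j : ℕ) (hj : 1 ≤ j) :
    Wp V R (x₀ ^ j) := by
  induction j, hj using Nat.le_induction with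
  | base => rw [pow_one]; exact h0
  | succ n hn ih => rw [pow_succ]; exact Wp.mulW ih h0

theorem pow_dom {R : Subgroup Q} {x x₀ : Q} (h0 : Wp V R x₀)
    (harch : ∃ k : ℕ, Wp V R (x₀ ^ k * x⁻¹))
    {a : V} (ha : 0 ≤ a) (n : ℕ) : ∃ k : ℕ, el (x ^ n) • a ≤ el (x₀ ^ k) • a := by
  obtain ⟨k0, hk0⟩ := harch
  induction n with
  | zero => exact ⟨0, by simp⟩
  | succ n ih =>
    obtain ⟨k, hk⟩ := ih
    refine ⟨k0 + k, ?_⟩
    rw [pow_succ', ← el_mul, mul_smul, pow_add, ← el_mul (x₀ ^ k0), mul_smul]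
    refine le_trans (el_smul_le x hk) ?_
    have h1 := hk0 (el x • (el (x₀ ^ k) • a)) (el_smul_nonneg _ (el_smul_nonneg _ ha)) 1 (pos_one R)
    rwa [one_smul, ← el_mul (x₀ ^ k0), mul_smul, ← mul_smul (el x⁻¹), el_inv_mul, one_smul] at h1

theorem mu_dom {R : Subgroup Q} {x x₀ : Q} (h0 : Wp V R x₀)
    (harch : ∃ k : ℕ, Wp V R (x₀ ^ k * x⁻¹)) (arch2 : ∀ w : Q, ∃ k : ℕ, Wp V R (x ^ k * w⁻¹))
    {a : V} (ha : 0 ≤ a) {D : Set Q} {μ : GA Q} (hμ : Pos D μ) :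
    ∃ k : ℕ, μ • a ≤ el (x₀ ^ k) • a := by
  induction hμ with
  | sing w c hw hc =>
    obtain ⟨n, hn⟩ := arch2 w
    obtain ⟨k, hk⟩ := pow_dom h0 harch ha n
    refine ⟨k + 1, ?_⟩
    have h1 : el w • a ≤ el (x ^ n) • a := by
      have h2 := hn (el w • a) (el_smul_nonneg w ha) 1 (pos_one R)
      rwa [one_smul, ← el_mul, mul_smul, ← mul_smul (el w⁻¹), el_inv_mul, one_smul] at h2
    have h3 : (sg w c : GA Q) • a = (sg 1 c : GA Q) • (el w • a) := by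
      rw [← mul_smul, show (el w : GA Q) = sg w 1 from rfl, sg_mul, one_mul, mul_one]
    have hp : Pos (R : Set Q) (sg 1 c) := Pos.sing 1 c R.one_mem hc
    rw [h3, pow_succ', ← el_mul, mul_smul]
    refine le_trans (smul_le' hp (le_trans h1 hk)) ?_
    exact h0 _ (el_smul_nonneg _ ha) _ hp
  | add a' b' _ _ iha ihb =>
    obtain ⟨k1, hk1⟩ := iha
    obtain ⟨k2, hk2⟩ := ihb
    refine ⟨max k1 k2 + 1, ?_⟩
    have h1 := le_trans hk1 (pow_mono h0 ha (le_max_left k1 k2))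
    have h2 := le_trans hk2 (pow_mono h0 ha (le_max_right k1 k2))
    rw [add_smul, pow_succ', ← el_mul, mul_smul]
    refine le_trans (add_le_add h1 h2) ?_
    have h3 := h0 _ (el_smul_nonneg (x₀ ^ max k1 k2) ha) (1 + 1) (Pos.add _ _ (pos_one R) (pos_one R))
    rwa [add_smul, one_smul] at h3

end wild

theorem wild_false {Q V M : Type} [Group Q] [AddCommGroup V] [PartialOrder V] [IsOrderedAddMonoid V]
    [Module (GA Q) V] [OM Q V] [AddCommGroup M] [Module (GA Q) M] (ι : V →ₗ[GA Q] M) (hι : Function.Injective ι)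
    (hd : ∀ p : V, 0 < p → Bd (Q := Q) (Set.univ : Set Q) p)
    (htot : ∀ v : V, 0 ≤ v ∨ v ≤ 0) (R : Subgroup Q) (x : Q) (p : V) (hW : Wild V R x p) (hO : OreSub R)
    (happ : ∀ (E : ℕ → Set Q) (D : Set Q), (∀ k, ∀ w ∈ E k, ∀ r ∈ R, r * w ∈ E k) →
      (∀ k, ∀ w ∈ E k, ∀ d ∈ D, w * d ∈ E (k + 1)) → D ⊆ E 1 →
      ∀ h f1 g1 : GA Q, Pos (R : Set Q) h → (f1 = 0 ∨ Pos D f1) → (g1 = 0 ∨ Pos D g1) → ∀ k : ℕ, 1 ≤ k →
      ∃ σ τ t e : GA Q, Pos (R : Set Q) σ ∧ τ ∈ Sp (⋃ j ≥ 1, E j) ∧ Pos (R : Set Q) t ∧ e ∈ Sp (E k) ∧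
        (σ + τ) * (h + f1) = t * (h + g1) + e)
    (hNoe : ∀ l : List Q, IsNoetherianRing (SubR (Submonoid.closure ((R : Set Q) ∪ {y | y ∈ l}))))
    (h f1 g1 : GA Q) (hh : Pos (R : Set Q) h) (hf : f1 = 0 ∨ Pos {δ : Q | Wp V R δ⁻¹} f1)
    (hg : g1 = 0 ∨ Pos {δ : Q | Wp V R δ⁻¹} g1) (m : M) (a b : V) (ha : 0 < a) (hb : b ≤ 0)
    (hfm : (h + f1) • m = ι a) (hgm : (h + g1) • m = ι b) : False := by
  classical
  -- the finite list of elements
  have hlist : ∃ L : List Q, L ≠ [] ∧ (∀ δ ∈ L, Wp V R δ⁻¹) ∧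
      (f1 = 0 ∨ Pos {δ | δ ∈ L} f1) ∧ (g1 = 0 ∨ Pos {δ | δ ∈ L} g1) := by
    rcases hf with hf | hf <;> rcases hg with hg | hg
    · exfalso
      rw [hf, add_zero] at hfm
      rw [hg, add_zero, hfm] at hgm
      have := hι hgm
      rw [this] at ha
      exact absurd ha (not_lt_of_ge hb)
    · obtain ⟨l, h1, h2, h3⟩ := pos_list hg
      exact ⟨l, h1, h2, Or.inl hf, Or.inr h3⟩
    · obtain ⟨l, h1, h2, h3⟩ := pos_list hf
      exact ⟨l, h1, h2, Or.inr h3, Or.inl hg⟩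
    · obtain ⟨l1, h1, h2, h3⟩ := pos_list hf
      obtain ⟨l2, h1', h2', h3'⟩ := pos_list hg
      refine ⟨l1 ++ l2, by simp [h1], ?_, Or.inr (h3.mono ?_), Or.inr (h3'.mono ?_)⟩
      · intro δ hδ
        rcases List.mem_append.mp hδ with h | h
        · exact h2 δ h
        · exact h2' δ h
      · intro δ hδ
        exact List.mem_append.mpr (Or.inl hδ)
      · intro δ hδ
        exact List.mem_append.mpr (Or.inr hδ)
  obtain ⟨L, hLne, hLW, hfL, hgL⟩ := hlist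
  obtain ⟨δ₀, hδ₀, hmax⟩ := list_max hW.dich L hLne
  obtain ⟨x₀, hx₀def⟩ : ∃ x₀, x₀ = δ₀⁻¹ := ⟨_, rfl⟩
  rw [← hx₀def] at hmax
  have hx₀ : Wp V R x₀ := by rw [hx₀def]; exact hLW δ₀ hδ₀
  obtain ⟨l, hldef⟩ : ∃ l : List Q, l = x₀⁻¹ :: L.map (fun y => y * x₀) := ⟨_, rfl⟩
  have hl : ∀ y ∈ l, y ∈ R ∨ Wp V R y⁻¹ := by
    intro y hy
    rw [hldef] at hy
    rcases List.mem_cons.mp hy with rfl | hy
    · right; rw [inv_inv]; exact hx₀
    · obtain ⟨δ, hδ, rfl⟩ := List.mem_map.mp hy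
      exact hmax δ hδ
  obtain ⟨S, hSdef⟩ : ∃ S : Submonoid Q, S = Submonoid.closure ((R : Set Q) ∪ {y | y ∈ l}) :=
    ⟨_, rfl⟩
  have hS : ∀ w ∈ S, w ∈ R ∨ Wp V R w⁻¹ := by
    rw [hSdef]; exact clos_cases hl
  have hRS : ∀ r ∈ R, r ∈ S := fun r hr => by
    rw [hSdef]; exact Submonoid.subset_closure (Or.inl hr)
  have hlS : ∀ y ∈ l, y ∈ S := fun y hy => by
    rw [hSdef]; exact Submonoid.subset_closure (Or.inr hy)
  have hxd : ∀ d ∈ L, x₀ * d ∈ S := by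
    intro d hd
    have e : x₀ * d = (x₀ * d * x₀⁻¹ * d⁻¹) * (d * x₀) := by group
    rw [e]
    refine S.mul_mem (hRS _ (hW.comm _ _)) (hlS _ ?_)
    rw [hldef]
    exact List.mem_cons_of_mem _ (List.mem_map.mpr ⟨d, hd, rfl⟩)
  have hE1 : ∀ k : ℕ, ∀ w ∈ {w | x₀ ^ k * w ∈ S}, ∀ r ∈ R, r * w ∈ {w | x₀ ^ k * w ∈ S} := by
    intro k w hw r hr
    show x₀ ^ k * (r * w) ∈ S
    have e : x₀ ^ k * (r * w) = (x₀ ^ k * r * (x₀ ^ k)⁻¹) * (x₀ ^ k * w) := by group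
    rw [e]
    exact S.mul_mem (hRS _ (hW.nor.conj_mem r hr _)) hw
  have hED : ∀ k : ℕ, ∀ w ∈ {w | x₀ ^ k * w ∈ S}, ∀ d ∈ {δ | δ ∈ L},
      w * d ∈ {w | x₀ ^ (k + 1) * w ∈ S} := by
    intro k w hw d hd
    show x₀ ^ (k + 1) * (w * d) ∈ S
    have e : x₀ ^ (k + 1) * (w * d) =
        (x₀ * (x₀ ^ k * w) * x₀⁻¹ * (x₀ ^ k * w)⁻¹) * ((x₀ ^ k * w) * (x₀ * d)) := by
      rw [pow_succ']; group
    rw [e]
    exact S.mul_mem (hRS _ (hW.comm _ _)) (S.mul_mem hw (hxd d hd))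
  have hDE : {δ | δ ∈ L} ⊆ {w | x₀ ^ 1 * w ∈ S} := by
    intro d hd
    show x₀ ^ 1 * d ∈ S
    rw [pow_one]; exact hxd d hd
  have hEneg : ∀ δ ∈ ⋃ j ≥ 1, {w | x₀ ^ j * w ∈ S}, Wp V R δ⁻¹ := by
    intro δ hδ
    simp only [Set.mem_iUnion] at hδ
    obtain ⟨j, hj, hδ⟩ := hδ
    have h1 : Wp V R (x₀ ^ j) := Wp.powW hx₀ j hj
    have e : δ⁻¹ = (x₀ ^ j * δ)⁻¹ * x₀ ^ j := by group
    rw [e]
    rcases hS _ hδ with h | h
    · exact Wp.lmul (R.inv_mem h) h1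
    · exact Wp.mulW h h1
  -- Noetherian part
  have hN : IsNoetherianRing (SubR S) := by rw [hSdef]; exact hNoe l
  let A : Ideal (SubR S) :=
    { carrier := {r | ∃ v : V, (r : GA Q) • m = ι v}
      add_mem' := by
        rintro r r' ⟨v, hv⟩ ⟨v', hv'⟩
        exact ⟨v + v', by rw [Subring.coe_add, add_smul, hv, hv', map_add]⟩
      zero_mem' := ⟨0, by simp⟩
      smul_mem' := by
        rintro c r ⟨v, hv⟩
        exact ⟨(c : GA Q) • v, by rw [smul_eq_mul, Subring.coe_mul, mul_smul, hv, map_smul]⟩ }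
  obtain ⟨T, hT⟩ := hN.noetherian A
  have hK : ∀ v : V, ∃ K : ℕ, -(el (x₀ ^ K) • a) ≤ v ∧ v ≤ el (x₀ ^ K) • a := by
    intro v
    obtain ⟨s, hs, h1⟩ := hd a ha v
    obtain ⟨t, ht, h2⟩ := hd a ha (-v)
    obtain ⟨k1, hk1⟩ := mu_dom hx₀ (hW.arch x₀ hx₀) hW.arch2 ha.le hs
    obtain ⟨k2, hk2⟩ := mu_dom hx₀ (hW.arch x₀ hx₀) hW.arch2 ha.le ht
    refine ⟨max k1 k2, ?_, ?_⟩
    · exact neg_le.mp (le_trans h2 (le_trans hk2 (pow_mono hx₀ ha.le (le_max_right k1 k2))))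
    · exact le_trans h1 (le_trans hk1 (pow_mono hx₀ ha.le (le_max_left k1 k2)))
  have hKT : ∃ K : ℕ, ∀ r ∈ T, ∃ v : V, (r : GA Q) • m = ι v ∧
      -(el (x₀ ^ K) • a) ≤ v ∧ v ≤ el (x₀ ^ K) • a := by
    have h1 : ∀ r : SubR S, ∃ K : ℕ, r ∈ T → ∃ v : V, (r : GA Q) • m = ι v ∧
        -(el (x₀ ^ K) • a) ≤ v ∧ v ≤ el (x₀ ^ K) • a := by
      intro r
      by_cases hr : r ∈ T
      · have hrA : r ∈ A := by rw [← hT]; exact Submodule.subset_span hr
        obtain ⟨v, hv⟩ := hrA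
        obtain ⟨K, h2, h3⟩ := hK v
        exact ⟨K, fun _ => ⟨v, hv, h2, h3⟩⟩
      · exact ⟨0, fun h => absurd h hr⟩
    choose κ hκ using h1
    refine ⟨T.sup κ, ?_⟩
    intro r hr
    obtain ⟨v, hv, h2, h3⟩ := hκ r hr
    have h4 := pow_mono hx₀ ha.le (Finset.le_sup (f := κ) hr)
    exact ⟨v, hv, le_trans (neg_le_neg h4) h2, le_trans h3 h4⟩
  obtain ⟨K, hKT⟩ := hKT
  obtain ⟨q, hqdef⟩ : ∃ q : V, q = el (x₀ ^ K) • a := ⟨_, rfl⟩
  rw [← hqdef] at hKT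
  have hq : 0 < q := by rw [hqdef]; exact el_smul_pos _ ha
  have hspan : ∀ r ∈ A, ∃ v : V, (r : GA Q) • m = ι v ∧
      ∃ s, Pos (R : Set Q) s ∧ -(s • q) ≤ v ∧ v ≤ s • q := by
    intro r hr
    rw [← hT] at hr
    induction hr using Submodule.span_induction with
    | mem y hy =>
      obtain ⟨v, h1, h2, h3⟩ := hKT y hy
      exact ⟨v, h1, 1, pos_one R, by rwa [one_smul], by rwa [one_smul]⟩
    | zero =>
      exact ⟨0, by simp, 1, pos_one R, by rw [one_smul]; exact neg_nonpos.mpr hq.le,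
        by rw [one_smul]; exact hq.le⟩
    | add x y _ _ hx hy =>
      obtain ⟨v, h1, s, hs, h2, h3⟩ := hx
      obtain ⟨v', h1', s', hs', h2', h3'⟩ := hy
      exact ⟨v + v', by rw [Subring.coe_add, add_smul, h1, h1', map_add], s + s',
        Pos.add _ _ hs hs', by rw [add_smul, neg_add]; exact add_le_add h2 h2',
        by rw [add_smul]; exact add_le_add h3 h3'⟩
    | smul c x _ hx =>
      obtain ⟨v, h1, s, hs, h2, h3⟩ := hx
      obtain ⟨t, ht, hb'⟩ := bound_SubR (V := V) R htot hS c.2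
      obtain ⟨h4, h5⟩ := bnd_apply htot ht hb' h2 h3
      exact ⟨(c : GA Q) • v, by rw [smul_eq_mul, Subring.coe_mul, mul_smul, h1, map_smul],
        t * s, Pos.mulN ht hs, by rwa [mul_smul], by rwa [mul_smul]⟩
  obtain ⟨σ, τ, t, e, hσ, hτ, ht, he, heq⟩ := happ (fun k => {w | x₀ ^ k * w ∈ S}) {δ | δ ∈ L}
    hE1 hED hDE h f1 g1 hh hfL hgL (K + 1) (by omega)
  have hem : e • m = ι ((σ + τ) • a - t • b) := by
    have h1 : ((σ + τ) * (h + f1)) • m = (t * (h + g1) + e) • m := by rw [heq]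
    rw [mul_smul, hfm, add_smul (t * (h + g1)), mul_smul t, hgm] at h1
    rw [map_sub, map_smul, map_smul, h1]
    abel
  have hxe : el (x₀ ^ (K + 1)) * e ∈ SubR S := by
    have he' : e ∈ Submodule.span ℝ (el '' {w | x₀ ^ (K + 1) * w ∈ S}) := he
    clear hem heq he
    induction he' using Submodule.span_induction with
    | mem y hy =>
      obtain ⟨w, hw, rfl⟩ := hy
      rw [el_mul]
      exact Subring.subset_closure ⟨_, hw, 1, rfl⟩
    | zero => rw [mul_zero]; exact Subring.zero_mem _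
    | add y z _ _ hy hz => rw [mul_add]; exact Subring.add_mem _ hy hz
    | smul c y _ hy =>
      rw [mul_smul_comm, rsmul_eq]
      exact Subring.mul_mem _ (Subring.subset_closure ⟨1, S.one_mem, c, rfl⟩) hy
  have hmemA : (⟨el (x₀ ^ (K + 1)) * e, hxe⟩ : SubR S) ∈ A := by
    refine ⟨el (x₀ ^ (K + 1)) • ((σ + τ) • a - t • b), ?_⟩
    show (el (x₀ ^ (K + 1)) * e) • m = _
    rw [mul_smul, hem, map_smul]
  obtain ⟨v', hv', s, hs, -, h3⟩ := hspan _ hmemA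
  have hv'eq : v' = el (x₀ ^ (K + 1)) • ((σ + τ) • a - t • b) := by
    apply hι
    rw [← hv', map_smul, ← hem, ← mul_smul]
  have hσ' : Pos (R : Set Q) (sg 1 (1 / 2) * σ) := hσ.scale (by norm_num)
  have hlow : (sg 1 (1 / 2) * σ) • a ≤ (σ + τ) • a - t • b := by
    have h1 := (neg_bound ha.le hEneg hτ _ hσ').1
    have h2 : t • b ≤ 0 := by
      have := smul_le' ht hb
      rwa [smul_zero] at this
    have h4 : σ • a = (sg 1 (1 / 2) * σ) • a + (sg 1 (1 / 2) * σ) • a := by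
      rw [← add_smul, half_add]
    rw [add_smul, h4]
    have h5 : (sg 1 (1 / 2) * σ) • a = (sg 1 (1 / 2) * σ) • a + (sg 1 (1 / 2) * σ) • a +
        -((sg 1 (1 / 2) * σ) • a) - 0 := by abel
    calc (sg 1 (1 / 2) * σ) • a = (sg 1 (1 / 2) * σ) • a + (sg 1 (1 / 2) * σ) • a +
        -((sg 1 (1 / 2) * σ) • a) - 0 := h5
      _ ≤ (sg 1 (1 / 2) * σ) • a + (sg 1 (1 / 2) * σ) • a + τ • a - t • b :=
        sub_le_sub (add_le_add le_rfl h1) h2
  have hup : el (x₀ ^ (K + 1)) • ((sg 1 (1 / 2) * σ) • a) ≤ s • q := by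
    refine le_trans (el_smul_le _ hlow) ?_
    rw [← hv'eq]; exact h3
  have hσ'' := Pos.conj hW.nor (x₀ ^ (K + 1)) hσ'
  have h6 := Wp.pos_dom hx₀ hσ'' hq.le (Pos.add _ _ hs hs)
  have h7 : (el (x₀ ^ (K + 1)) * (sg 1 (1 / 2) * σ) * el (x₀ ^ (K + 1))⁻¹) • (el x₀ • q) =
      el (x₀ ^ (K + 1)) • ((sg 1 (1 / 2) * σ) • a) := by
    rw [hqdef, ← mul_smul (el x₀), el_mul, ← pow_succ', ← mul_smul, mul_assoc, el_inv_mul, mul_one,
      mul_smul]
  rw [h7] at h6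
  have h8 := le_trans h6 hup
  rw [add_smul] at h8
  have h9 := smul_pos' hs hq
  have h10 : s • q ≤ 0 := by
    have := sub_nonneg.mpr h8
    have e1 : s • q - (s • q + s • q) = -(s • q) := by abel
    rw [e1] at this
    exact neg_nonneg.mp this
  exact absurd h9 (not_lt_of_ge h10)

end H294Ore
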