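import Pool.Agent.Helper294.Ore.Core
set_option autoImplicit false
set_option linter.all false

namespace H294Ore
open MonoidAlgebra


section
variable {Q V : Type} [Group Q] [AddCommGroup V] [PartialOrder V] [IsOrderedAddMonoid V] [Module (GA Q) V] [OM Q V]


/-- `V_w` -/
def wtVW (R : Subgroup Q) (p : V) (w : Q) (v : V) : Prop :=
  ∃ s : GA Q, Pos (R : Set Q) s ∧ v ≤ s • el w • p ∧ -v ≤ s • el w • p

/-- `V^s_w` -/
def wtVS (R : Subgroup Q) (p : V) (w : Q) (v : V) : Prop :=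
  ∃ s : GA Q, Pos (R : Set Q) s ∧ wtVW R p w (s • v)

theorem wtVW_add {R : Subgroup Q} {p : V} {w : Q} {v v' : V} (h : wtVW R p w v)
    (h' : wtVW R p w v') : wtVW R p w (v + v') := by
  obtain ⟨s, hs, h1, h2⟩ := h
  obtain ⟨s', hs', h1', h2'⟩ := h'
  refine ⟨s + s', Pos.add _ _ hs hs', ?_, ?_⟩
  · rw [add_smul]; exact add_le_add h1 h1'
  · rw [add_smul, neg_add]; exact add_le_add h2 h2'

theorem wtVW_neg {R : Subgroup Q} {p : V} {w : Q} {v : V} (h : wtVW R p w v) :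
    wtVW R p w (-v) := by
  obtain ⟨s, hs, h1, h2⟩ := h
  exact ⟨s, hs, h2, by rw [neg_neg]; exact h1⟩

theorem wtVW_pos {R : Subgroup Q} {p : V} {w : Q} {v : V} {t : GA Q} (ht : Pos (R : Set Q) t)
    (h : wtVW R p w v) : wtVW R p w (t • v) := by
  obtain ⟨s, hs, h1, h2⟩ := h
  refine ⟨t * s, ht.mulN hs, ?_, ?_⟩
  · rw [mul_smul]; exact smul_le' ht h1
  · rw [mul_smul, ← smul_neg]; exact smul_le' ht h2

theorem wt_sg_eq (u : Q) (c : ℝ) : (sg u c : GA Q) = sg 1 c * el u := by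
  rw [sg_mul, one_mul, mul_one]

theorem wt_conj_eq (u w : Q) (c : ℝ) (s : GA Q) :
    sg u c * (s * el w) = (sg 1 c * (el u * s * el u⁻¹)) * el (u * w) := by
  rw [← el_mul u w, wt_sg_eq u c]
  have : el u⁻¹ * (el u * el w) = el w := by rw [← mul_assoc, el_inv_mul, one_mul]
  simp only [mul_assoc]
  rw [this]

theorem wt_conj_eq2 (u : Q) (c : ℝ) (s : GA Q) :
    (el u * s * el u⁻¹) * sg u c = sg u c * s := by
  have h1 : el u⁻¹ * sg u c = (sg 1 c : GA Q) := by rw [sg_mul, inv_mul_cancel, one_mul]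
  rw [mul_assoc, h1, mul_assoc, ← sg_one_comm, ← mul_assoc, ← sg_one_comm, ← wt_sg_eq]

theorem wtVW_sg {R : Subgroup Q} (hR : R.Normal) {p : V} {w : Q} {v : V} {u : Q} {c : ℝ}
    (hc : 0 < c) (h : wtVW R p w v) : wtVW R p (u * w) (sg u c • v) := by
  obtain ⟨s, hs, h1, h2⟩ := h
  have hp : Pos Set.univ (sg u c : GA Q) := Pos.sing u c (Set.mem_univ _) hc
  refine ⟨sg 1 c * (el u * s * el u⁻¹), (hs.conj hR u).scale hc, ?_, ?_⟩
  · have := smul_le' hp h1
    rw [smul_smul s, smul_smul, wt_conj_eq, mul_smul] at this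
    exact this
  · have := smul_le' hp h2
    rw [smul_smul s, smul_smul, wt_conj_eq, mul_smul, smul_neg] at this
    exact this

theorem wtVW_her {R : Subgroup Q} {p : V} {w : Q} {a b : V} (ha : 0 ≤ a) (hab : a ≤ b)
    (h : wtVW R p w b) : wtVW R p w a := by
  obtain ⟨s, hs, h1, h2⟩ := h
  refine ⟨s, hs, hab.trans h1, ?_⟩
  exact (neg_nonpos.2 ha).trans ((ha.trans hab).trans h1)

theorem wtVS_of {R : Subgroup Q} {p : V} {w : Q} {v : V} (h : wtVW R p w v) : wtVS R p w v :=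
  ⟨1, pos_one R, by rw [one_smul]; exact h⟩

theorem wtVS_zero {R : Subgroup Q} {p : V} (hp : 0 ≤ p) (w : Q) : wtVS R p w 0 := by
  apply wtVS_of
  have h0 : (0 : V) ≤ (1 : GA Q) • el w • p := by
    rw [one_smul]; exact el_smul_nonneg w hp
  exact ⟨1, pos_one R, h0, by rw [neg_zero]; exact h0⟩

theorem wtVS_add {R : Subgroup Q} (hO : OreSub R) {p : V} {w : Q} {v v' : V} (h : wtVS R p w v)
    (h' : wtVS R p w v') : wtVS R p w (v + v') := by
  obtain ⟨s, hs, h1⟩ := h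
  obtain ⟨s', hs', h1'⟩ := h'
  obtain ⟨u, u', hu, hu', he⟩ := hO s s' hs hs'
  refine ⟨u * s, hu.mulN hs, ?_⟩
  rw [smul_add]
  apply wtVW_add
  · rw [mul_smul]; exact wtVW_pos hu h1
  · rw [he, mul_smul]; exact wtVW_pos hu' h1'

theorem wtVS_neg {R : Subgroup Q} {p : V} {w : Q} {v : V} (h : wtVS R p w v) :
    wtVS R p w (-v) := by
  obtain ⟨s, hs, h1⟩ := h
  refine ⟨s, hs, ?_⟩
  rw [smul_neg]
  exact wtVW_neg h1

theorem wtVS_sg {R : Subgroup Q} (hR : R.Normal) {p : V} {w : Q} {v : V} {u : Q} {c : ℝ}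
    (hc : 0 < c) (h : wtVS R p w v) : wtVS R p (u * w) (sg u c • v) := by
  obtain ⟨s, hs, h1⟩ := h
  refine ⟨el u * s * el u⁻¹, hs.conj hR u, ?_⟩
  rw [smul_smul, wt_conj_eq2, mul_smul]
  exact wtVW_sg hR hc h1

theorem wtVS_her {R : Subgroup Q} {p : V} {w : Q} {a b : V} (ha : 0 ≤ a) (hb : 0 ≤ b)
    (h : wtVS R p w (a + b)) : wtVS R p w a := by
  obtain ⟨s, hs, h1⟩ := h
  exact ⟨s, hs, wtVW_her (smul_nonneg' hs ha) (smul_le' hs (le_add_of_nonneg_right hb)) h1⟩

theorem wtVS_sat {R : Subgroup Q} {p : V} {w : Q} {v : V} {s : GA Q} (hs : Pos (R : Set Q) s)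
    (h : wtVS R p w (s • v)) : wtVS R p w v := by
  obtain ⟨s', hs', h1⟩ := h
  refine ⟨s' * s, hs'.mulN hs, ?_⟩
  rw [mul_smul]
  exact h1

theorem wtVW_mono {R : Subgroup Q} (hR : R.Normal) {p : V} (hp : 0 ≤ p) {w w' : Q} {v : V}
    (hw : w⁻¹ * w' ∈ R ∨ Wp V R (w⁻¹ * w')) (h : wtVW R p w v) : wtVW R p w' v := by
  obtain ⟨s, hs, h1, h2⟩ := h
  rcases hw with hw | hw
  · -- `w = (w w'⁻¹) w'` and `w w'⁻¹ ∈ R`
    have hr : w * w'⁻¹ ∈ R := by
      have h3 := hR.conj_mem _ (R.inv_mem hw) w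
      have h4 : w * (w⁻¹ * w')⁻¹ * w⁻¹ = w * w'⁻¹ := by group
      rwa [h4] at h3
    have hpr : Pos (R : Set Q) (s * el (w * w'⁻¹)) := hs.mulN (pos_el_of hr)
    have he : s • el w • p = (s * el (w * w'⁻¹)) • el w' • p := by
      rw [smul_smul, smul_smul, mul_assoc, el_mul]
      congr 3
      group
    refine ⟨s * el (w * w'⁻¹), hpr, ?_, ?_⟩
    · rw [← he]; exact h1
    · rw [← he]; exact h2
  · have hle : s • el w • p ≤ (1 : GA Q) • el w' • p := by
      rw [one_smul]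
      have ht : Pos (R : Set Q) (el w⁻¹ * s * el w) := by
        have := hs.conj hR w⁻¹
        rwa [inv_inv] at this
      have h3 := el_smul_le w (hw p hp _ ht)
      rw [smul_smul (el w) (el (w⁻¹ * w')), el_mul, mul_inv_cancel_left, smul_smul] at h3
      have h4 : el w * (el w⁻¹ * s * el w) = s * el w := by
        rw [← mul_assoc, ← mul_assoc, el_mul_inv, one_mul]
      rw [h4, mul_smul] at h3
      exact h3
    exact ⟨1, pos_one R, h1.trans hle, h2.trans hle⟩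

theorem wtVS_mono {R : Subgroup Q} (hR : R.Normal) {p : V} (hp : 0 ≤ p) {w w' : Q} {v : V}
    (hw : w⁻¹ * w' ∈ R ∨ Wp V R (w⁻¹ * w')) (h : wtVS R p w v) : wtVS R p w' v := by
  obtain ⟨s, hs, h1⟩ := h
  exact ⟨s, hs, wtVW_mono hR hp hw h1⟩

theorem wtVS_posR {R : Subgroup Q} (hR : R.Normal) (hO : OreSub R) {p : V} (hp : 0 ≤ p) {w : Q}
    {v : V} {a : GA Q} (ha : Pos (R : Set Q) a) (h : wtVS R p w v) : wtVS R p w (a • v) := by
  induction ha with
  | sing r c hr hc =>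
    refine wtVS_mono hR hp (Or.inl ?_) (wtVS_sg (u := r) hR hc h)
    have h3 := hR.conj_mem _ (R.inv_mem hr) w⁻¹
    have h4 : w⁻¹ * r⁻¹ * w⁻¹⁻¹ = (r * w)⁻¹ * w := by group
    rwa [h4] at h3
  | add a b _ _ iha ihb => rw [add_smul]; exact wtVS_add hO iha ihb

theorem wt_wp_congr {R : Subgroup Q} {a b : Q} (hab : a⁻¹ * b ∈ R) (h : Wp V R a) : Wp V R b := by
  intro q hq s hs
  have h1 := h (el (a⁻¹ * b) • q) (el_smul_nonneg _ hq) (s * el (a⁻¹ * b)⁻¹)
    (hs.mulN (pos_el_of (R.inv_mem hab)))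
  rw [smul_smul, smul_smul, mul_assoc, el_inv_mul, mul_one, el_mul, mul_inv_cancel_left] at h1
  exact h1

theorem wt_wp_mul {R : Subgroup Q} {a b : Q} (ha : Wp V R a) (hb : Wp V R b) :
    Wp V R (a * b) := by
  intro q hq s hs
  have h1 := hb q hq s hs
  have h2 := ha (el b • q) (el_smul_nonneg _ hq) 1 (pos_one R)
  rw [one_smul, smul_smul, el_mul] at h2
  exact h1.trans h2

theorem wt_wp_pow_mul {R : Subgroup Q} {a b : Q} (ha : Wp V R a) (hb : Wp V R b) (n : ℕ) :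
    Wp V R (a ^ n * b) := by
  induction n with
  | zero => rw [pow_zero, one_mul]; exact hb
  | succ n ih => rw [pow_succ', mul_assoc]; exact wt_wp_mul ha ih

theorem wt_comm_calc {G : Type} [CommGroup G] (D X W0 W : G) (k j : ℕ) :
    (D⁻¹ ^ k * X⁻¹) ^ j * (X ^ j * (W0 * W⁻¹)⁻¹) = (D ^ (k * j) * W0)⁻¹ * W := by
  rw [mul_pow, inv_pow X, mul_assoc, inv_mul_cancel_left, ← pow_mul, inv_pow, mul_inv_rev, inv_inv,
    mul_inv_rev, mul_assoc, mul_left_comm, mul_comm W, mul_left_comm, mul_assoc]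

theorem wt_arch {R : Subgroup Q} {x : Q} {p : V} (h : Wild V R x p) {δ : Q} (hδ : Wp V R δ⁻¹)
    (w0 w : Q) : ∃ n : ℕ, Wp V R ((δ ^ n * w0)⁻¹ * w) := by
  obtain ⟨k, hk⟩ := h.arch δ⁻¹ hδ
  obtain ⟨j, hj⟩ := h.arch2 (w0 * w⁻¹)
  refine ⟨k * j, ?_⟩
  refine wt_wp_congr ?_ (wt_wp_pow_mul hk hj j)
  have := h.nor
  have hcomm : ∀ a b : Q ⧸ R, a * b = b * a := by
    intro a b
    induction a using QuotientGroup.induction_on with
    | _ a =>
    induction b using QuotientGroup.induction_on with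
    | _ b =>
    rw [← QuotientGroup.mk_mul, ← QuotientGroup.mk_mul, QuotientGroup.eq]
    have h1 := h.comm b⁻¹ a⁻¹
    have h2 : b⁻¹ * a⁻¹ * b⁻¹⁻¹ * a⁻¹⁻¹ = (a * b)⁻¹ * (b * a) := by group
    rwa [h2] at h1
  let _ : CommGroup (Q ⧸ R) := { QuotientGroup.Quotient.group R with mul_comm := hcomm }
  rw [← QuotientGroup.eq]
  exact wt_comm_calc (QuotientGroup.mk δ : Q ⧸ R) (QuotientGroup.mk x) (QuotientGroup.mk w0)
    (QuotientGroup.mk w) k j

theorem wt_dom {R : Subgroup Q} {s s' : GA Q} (hs : Pos (R : Set Q) s)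
    (hs' : Pos (R : Set Q) s') : ∃ u : GA Q, Pos (R : Set Q) u ∧ ∀ q : V, 0 ≤ q →
      s' • q ≤ (s * u) • q := by
  induction hs with
  | sing r c hr hc =>
    refine ⟨sg r⁻¹ c⁻¹ * s', (Pos.sing _ _ (R.inv_mem hr) (inv_pos.2 hc)).mulN hs', ?_⟩
    intro q hq
    have h1 : sg r c * (sg r⁻¹ c⁻¹ * s') = s' := by
      rw [← mul_assoc, sg_mul, mul_inv_cancel, mul_inv_cancel₀ hc.ne']
      rw [show (sg (1:Q) (1:ℝ)) = 1 from el_one, one_mul]
    rw [h1]
  | add a b _ hb iha ihb =>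
    obtain ⟨u, hu, h1⟩ := iha
    refine ⟨u, hu, ?_⟩
    intro q hq
    rw [add_mul, add_smul]
    refine (h1 q hq).trans (le_add_of_nonneg_right ?_)
    exact smul_nonneg' (Pos.mulN hb hu) hq

theorem wt_p_notin {R : Subgroup Q} {x : Q} {p : V} (h : Wild V R x p) : ¬ wtVS R p x⁻¹ p := by
  rintro ⟨s, hs, s', hs', h1, -⟩
  obtain ⟨u, hu, hdom⟩ := wt_dom (V := V) hs (Pos.add _ _ hs' hs')
  have hq : 0 ≤ el x⁻¹ • p := el_smul_nonneg _ h.pos.le
  have h2 := hdom (el x⁻¹ • p) hq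
  have h3 := h.W (el x⁻¹ • p) hq u hu
  rw [smul_smul (el x), el_mul_inv, one_smul] at h3
  have h4 := smul_le' hs h3
  rw [mul_smul] at h2
  have h5 := h2.trans h4
  rw [add_smul] at h5
  have h6 : s • p + s • p ≤ s • p := (add_le_add h1 h1).trans h5
  have h7 : s • p ≤ 0 := by
    have := sub_le_sub_right h6 (s • p)
    rwa [add_sub_cancel_right, sub_self] at this
  exact absurd (smul_pos' hs h.pos) (not_lt_of_ge h7)

/-- the intersection of all `V^s_w` -/
def wtH {R : Subgroup Q} (hR : R.Normal) (hO : OreSub R) {p : V} (hp : 0 ≤ p) :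
    Submodule (GA Q) V where
  carrier := {v | ∀ w, wtVS R p w v}
  zero_mem' := fun w => wtVS_zero hp w
  add_mem' := fun ha hb w => wtVS_add hO (ha w) (hb w)
  smul_mem' := by
    intro a v hv
    induction a using MonoidAlgebra.induction_linear with
    | zero =>
      intro w
      rw [zero_smul]
      exact wtVS_zero hp w
    | add a b ha hb =>
      intro w
      rw [add_smul]
      exact wtVS_add hO (ha w) (hb w)
    | single u c =>
      intro w
      have key : ∀ c : ℝ, 0 < c → wtVS R p w (sg u c • v) := by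
        intro c hc
        have := wtVS_sg (u := u) hR hc (hv (u⁻¹ * w))
        rwa [mul_inv_cancel_left] at this
      rcases lt_trichotomy c 0 with hc | hc | hc
      · have h1 := wtVS_neg (key (-c) (neg_pos.2 hc))
        have h2 : -(sg u (-c) • v) = (MonoidAlgebra.single u c : GA Q) • v := by
          rw [← neg_smul]
          congr 1
          show - (MonoidAlgebra.single u (-c) : GA Q) = MonoidAlgebra.single u c
          rw [← MonoidAlgebra.single_neg, neg_neg]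
        rwa [h2] at h1
      · rw [hc]
        have h2 : (MonoidAlgebra.single u (0:ℝ) : GA Q) = 0 := MonoidAlgebra.single_zero _
        rw [h2, zero_smul]
        exact wtVS_zero hp w
      · exact key c hc

theorem wt_cone (hm : IsMax Q V) (v : V) (hv : ¬ 0 ≤ v) : ∃ f : GA Q, Pos Set.univ f ∧ f • v ≤ 0 := by
  by_contra hcon
  push Not at hcon
  apply hv
  have h1v : ∀ a : GA Q, (a = 0 ∨ Pos Set.univ a) → ∀ b : GA Q, (b = 0 ∨ Pos Set.univ b) →
      (a + b = 0 ∨ Pos Set.univ (a + b)) := by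
    rintro a (rfl | ha) b (rfl | hb)
    · left; simp
    · right; rw [zero_add]; exact hb
    · right; rw [add_zero]; exact ha
    · right; exact Pos.add _ _ ha hb
  refine hm {u | ∃ a : GA Q, (a = 0 ∨ Pos Set.univ a) ∧ a • v ≤ u} ?_ ?_ ?_ ?_ v ?_
  · rintro u ⟨a, ha, h1⟩ u' ⟨b, hb, h2⟩
    exact ⟨a + b, h1v a ha b hb, by rw [add_smul]; exact add_le_add h1 h2⟩
  · rintro u ⟨a, ha, h1⟩ w c hc
    have hp : Pos Set.univ (sg w c : GA Q) := Pos.sing w c (Set.mem_univ _) hc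
    refine ⟨sg w c * a, ?_, ?_⟩
    · rcases ha with rfl | ha
      · left; rw [mul_zero]
      · right; exact hp.mulU ha
    · rw [mul_smul]; exact smul_le' hp h1
  · rintro u ⟨a, ha, h1⟩ ⟨b, hb, h2⟩
    have h3 : (a + b) • v ≤ 0 := by
      rw [add_smul]
      have := add_le_add h1 h2
      rwa [add_neg_cancel] at this
    rcases ha with rfl | ha
    · rcases hb with rfl | hb
      · rw [zero_smul] at h1 h2
        exact le_antisymm (neg_nonneg.1 h2) h1
      · rw [zero_add] at h3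
        exact absurd h3 (hcon b hb)
    · rcases hb with rfl | hb
      · rw [add_zero] at h3
        exact absurd h3 (hcon a ha)
      · exact absurd h3 (hcon _ (Pos.add _ _ ha hb))
  · intro u hu
    exact ⟨0, Or.inl rfl, by rw [zero_smul]; exact hu⟩
  · exact ⟨el 1, Or.inr (pos_el 1), by rw [el_one, one_smul]⟩

theorem wt_nonempty {R : Subgroup Q} {x : Q} {p : V} (h : Wild V R x p) (v : V) :
    ∃ w, wtVS R p w v := by
  obtain ⟨j1, h1⟩ := h.bd v
  obtain ⟨j2, h2⟩ := h.bd (-v)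
  have hmono : ∀ n m : ℕ, n ≤ m → el (x ^ n) • p ≤ el (x ^ m) • p := by
    intro n m hnm
    induction m, hnm using Nat.le_induction with
    | base => exact le_rfl
    | succ m _ ih =>
      refine ih.trans ?_
      have := h.W (el (x ^ m) • p) (el_smul_nonneg _ h.pos.le) 1 (pos_one R)
      rw [one_smul, smul_smul, el_mul, ← pow_succ'] at this
      exact this
  refine ⟨x ^ (max j1 j2), wtVS_of ⟨1, pos_one R, ?_, ?_⟩⟩
  · rw [one_smul]; exact h1.trans (hmono _ _ (le_max_left _ _))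
  · rw [one_smul]; exact h2.trans (hmono _ _ (le_max_right _ _))

theorem wild_total (hm : IsMax Q V) (hs : Simple' Q V) (R : Subgroup Q) (x : Q) (p : V) (h : Wild V R x p)
    (htop : ∀ f : GA Q, Pos Set.univ f → ∃ (w : Q) (f0 f1 : GA Q), Pos (R : Set Q) f0 ∧ (f1 = 0 ∨ Pos {δ : Q | Wp V R δ⁻¹} f1) ∧ el w * f = f0 + f1)
    (hO : OreSub R) (v : V) : 0 ≤ v ∨ v ≤ 0 := by
  by_contra hv
  rw [not_or] at hv
  obtain ⟨hv1, hv2⟩ := hv
  have hR := h.nor
  have hp := h.pos.le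
  -- the submodule `H` is trivial
  have hH : wtH hR hO hp = ⊥ := by
    rcases hs (wtH hR hO hp) (fun a b ha hb hab w => wtVS_her ha hb (hab w)) with h1 | h1
    · exact h1
    · exfalso
      have h2 : p ∈ wtH hR hO hp := by rw [h1]; exact Submodule.mem_top
      exact wt_p_notin h (h2 x⁻¹)
  have hne : ∃ w, ¬ wtVS R p w v := by
    by_contra hcon
    push Not at hcon
    have h1 : v ∈ wtH hR hO hp := hcon
    rw [hH, Submodule.mem_bot] at h1
    exact hv1 (by rw [h1])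
  obtain ⟨w1, hw1⟩ := hne
  obtain ⟨f, hf, hfv⟩ := wt_cone hm v hv1
  obtain ⟨g, hg, hgv⟩ := wt_cone hm (-v) (by rw [neg_nonneg]; exact hv2)
  obtain ⟨w, f0, f1, hf0, hf1, hwf⟩ := htop f hf
  obtain ⟨w', g0, g1, hg0, hg1, hwg⟩ := htop g hg
  -- the union `U`
  let U : V → Prop := fun u => ∃ z, ¬ wtVS R p z v ∧ wtVS R p z u
  have hUadd : ∀ a b, U a → U b → U (a + b) := by
    rintro a b ⟨z, hz, ha⟩ ⟨z', hz', hb⟩
    have hcase : (z⁻¹ * z' ∈ R ∨ Wp V R (z⁻¹ * z')) ∨ Wp V R (z'⁻¹ * z) := by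
      by_cases h1 : z⁻¹ * z' ∈ R
      · exact Or.inl (Or.inl h1)
      · rcases h.dich _ h1 with h2 | h2
        · exact Or.inl (Or.inr h2)
        · right
          have h3 : (z⁻¹ * z')⁻¹ = z'⁻¹ * z := by group
          rwa [h3] at h2
    rcases hcase with h1 | h1
    · exact ⟨z', hz', wtVS_add hO (wtVS_mono hR hp h1 ha) hb⟩
    · exact ⟨z, hz, wtVS_add hO ha (wtVS_mono hR hp (Or.inr h1) hb)⟩
  have hUneg : ∀ a, U a → U (-a) := by
    rintro a ⟨z, hz, ha⟩
    exact ⟨z, hz, wtVS_neg ha⟩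
  have hUposR : ∀ (t : GA Q) (a : V), Pos (R : Set Q) t → U a → U (t • a) := by
    rintro t a ht ⟨z, hz, ha⟩
    exact ⟨z, hz, wtVS_posR hR hO hp ht ha⟩
  have hUzero : U 0 := ⟨w1, hw1, wtVS_zero hp w1⟩
  have hvU : ¬ U v := by
    rintro ⟨z, hz, ha⟩
    exact hz ha
  -- `δ v ∈ U`
  have hδ : ∀ (δ : Q) (c : ℝ), Wp V R δ⁻¹ → 0 < c → U (sg δ c • v) := by
    intro δ c hδ hc
    have hex : ∃ z, wtVS R p z v ∧ ¬ wtVS R p (δ * z) v := by
      by_contra hcon
      push Not at hcon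
      obtain ⟨w0, hw0⟩ := wt_nonempty h v
      have hall : ∀ n : ℕ, wtVS R p (δ ^ n * w0) v := by
        intro n
        induction n with
        | zero => rw [pow_zero, one_mul]; exact hw0
        | succ n ih => rw [pow_succ', mul_assoc]; exact hcon _ ih
      obtain ⟨n, hn⟩ := wt_arch h hδ w0 w1
      exact hw1 (wtVS_mono hR hp (Or.inr hn) (hall n))
    obtain ⟨z, hz1, hz2⟩ := hex
    exact ⟨δ * z, hz2, wtVS_sg hR hc hz1⟩
  have hf1v : ∀ f1 : GA Q, (f1 = 0 ∨ Pos {δ : Q | Wp V R δ⁻¹} f1) → U (f1 • v) := by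
    rintro f1 (rfl | hf1)
    · rw [zero_smul]; exact hUzero
    · induction hf1 with
      | sing δ c hδ' hc => exact hδ δ c hδ' hc
      | add a b _ _ iha ihb => rw [add_smul]; exact hUadd _ _ iha ihb
  have hf1U := hf1v f1 hf1
  have hg1U := hf1v g1 hg1
  obtain ⟨a, b, ha, hb, hab⟩ := hO f0 g0 hf0 hg0
  have e1 : f0 • v = el w • f • v - f1 • v := by
    rw [smul_smul, hwf, add_smul, add_sub_cancel_right]
  have e2 : g0 • v = el w' • g • v - g1 • v := by
    rw [smul_smul, hwg, add_smul, add_sub_cancel_right]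
  have e3 : a • (el w • f • v - f1 • v) = b • (el w' • g • v - g1 • v) := by
    rw [← e1, ← e2, smul_smul, smul_smul, hab]
  rw [smul_sub, smul_sub] at e3
  have hA : 0 ≤ -(a • el w • f • v) := by
    rw [neg_nonneg]
    have h1 := smul_le' ha (el_smul_le w hfv)
    rwa [smul_zero, smul_zero] at h1
  have hB : 0 ≤ b • el w' • g • v := by
    have h0 : 0 ≤ g • v := by
      rw [smul_neg] at hgv
      exact neg_nonpos.1 hgv
    exact smul_nonneg' hb (el_smul_nonneg w' h0)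
  have hsum : -(a • el w • f • v) + b • el w' • g • v = -(a • f1 • v) + b • g1 • v := by
    have h1 : a • el w • f • v = b • el w' • g • v - b • g1 • v + a • f1 • v := by
      rw [← e3]; abel
    rw [h1]
    abel
  have hU1 : U (-(a • el w • f • v) + b • el w' • g • v) := by
    rw [hsum]
    exact hUadd _ _ (hUneg _ (hUposR a _ ha hf1U)) (hUposR b _ hb hg1U)
  obtain ⟨z, hz, hz1⟩ := hU1
  have hU2 : U (-(a • el w • f • v)) := ⟨z, hz, wtVS_her hA hB hz1⟩
  have hU3 : U ((a * f0) • v) := by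
    rw [mul_smul, e1, smul_sub]
    have h1 : a • el w • f • v - a • f1 • v = -(-(a • el w • f • v) + a • f1 • v) := by abel
    rw [h1]
    exact hUneg _ (hUadd _ _ hU2 (hUposR a _ ha hf1U))
  obtain ⟨z', hz', hz1'⟩ := hU3
  exact hvU ⟨z', hz', wtVS_sat (ha.mulN hf0) hz1'⟩

end

end H294Ore
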