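import Pool.Agent.Helper294.Ore.Core
set_option autoImplicit false
set_option linter.all false

namespace H294Ore
open MonoidAlgebra


section
variable {Q V : Type} [Group Q] [AddCommGroup V] [PartialOrder V] [IsOrderedAddMonoid V] [Module (GA Q) V] [OM Q V]


theorem wp_of_none (hm : IsMax Q V) (N : Subgroup Q) (hN : N.Normal) (x : Q) (hx : Cen N x)
    (h : ∀ q : V, 0 < q → ∀ s, Pos (N : Set Q) s → ¬ (el x • q ≤ s • q)) : Wp V N x := by
  have hcN : ∀ w : Q, w * x⁻¹ * w⁻¹ * x ∈ N := by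
    intro w
    have h1 := hN.conj_mem _ (hx w) x⁻¹
    have h2 : x⁻¹ * (x * w * x⁻¹ * w⁻¹) * x⁻¹⁻¹ = w * x⁻¹ * w⁻¹ * x := by group
    rwa [h2] at h1
  let C : Set V := {v | ∃ q : V, 0 ≤ q ∧ ∃ s, Pos (N : Set Q) s ∧ el x • q - s • q ≤ v}
  have h1 : ∀ a ∈ C, ∀ b ∈ C, a + b ∈ C := by
    rintro a ⟨q, hq, s, hs, ha⟩ b ⟨q', hq', s', hs', hb⟩
    refine ⟨q + q', add_nonneg hq hq', s + s', hs.add _ _ hs', ?_⟩
    have e1 : el x • (q + q') - (s + s') • (q + q') =
        (el x • q - s • q) + (el x • q' - s' • q') - (s • q' + s' • q) := by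
      rw [smul_add, add_smul, smul_add, smul_add]; abel
    rw [e1]
    have e2 : 0 ≤ s • q' + s' • q := add_nonneg (smul_nonneg' hs hq') (smul_nonneg' hs' hq)
    exact le_trans (sub_le_self _ e2) (add_le_add ha hb)
  have h2 : ∀ a ∈ C, ∀ (w : Q) (c : ℝ), 0 < c → sg w c • a ∈ C := by
    rintro a ⟨q, hq, s, hs, ha⟩ w c hc
    refine ⟨sg (x⁻¹ * w * x) c • q, OM.mono _ _ _ hc hq,
      (el w * s * el w⁻¹) * el (w * x⁻¹ * w⁻¹ * x), Pos.mulN (Pos.conj hN w hs) (pos_el_of (hcN w)), ?_⟩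
    have e1 : el x • (sg (x⁻¹ * w * x) c • q) = sg w c • (el x • q) := by
      rw [smul_smul, smul_smul]
      congr 1
      rw [show (el x : GA Q) = sg x 1 from rfl, sg_mul, sg_mul]
      congr 1
      · group
      · ring
    have e2 : ((el w * s * el w⁻¹) * el (w * x⁻¹ * w⁻¹ * x)) • (sg (x⁻¹ * w * x) c • q) =
        sg w c • (s • q) := by
      rw [smul_smul, smul_smul]
      congr 1
      have e3 : (el w * s * el w⁻¹) * el (w * x⁻¹ * w⁻¹ * x) * sg (x⁻¹ * w * x) c =
          el w * (s * (el w⁻¹ * (el (w * x⁻¹ * w⁻¹ * x) * sg (x⁻¹ * w * x) c))) := by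
        simp only [mul_assoc]
      have e4 : (el w⁻¹ * (el (w * x⁻¹ * w⁻¹ * x) * sg (x⁻¹ * w * x) c) : GA Q) = sg 1 c := by
        rw [show (el (w * x⁻¹ * w⁻¹ * x) : GA Q) = sg _ 1 from rfl, show (el w⁻¹ : GA Q) = sg w⁻¹ 1 from rfl,
          sg_mul, sg_mul]
        congr 1
        · group
        · ring
      rw [e3, e4, ← sg_one_comm, ← mul_assoc, show (el w : GA Q) = sg w 1 from rfl, sg_mul, mul_one, one_mul]
    rw [e1, e2, ← smul_sub]
    exact smul_le' (Pos.sing (D := Set.univ) w c (Set.mem_univ _) hc) ha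
  have h3 : ∀ a ∈ C, -a ∈ C → a = 0 := by
    rintro a ⟨q, hq, s, hs, ha⟩ ⟨q', hq', s', hs', hb⟩
    have e1 : el x • (q + q') ≤ (s + s') • (q + q') := by
      have e2 : (el x • q - s • q) + (el x • q' - s' • q') ≤ 0 := by
        have := add_le_add ha hb
        rwa [add_neg_cancel] at this
      have e3 : el x • (q + q') ≤ s • q + s' • q' := by
        rw [smul_add, ← sub_nonpos]
        refine le_trans (le_of_eq ?_) e2
        abel
      have e4 : 0 ≤ s • q' + s' • q := add_nonneg (smul_nonneg' hs hq') (smul_nonneg' hs' hq)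
      refine le_trans e3 ?_
      have e5 : (s + s') • (q + q') = (s • q + s' • q') + (s • q' + s' • q) := by
        rw [add_smul, smul_add, smul_add]; abel
      rw [e5]
      exact le_add_of_nonneg_right e4
    have e6 : ¬ (0 < q + q') := fun hlt => h (q + q') hlt (s + s') (hs.add _ _ hs') e1
    have e7 : q + q' = 0 := by
      by_contra hne
      exact e6 (lt_of_le_of_ne (add_nonneg hq hq') (Ne.symm hne))
    have e8 : q = 0 := le_antisymm (by
      calc q ≤ q + q' := le_add_of_nonneg_right hq'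
        _ = 0 := e7) hq
    have e9 : q' = 0 := by rw [e8, zero_add] at e7; exact e7
    rw [e8, smul_zero, smul_zero, sub_zero] at ha
    rw [e9, smul_zero, smul_zero, sub_zero] at hb
    exact le_antisymm (neg_nonneg.1 hb) ha
  have h4 : ∀ v : V, 0 ≤ v → v ∈ C := by
    intro v hv
    refine ⟨0, le_rfl, 1, pos_one N, ?_⟩
    rw [smul_zero, smul_zero, sub_zero]
    exact hv
  intro q hq s hs
  have h5 := hm C h1 h2 h3 h4 (el x • q - s • q) ⟨q, hq, s, hs, le_rfl⟩
  exact sub_nonneg.1 h5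

end

end H294Ore
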