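import Pool.Agent.Helper294.Ore.Core
set_option autoImplicit false
set_option linter.all false

namespace H294Ore
open MonoidAlgebra


section
variable {Q V : Type} [Group Q] [AddCommGroup V] [PartialOrder V] [IsOrderedAddMonoid V] [Module (GA Q) V] [OM Q V]


theorem xbdd_pow (N : Subgroup Q) (x : Q) (hW : Wp V N x) (q : V) (hq : 0 ≤ q) (k : ℕ) :
    q ≤ el (x ^ k) • q := by
  induction k with
  | zero => rw [pow_zero, el_one, one_smul]
  | succ k ih =>
    have h1 : q ≤ el x • q := by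
      have := hW q hq 1 (pos_one N)
      rwa [one_smul] at this
    have h2 : el (x ^ k) • q ≤ el (x ^ k) • (el x • q) := el_smul_le _ h1
    rw [smul_smul, el_mul, ← pow_succ] at h2
    exact ih.trans h2

theorem xbdd_zpow (N : Subgroup Q) (x : Q) (hW : Wp V N x) (p : V) (hp : 0 ≤ p) (k : ℤ) (j : ℕ)
    (hkj : k ≤ j) : el (x ^ k) • p ≤ el (x ^ j) • p := by
  have h1 := xbdd_pow N x hW (el (x ^ k) • p) (el_smul_nonneg _ hp) ((j : ℤ) - k).toNat
  have h2 : x ^ ((j : ℤ) - k).toNat * x ^ k = x ^ j := by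
    rw [← zpow_natCast, ← zpow_add, Int.toNat_of_nonneg (by omega), ← zpow_natCast]
    congr 1; ring
  rw [smul_smul, el_mul, h2] at h1
  exact h1

theorem xbdd (N : Subgroup Q) (hN : N.Normal) (x : Q) (hx : Cen N x) (hW : Wp V N x) (p : V) (hp : 0 < p)
    (hB : Bd (Q := Q) ((N ⊔ Subgroup.zpowers x : Subgroup Q) : Set Q) p) :
    ∀ v : V, ∃ j : ℕ, v ≤ el (x ^ j) • p := by
  have key : ∀ b : GA Q, Pos ((N ⊔ Subgroup.zpowers x : Subgroup Q) : Set Q) b →
      ∃ j : ℕ, b • p ≤ el (x ^ j) • p := by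
    intro b hb
    induction hb with
    | sing w c hw hc =>
      obtain ⟨n, hn, z, hz, rfl⟩ := (Subgroup.mem_sup_of_normal_left (hs := hN)).1 hw
      obtain ⟨k, rfl⟩ := Subgroup.mem_zpowers_iff.1 hz
      refine ⟨(k + 1).toNat, ?_⟩
      have h1 : sg n c • (el (x ^ k) • p) ≤ el x • (el (x ^ k) • p) :=
        hW _ (el_smul_nonneg _ hp.le) _ (Pos.sing n c hn hc)
      rw [smul_smul, smul_smul, sg_mul, el_mul, mul_one] at h1
      refine h1.trans ?_
      have h2 : x * x ^ k = x ^ (k + 1) := by rw [zpow_add, zpow_one, (Commute.self_zpow x k).eq]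
      rw [h2]
      exact xbdd_zpow N x hW p hp.le _ _ (Int.self_le_toNat _)
    | add a b _ _ iha ihb =>
      obtain ⟨i, hi⟩ := iha
      obtain ⟨j, hj⟩ := ihb
      refine ⟨max i j + 1, ?_⟩
      have hi' : el (x ^ i) • p ≤ el (x ^ (max i j)) • p := by
        have := xbdd_zpow N x hW p hp.le (i : ℤ) (max i j) (by exact_mod_cast le_max_left i j)
        rwa [zpow_natCast] at this
      have hj' : el (x ^ j) • p ≤ el (x ^ (max i j)) • p := by
        have := xbdd_zpow N x hW p hp.le (j : ℤ) (max i j) (by exact_mod_cast le_max_right i j)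
        rwa [zpow_natCast] at this
      have h3 := hW (el (x ^ (max i j)) • p) (el_smul_nonneg _ hp.le) (1 + 1)
        (Pos.add _ _ (pos_one N) (pos_one N))
      rw [add_smul, one_smul, smul_smul, el_mul, ← pow_succ'] at h3
      rw [add_smul]
      exact (add_le_add (hi.trans hi') (hj.trans hj')).trans h3
  intro v
  obtain ⟨s, hs, hv⟩ := hB v
  obtain ⟨j, hj⟩ := key s hs
  exact ⟨j, hv.trans hj⟩

end

end H294Ore
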