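import Pool.Agent.Helper294.Ore.M_dom
import Pool.Agent.Helper294.Ore.M_wp_of_none
import Pool.Agent.Helper294.Ore.M_descent
import Pool.Agent.Helper294.Ore.M_xbdd
import Pool.Agent.Helper294.Ore.M_exists_maxR
import Pool.Agent.Helper294.Ore.M_maxR_dich
import Pool.Agent.Helper294.Ore.M_maxR_growth
import Pool.Agent.Helper294.Ore.M_maxR_comm
import Pool.Agent.Helper294.Ore.M_maxR_wild
import Pool.Agent.Helper294.Ore.M_top_decomp
import Pool.Agent.Helper294.Ore.M_tame_inf
import Pool.Agent.Helper294.Ore.M_tame_scalar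
import Pool.Agent.Helper294.Ore.M_tame_all
import Pool.Agent.Helper294.Ore.M_tame_line
import Pool.Agent.Helper294.Ore.M_unip
import Pool.Agent.Helper294.Ore.M_setup
import Pool.Agent.Helper294.Ore.M_hilbert
import Pool.Agent.Helper294.Ore.M_noeth_list
import Pool.Agent.Helper294.Ore.M_noeth_sub
import Pool.Agent.Helper294.Ore.M_noeth_GA
import Pool.Agent.Helper294.Ore.M_cs_sub
import Pool.Agent.Helper294.Ore.M_cs_of_fg_nilpotent
import Pool.Agent.Helper294.Ore.M_ore_transfer
import Pool.Agent.Helper294.Ore.M_nat_ore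
import Pool.Agent.Helper294.Ore.M_approx
import Pool.Agent.Helper294.Ore.M_wild_total
import Pool.Agent.Helper294.Ore.M_wild_false
set_option autoImplicit false
set_option linter.all false

namespace H294Ore
open MonoidAlgebra

theorem cs_normal_main {Q : Type} [Group Q] {n : ℕ} (C : CS Q n) : ∀ i, i ≤ n → (C.c i).Normal := by
  intro i
  induction i with
  | zero => intro _; rw [C.c0]; infer_instance
  | succ i ih =>
    intro hi
    have hN := ih (by omega)
    have hc := C.cent i (by omega)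
    rw [C.step i (by omega)]
    constructor
    intro y hy g
    have key : ∀ y ∈ C.c i ⊔ Subgroup.zpowers (C.x i), g * y * g⁻¹ ∈ C.c i ⊔ Subgroup.zpowers (C.x i) := by
      intro y hy
      have : (C.c i ⊔ Subgroup.zpowers (C.x i)) ≤ (C.c i ⊔ Subgroup.zpowers (C.x i)).comap (MulAut.conj g).toMonoidHom := by
        rw [sup_le_iff]
        constructor
        · intro z hz
          simp only [Subgroup.mem_comap, MulEquiv.coe_toMonoidHom, MulAut.conj_apply]
          exact Subgroup.mem_sup_left (hN.conj_mem z hz g)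
        · rw [Subgroup.zpowers_le]
          simp only [Subgroup.mem_comap, MulEquiv.coe_toMonoidHom, MulAut.conj_apply]
          have h1 := hc g
          have h2 : g * C.x i * g⁻¹ = (C.x i * g * (C.x i)⁻¹ * g⁻¹)⁻¹ * C.x i := by group
          rw [h2]
          exact Subgroup.mul_mem _ (Subgroup.mem_sup_left ((C.c i).inv_mem h1)) (Subgroup.mem_sup_right (Subgroup.mem_zpowers _))
      have := this hy
      simpa only [Subgroup.mem_comap, MulEquiv.coe_toMonoidHom, MulAut.conj_apply] using this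
    exact key y hy

section
variable {Q V : Type} [Group Q] [AddCommGroup V] [PartialOrder V] [IsOrderedAddMonoid V] [Module (GA Q) V] [OM Q V]

theorem tame_or_W (hm : IsMax Q V) (hs : Simple' Q V) {n : ℕ} (C : CS Q n) (hp : ∃ p : V, 0 < p) :
    (∃ p : V, 0 < p ∧ Bd (Q := Q) ({1} : Set Q) p) ∨
    ∃ (N : Subgroup Q) (x : Q) (p : V), N.Normal ∧ Cen N x ∧ Wp V N x ∧ 0 < p ∧
      ∀ v : V, ∃ j : ℕ, v ≤ el (x ^ j) • p := by
  by_cases halt : ∃ (N : Subgroup Q) (x : Q) (p : V), N.Normal ∧ Cen N x ∧ Wp V N x ∧ 0 < p ∧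
      ∀ v : V, ∃ j : ℕ, v ≤ el (x ^ j) • p
  · exact Or.inr halt
  left
  have key : ∀ k : ℕ, k ≤ n → ∃ p : V, 0 < p ∧ Bd (Q := Q) ((C.c (n - k) : Subgroup Q) : Set Q) p := by
    intro k
    induction k with
    | zero =>
      intro _
      obtain ⟨p, hp⟩ := hp
      refine ⟨p, hp, ?_⟩
      rw [Nat.sub_zero, C.cn, Subgroup.coe_top]
      exact dom hs hp
    | succ k ih =>
      intro hk
      obtain ⟨p, hp, hB⟩ := ih (by omega)
      set i := n - (k + 1) with hi
      have hi1 : n - k = i + 1 := by omega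
      have hin : i < n := by omega
      rw [hi1, C.step i hin] at hB
      have hN := cs_normal_main C i (by omega)
      have hc := C.cent i hin
      have hc' : Cen (C.c i) (C.x i)⁻¹ := by
        intro w
        have h2 : (C.x i)⁻¹ * w * (C.x i)⁻¹⁻¹ * w⁻¹ = (C.x i)⁻¹ * ((C.x i * w * (C.x i)⁻¹ * w⁻¹)⁻¹) * (C.x i)⁻¹⁻¹ := by
          group
        rw [h2]
        exact hN.conj_mem _ ((C.c i).inv_mem (hc w)) _
      by_cases h1 : ∃ q : V, 0 < q ∧ ∃ s, Pos (C.c i : Set Q) s ∧ el (C.x i) • q ≤ s • q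
      · by_cases h2 : ∃ q : V, 0 < q ∧ ∃ s, Pos (C.c i : Set Q) s ∧ el (C.x i)⁻¹ • q ≤ s • q
        · exact descent (fun p hp => dom hs hp) (C.c i) hN (C.x i) hc p hp hB h1 h2
        · exfalso
          push Not at h2
          have hW : Wp V (C.c i) (C.x i)⁻¹ := wp_of_none hm _ hN _ hc' (fun q hq s hs => h2 q hq s hs)
          rw [← Subgroup.zpowers_inv] at hB
          exact halt ⟨_, _, p, hN, hc', hW, hp, xbdd _ hN _ hc' hW p hp hB⟩
      · exfalso
        push Not at h1
        have hW : Wp V (C.c i) (C.x i) := wp_of_none hm _ hN _ hc (fun q hq s hs => h1 q hq s hs)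
        exact halt ⟨_, _, p, hN, hc, hW, hp, xbdd _ hN _ hc hW p hp hB⟩
  obtain ⟨p, hp, hB⟩ := key n le_rfl
  refine ⟨p, hp, ?_⟩
  rw [Nat.sub_self, C.c0, Subgroup.coe_bot] at hB
  exact hB

end

theorem pos_single {Q : Type} [Group Q] {s : GA Q} (hs : Pos ({1} : Set Q) s) : ∃ c : ℝ, 0 < c ∧ s = sg 1 c := by
  induction hs with
  | sing w c hw hc => exact ⟨c, hc, by rw [Set.mem_singleton_iff.1 hw]⟩
  | add a b _ _ iha ihb =>
    obtain ⟨c, hc, rfl⟩ := iha
    obtain ⟨d, hd, rfl⟩ := ihb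
    exact ⟨c + d, add_pos hc hd, (MonoidAlgebra.single_add _ _ _).symm⟩

/-- `Pos` of the negative part is stable under left multiplication by `Pos R` -/
theorem neg_mul_aux {Q V : Type} [Group Q] [AddCommGroup V] [PartialOrder V] [IsOrderedAddMonoid V]
    [Module (GA Q) V] [OM Q V] (R : Subgroup Q) {s f1 : GA Q} (hs : Pos (R : Set Q) s)
    (hf : f1 = 0 ∨ Pos {δ : Q | Wp V R δ⁻¹} f1) : s * f1 = 0 ∨ Pos {δ : Q | Wp V R δ⁻¹} (s * f1) := by
  rcases hf with rfl | hf
  · left; exact mul_zero _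
  · right
    refine Pos.mul ?_ hs hf
    intro r hr δ hδ q hq t ht
    have hr' : r⁻¹ ∈ R := R.inv_mem hr
    have h1 : 0 ≤ el r⁻¹ • q := el_smul_nonneg _ hq
    have h2 : Pos (R : Set Q) (t * el r) := Pos.mulN ht (pos_el_of hr)
    have h3 := hδ (el r⁻¹ • q) h1 (t * el r) h2
    rw [smul_smul, smul_smul, mul_assoc, el_mul_inv, mul_one, el_mul] at h3
    rw [mul_inv_rev]
    exact h3

theorem wild_contra {Q V M : Type} [Group Q] [AddCommGroup V] [PartialOrder V] [IsOrderedAddMonoid V]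
    [Module (GA Q) V] [OM Q V] [AddCommGroup M] [Module (GA Q) M] (ι : V →ₗ[GA Q] M) (hι : Function.Injective ι)
    (hm : IsMax Q V) (hs : Simple' Q V) (R : Subgroup Q) (x : Q) (p : V) (hW : Wild V R x p) (hO : OreSub R)
    (hNoe : ∀ l : List Q, IsNoetherianRing (SubR (Submonoid.closure ((R : Set Q) ∪ {y | y ∈ l}))))
    (f g : GA Q) (hf : Pos Set.univ f) (hg : Pos Set.univ g) (m : M) (a b : V) (ha : 0 ≤ a) (hb : b ≤ 0)
    (hab : ¬ (a = 0 ∧ b = 0)) (hfm : f • m = ι a) (hgm : g • m = ι b) : False := by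
  have htop := top_decomp R x p hW
  have htot : ∀ v : V, 0 ≤ v ∨ v ≤ 0 := wild_total hm hs R x p hW htop hO
  obtain ⟨w, f0, f1, hf0, hf1, hfe⟩ := htop f hf
  obtain ⟨w', g0, g1, hg0, hg1, hge⟩ := htop g hg
  obtain ⟨s, t, hsp, htp, hst⟩ := hO f0 g0 hf0 hg0
  have hh : Pos (R : Set Q) (s * f0) := Pos.mulN hsp hf0
  have hsf := neg_mul_aux (V := V) R hsp hf1
  have htg := neg_mul_aux (V := V) R htp hg1
  have e1 : (s * f0 + s * f1) • m = ι ((s * el w) • a) := by
    rw [← mul_add, ← hfe, ← mul_assoc, mul_smul, hfm, map_smul]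
  have e2 : (s * f0 + t * g1) • m = ι ((t * el w') • b) := by
    rw [hst, ← mul_add, ← hge, ← mul_assoc, mul_smul, hgm, map_smul]
  have happ := fun (E : ℕ → Set Q) (D : Set Q) (hE1 : ∀ k, ∀ w ∈ E k, ∀ r ∈ R, r * w ∈ E k)
      (hED : ∀ k, ∀ w ∈ E k, ∀ d ∈ D, w * d ∈ E (k + 1)) (hD : D ⊆ E 1) =>
        fun (h f1 g1 : GA Q) (hh : Pos (R : Set Q) h) (hf : f1 = 0 ∨ Pos D f1) (hg : g1 = 0 ∨ Pos D g1)
        (k : ℕ) (hk : 1 ≤ k) => approx R hW.nor hO E D hE1 hED hD h hh f1 g1 hf hg k hk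
  have hsw : Pos Set.univ (s * el w) := Pos.mulU hsp.toU (pos_el w)
  have htw : Pos Set.univ (t * el w') := Pos.mulU htp.toU (pos_el w')
  rcases ha.lt_or_eq with ha' | ha'
  · have hb' : (t * el w') • b ≤ 0 := by
      have := smul_le' htw hb
      rwa [smul_zero] at this
    exact wild_false ι hι (fun p hp => dom hs hp) htot R x p hW hO happ hNoe _ _ _ hh hsf htg m _ _
      (smul_pos' hsw ha') hb' e1 e2
  · have hb0 : b < 0 := lt_of_le_of_ne hb (fun h => hab ⟨ha'.symm, h⟩)
    have hb1 : 0 < -((t * el w') • b) := by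
      rw [← smul_neg]; exact smul_pos' htw (neg_pos.2 hb0)
    refine wild_false ι hι (fun p hp => dom hs hp) htot R x p hW hO happ hNoe (s * f0) _ _ hh htg hsf (-m)
      (-((t * el w') • b)) (-((s * el w) • a)) hb1 ?_ ?_ ?_
    · rw [← ha', smul_zero, neg_zero]
    · rw [smul_neg, e2, map_neg]
    · rw [smul_neg, e1, map_neg]

/-- in the wild case `x` has infinite order modulo `R` -/
theorem wild_inf {Q V : Type} [Group Q] [AddCommGroup V] [PartialOrder V] [IsOrderedAddMonoid V]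
    [Module (GA Q) V] [OM Q V] (R : Subgroup Q) (x : Q) (p : V) (hW : Wild V R x p) (k : ℤ) (hk : x ^ k ∈ R) : k = 0 := by
  have hp := hW.pos
  have key : ∀ k : ℕ, x ^ (k + 1) ∈ R → False := by
    intro k hk
    have h1 : ∀ j : ℕ, el x • p ≤ el (x ^ (j + 1)) • p := by
      intro j
      induction j with
      | zero => simp
      | succ j ih =>
        have h2 : el (x ^ (j + 1)) • p ≤ el x • (el (x ^ (j + 1)) • p) := by
          have := hW.W (el (x ^ (j + 1)) • p) (el_smul_nonneg _ hp.le) 1 (pos_one R)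
          rwa [one_smul] at this
        rw [smul_smul, el_mul, ← pow_succ'] at h2
        exact ih.trans h2
    have h3 := hW.W p hp.le (el (x ^ (k + 1)) + el (x ^ (k + 1))) (Pos.add _ _ (pos_el_of hk) (pos_el_of hk))
    have h4 := h3.trans (h1 k)
    rw [add_smul] at h4
    have h5 : 0 < el (x ^ (k + 1)) • p := el_smul_pos _ hp
    have h6 : el (x ^ (k + 1)) • p ≤ 0 := by
      exact add_le_iff_nonpos_left.1 h4
    exact absurd h5 (not_lt_of_ge h6)
  rcases lt_trichotomy k 0 with h | h | h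
  · exfalso
    obtain ⟨j, hj⟩ : ∃ j : ℕ, -k = (j : ℤ) + 1 := ⟨(-k - 1).toNat, by omega⟩
    refine key j ?_
    have : x ^ (j + 1) = (x ^ k)⁻¹ := by
      rw [← zpow_neg, hj]; norm_cast
    rw [this]; exact R.inv_mem hk
  · exact h
  · exfalso
    obtain ⟨j, hj⟩ : ∃ j : ℕ, k = (j : ℤ) + 1 := ⟨(k - 1).toNat, by omega⟩
    refine key j ?_
    have : x ^ (j + 1) = x ^ k := by
      rw [hj]; norm_cast
    rw [this]; exact hk

theorem ore_real : ∀ (N : ℕ) (Q : Type) [Group Q] (n : ℕ) (C : CS Q n), C.h ≤ N →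
    ∀ f g : GA Q, Pos Set.univ f → Pos Set.univ g → ∃ s t : GA Q, Pos Set.univ s ∧ Pos Set.univ t ∧ s * f = t * g := by
  intro N
  induction N using Nat.strong_induction_on with
  | _ N ih =>
  intro Q _ n C hCN f g hf hg
  by_contra hno
  have hnl := noeth_list (Q := Q) (fun S T hST y hy h1 h2 hgen hS => hilbert S T hST y hy h1 h2 hgen hS)
  have hns := noeth_sub C hnl
  haveI : IsNoetherianRing (GA Q) := noeth_GA (hns ⊤)
  obtain ⟨M, V, i1, i2, i3, i4, i5, i6, i7, ι, m, a, b, hNoeM, hι, hess, hmax, hsimp, hfm, hgm, ha, hb, hab⟩ :=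
    setup f g hf hg hno
  have hd : ∀ p : V, 0 < p → Bd (Q := Q) (Set.univ : Set Q) p := fun p hp => dom hsimp hp
  have hpex : ∃ p : V, 0 < p := by
    rcases ha.lt_or_eq with h | h
    · exact ⟨a, h⟩
    · exact ⟨-b, neg_pos.2 (lt_of_le_of_ne hb (fun h' => hab ⟨h.symm, h'⟩))⟩
  rcases tame_or_W hmax hsimp C hpex with ⟨p, hp, hB⟩ | ⟨N', x, p, hN, hx, hW, hp, hbd⟩
  · -- tame case
    have hb1 : ∀ v : V, ∃ c : ℝ, 0 < c ∧ v ≤ sg (1 : Q) c • p := by
      intro v
      obtain ⟨s, hs, hv⟩ := hB v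
      obtain ⟨c, hc, rfl⟩ := pos_single hs
      exact ⟨c, hc, hv⟩
    have hinf := tame_inf hsimp p hp hb1
    have hsc := tame_scalar hmax hd p hp hb1 hinf
    have hall := tame_all C p hp hb1 hsc
    have hline := tame_line hmax p hp hb1 hinf hall
    choose χ hχ hact using hall
    have hmW : m ∈ LinearMap.range ι := by
      refine unip C hNoeM (LinearMap.range ι) (ι p) ?_ ⟨p, rfl⟩ ?_ χ hχ ?_ hess f hf m ?_
      · intro h0
        have : p = 0 := hι (by rw [h0, map_zero])
        exact hp.ne' this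
      · rintro v ⟨v', rfl⟩
        obtain ⟨c, hc⟩ := hline v'
        exact ⟨c, by rw [← map_smul, ← hc]⟩
      · intro w
        rw [← map_smul, hact w p, map_smul]
      · rw [hfm]; exact ⟨a, rfl⟩
    obtain ⟨v, rfl⟩ := hmW
    have hfa : f • v = a := hι (by rw [map_smul, hfm])
    have hgb : g • v = b := hι (by rw [map_smul, hgm])
    obtain ⟨c, rfl⟩ := hline v
    rcases lt_trichotomy c 0 with hc | hc | hc
    · have h1 : 0 < sg (1 : Q) (-c) • p := smul_pos' (Pos.sing (D := Set.univ) 1 (-c) (Set.mem_univ _) (neg_pos.2 hc)) hp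
      have h2 : sg (1 : Q) (-c) • p = -(sg (1 : Q) c • p) := by
        rw [← neg_smul]; congr 1; exact MonoidAlgebra.single_neg _ _
      rw [h2] at h1
      have h3 := smul_pos' hf h1
      rw [smul_neg, hfa] at h3
      exact absurd ha (not_le_of_gt (neg_pos.1 h3))
    · subst hc
      have h0 : sg (1 : Q) (0 : ℝ) • p = 0 := by
        rw [show sg (1 : Q) (0 : ℝ) = 0 from MonoidAlgebra.single_zero _, zero_smul]
      rw [h0, smul_zero] at hfa hgb
      exact hab ⟨hfa.symm, hgb.symm⟩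
    · have h1 : 0 < sg (1 : Q) c • p := smul_pos' (Pos.sing (D := Set.univ) 1 c (Set.mem_univ _) hc) hp
      have h3 := smul_pos' hg h1
      rw [hgb] at h3
      exact absurd hb (not_le_of_gt h3)
  · -- wild case
    obtain ⟨R, hR⟩ := exists_maxR N' hN x hx hW p hp hbd
    have hdich : ∀ w : Q, Cen R w → w ∉ R → Wp V R w ∨ Wp V R w⁻¹ :=
      maxR_dich hmax hd R x p hR (fun y hy h => wp_of_none hmax R hR.nor y hy h)
    have hgr := maxR_growth R x p hR hdich
    have hcomm := maxR_comm R x p hR C hgr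
    have hwild := maxR_wild R x p hR hdich hcomm
    obtain ⟨C', hC'⟩ := cs_sub C R hwild.nor x (fun k hk => wild_inf R x p hwild k hk)
    have hO : OreSub R := ore_transfer R (fun a b ha hb => ih C'.h (lt_of_lt_of_le hC' hCN) R n C' le_rfl a b ha hb)
    have hNoe : ∀ l : List Q, IsNoetherianRing (SubR (Submonoid.closure ((R : Set Q) ∪ {y | y ∈ l}))) := by
      intro l
      refine hnl R l ?_ ?_ (hns R)
      · intro y _ r hr
        refine ⟨hwild.nor.conj_mem r hr y, ?_⟩
        have := hwild.nor.conj_mem r hr y⁻¹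
        rwa [inv_inv] at this
      · intro y _ z _
        exact hwild.comm y z
    exact wild_contra ι hι hmax hsimp R x p hwild hO hNoe f g hf hg m a b ha hb hab hfm hgm

/-- Nonzero elements of the natural group semiring of a finitely generated nilpotent group satisfy the (left) Ore condition. -/
theorem ore_nat (Q : Type) [Group Q] [Group.IsNilpotent Q] [Group.FG Q] (f g : MonoidAlgebra ℕ Q) (hf : f ≠ 0) (hg : g ≠ 0) :
    ∃ s t : MonoidAlgebra ℕ Q, s ≠ 0 ∧ t ≠ 0 ∧ s * f = t * g := by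
  obtain ⟨n, ⟨C⟩⟩ := cs_of_fg_nilpotent Q
  exact nat_ore (fun a b ha hb => ore_real C.h Q n C le_rfl a b ha hb) f g hf hg

end H294Ore
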