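import Pool.Agent.Helper294.Ore.Core
set_option autoImplicit false
set_option linter.all false

namespace H294Ore
open MonoidAlgebra


section
variable {Q V : Type} [Group Q] [AddCommGroup V] [PartialOrder V] [IsOrderedAddMonoid V] [Module (GA Q) V] [OM Q V]


theorem dom (hs : Simple' Q V) {p : V} (hp : 0 < p) : Bd (Q := Q) (Set.univ : Set Q) p := by
  have hone : Pos (Set.univ : Set Q) (1 : GA Q) := by rw [← el_one]; exact pos_el 1
  have hsg : ∀ (w : Q) (c : ℝ), 0 < c → ∀ v : V, (∃ s : GA Q, Pos Set.univ s ∧ v ≤ s • p ∧ -v ≤ s • p) →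
      ∃ s : GA Q, Pos Set.univ s ∧ sg w c • v ≤ s • p ∧ -(sg w c • v) ≤ s • p := by
    rintro w c hc v ⟨s, hs1, h1, h2⟩
    have hP : Pos (Set.univ : Set Q) (sg w c) := Pos.sing w c (Set.mem_univ _) hc
    refine ⟨sg w c * s, hP.mulU hs1, ?_, ?_⟩
    · rw [mul_smul]; exact smul_le' hP h1
    · rw [mul_smul, ← smul_neg]; exact smul_le' hP h2
  have hneg : ∀ v : V, (∃ s : GA Q, Pos Set.univ s ∧ v ≤ s • p ∧ -v ≤ s • p) →
      ∃ s : GA Q, Pos Set.univ s ∧ -v ≤ s • p ∧ -(-v) ≤ s • p := by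
    rintro v ⟨s, hs1, h1, h2⟩
    exact ⟨s, hs1, h2, by rwa [neg_neg]⟩
  have hzero : ∃ s : GA Q, Pos Set.univ s ∧ (0 : V) ≤ s • p ∧ -(0 : V) ≤ s • p :=
    ⟨1, hone, by rw [one_smul]; exact hp.le, by rw [one_smul, neg_zero]; exact hp.le⟩
  have hadd : ∀ u v : V, (∃ s : GA Q, Pos Set.univ s ∧ u ≤ s • p ∧ -u ≤ s • p) →
      (∃ s : GA Q, Pos Set.univ s ∧ v ≤ s • p ∧ -v ≤ s • p) →
      ∃ s : GA Q, Pos Set.univ s ∧ u + v ≤ s • p ∧ -(u + v) ≤ s • p := by
    rintro u v ⟨s, hs1, h1, h2⟩ ⟨t, ht1, h3, h4⟩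
    refine ⟨s + t, Pos.add _ _ hs1 ht1, ?_, ?_⟩
    · rw [add_smul]; exact add_le_add h1 h3
    · rw [add_smul, neg_add]; exact add_le_add h2 h4
  let H : Submodule (GA Q) V :=
    { carrier := {v | ∃ s : GA Q, Pos Set.univ s ∧ v ≤ s • p ∧ -v ≤ s • p}
      add_mem' := fun {a b} ha hb => hadd a b ha hb
      zero_mem' := hzero
      smul_mem' := by
        intro a v hv
        induction a using MonoidAlgebra.induction_linear with
        | zero => rw [zero_smul]; exact hzero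
        | add x y hx hy => rw [add_smul]; exact hadd _ _ hx hy
        | single w r =>
          rcases lt_trichotomy r 0 with hr | hr | hr
          · have h1 := hneg _ (hsg w (-r) (neg_pos.2 hr) v hv)
            have h2 : -(sg w (-r) • v) = (MonoidAlgebra.single w r : GA Q) • v := by
              rw [← neg_smul]; congr 1
              rw [show (sg w (-r) : GA Q) = MonoidAlgebra.single w (-r) from rfl]
              simp
            rw [h2] at h1; exact h1
          · subst hr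
            rw [MonoidAlgebra.single_zero, zero_smul]; exact hzero
          · exact hsg w r hr v hv }
  have hH : ∀ v : V, v ∈ H ↔ ∃ s : GA Q, Pos Set.univ s ∧ v ≤ s • p ∧ -v ≤ s • p := fun v => Iff.rfl
  have hher : ∀ a b : V, 0 ≤ a → 0 ≤ b → a + b ∈ H → a ∈ H := by
    intro a b ha hb hab
    obtain ⟨s, hs1, h1, h2⟩ := (hH _).1 hab
    refine (hH _).2 ⟨s, hs1, (le_add_of_nonneg_right hb).trans h1, ?_⟩
    exact (neg_nonpos.2 ha).trans ((add_nonneg ha hb).trans h1)
  rcases hs H hher with h | h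
  · exfalso
    have hpH : p ∈ H := (hH _).2 ⟨1, hone, by rw [one_smul], by rw [one_smul]; exact (neg_nonpos.2 hp.le).trans hp.le⟩
    rw [h] at hpH
    exact hp.ne' ((Submodule.mem_bot _).1 hpH)
  · intro v
    have hv : v ∈ H := by rw [h]; trivial
    obtain ⟨s, hs1, h1, h2⟩ := (hH _).1 hv
    exact ⟨s, hs1, h1⟩

end

end H294Ore
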