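import Pool.Agent.Helper294.Ore.Core
set_option autoImplicit false
set_option linter.all false

namespace H294Ore
open MonoidAlgebra



theorem no_sum_pos {Q : Type} [Group Q] (S : Finset Q) (c : Q → ℝ) (hS : S.Nonempty)
    (hc : ∀ w ∈ S, 0 < c w) : Pos Set.univ (∑ w ∈ S, sg w (c w)) := by
  classical
  induction hS using Finset.Nonempty.cons_induction with
  | singleton a =>
    rw [Finset.sum_singleton]
    exact Pos.sing _ _ (Set.mem_univ _) (hc a (Finset.mem_singleton_self a))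
  | cons a s ha hs ih =>
    rw [Finset.sum_cons]
    exact Pos.add _ _ (Pos.sing _ _ (Set.mem_univ _) (hc a (Finset.mem_cons_self a s)))
      (ih fun w hw => hc w (Finset.mem_cons_of_mem hw))

theorem no_eq_sum {Q : Type} [Group Q] (a : GA Q) :
    a = ∑ w ∈ a.coeff.support, sg w (a.coeff w) := by
  apply MonoidAlgebra.coeff_injective
  rw [MonoidAlgebra.coeff_sum]
  exact (Finsupp.sum_single a.coeff).symm

theorem no_pos {Q : Type} [Group Q] (a : GA Q) (ha : a ≠ 0) (h0 : ∀ w, 0 ≤ a.coeff w) :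
    Pos Set.univ a := by
  rw [no_eq_sum a]
  apply no_sum_pos
  · rw [Finsupp.support_nonempty_iff]
    intro h
    exact ha (MonoidAlgebra.coeff_eq_zero.mp h)
  · intro w hw
    exact lt_of_le_of_ne (h0 w) (Ne.symm (Finsupp.mem_support_iff.mp hw))

theorem no_coeff_nonneg {Q : Type} [Group Q] {D : Set Q} {a : GA Q} (ha : Pos D a) (w : Q) :
    0 ≤ a.coeff w := by
  classical
  induction ha with
  | sing w' c _ hc =>
    rw [show (sg w' c).coeff = Finsupp.single w' c from rfl, Finsupp.single_apply]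
    split_ifs
    · exact hc.le
    · exact le_rfl
  | add a b _ _ iha ihb =>
    rw [MonoidAlgebra.coeff_add, Finsupp.add_apply]
    exact add_nonneg iha ihb

/-- a rational functional positive on finitely many positive reals -/
theorem no_psi (T : Finset ℝ) (hT : ∀ x ∈ T, 0 < x) :
    ∃ ψ : ℝ →ₗ[ℚ] ℚ, ∀ x ∈ T, 0 < ψ x := by
  classical
  set W : Submodule ℚ ℝ := Submodule.span ℚ (T : Set ℝ) with hW
  have : FiniteDimensional ℚ W := FiniteDimensional.span_finset ℚ T
  let b := Module.finBasis ℚ W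
  let x' : T → W := fun x => ⟨x.1, Submodule.subset_span x.2⟩
  let e : Fin (Module.finrank ℚ W) → ℝ := fun j => ((b j : W) : ℝ)
  let U : Set (Fin (Module.finrank ℚ W) → ℝ) :=
    ⋂ x : T, {v | 0 < ∑ j, ((b.repr (x' x) j : ℚ) : ℝ) * v j}
  have hU : IsOpen U := by
    apply isOpen_iInter_of_finite
    intro x
    apply isOpen_lt continuous_const
    fun_prop
  have he : e ∈ U := by
    rw [Set.mem_iInter]
    intro x
    show 0 < ∑ j, ((b.repr (x' x) j : ℚ) : ℝ) * e j
    have h1 : ∑ j, b.repr (x' x) j • b j = x' x := b.sum_repr (x' x)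
    have h2 : ((∑ j, b.repr (x' x) j • b j : W) : ℝ) = x.1 := by rw [h1]
    rw [Submodule.coe_sum] at h2
    have h3 : ∑ j, ((b.repr (x' x) j : ℚ) : ℝ) * e j = x.1 := by
      rw [← h2]
      apply Finset.sum_congr rfl
      intro j _
      rw [Submodule.coe_smul, Rat.smul_def]
    rw [h3]
    exact hT _ x.2
  have hd : DenseRange (Pi.map fun (_ : Fin (Module.finrank ℚ W)) => ((↑) : ℚ → ℝ)) :=
    DenseRange.piMap fun _ => Rat.denseRange_cast
  obtain ⟨q, hq⟩ := hd.exists_mem_open hU ⟨e, he⟩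
  obtain ⟨ψ, hψ⟩ := LinearMap.exists_extend (b.constr ℚ q)
  refine ⟨ψ, ?_⟩
  intro x hx
  have h1 : ψ x = b.constr ℚ q (x' ⟨x, hx⟩) := by
    rw [← hψ]; rfl
  rw [h1, Module.Basis.constr_apply_fintype]
  have h2 := Set.mem_iInter.mp hq ⟨x, hx⟩
  have h3 : (0:ℝ) < ((∑ j, b.repr (x' ⟨x, hx⟩) j * q j : ℚ) : ℝ) := by
    push_cast
    exact h2
  have h4 : (0:ℚ) < ∑ j, b.repr (x' ⟨x, hx⟩) j * q j := by exact_mod_cast h3
  simpa using h4

theorem no_map_mul {Q : Type} [Group Q] (ψ : ℝ →ₗ[ℚ] ℚ) (a : GA Q) (f : MonoidAlgebra ℕ Q) :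
    MonoidAlgebra.map (ψ : ℝ →+ ℚ) (a * MonoidAlgebra.mapRingHom Q (Nat.castRingHom ℝ) f) =
      MonoidAlgebra.map (ψ : ℝ →+ ℚ) a * MonoidAlgebra.mapRingHom Q (Nat.castRingHom ℚ) f := by
  induction f using MonoidAlgebra.induction_linear with
  | zero => simp
  | add x y hx hy => rw [map_add, map_add, mul_add, mul_add, MonoidAlgebra.map_add, hx, hy]
  | single m r =>
    induction a using MonoidAlgebra.induction_linear with
    | zero => simp
    | add x y hx hy => rw [MonoidAlgebra.map_add, add_mul, add_mul, MonoidAlgebra.map_add, hx, hy]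
    | single m' r' =>
      rw [MonoidAlgebra.mapRingHom_single, MonoidAlgebra.mapRingHom_single,
        MonoidAlgebra.single_mul_single, MonoidAlgebra.map_single, MonoidAlgebra.map_single,
        MonoidAlgebra.single_mul_single]
      congr 1
      have h1 : r' * (Nat.castRingHom ℝ) r = (r : ℚ) • r' := by
        rw [Rat.smul_def]; simp [mul_comm]
      rw [h1]
      show ψ ((r : ℚ) • r') = ψ r' * (Nat.castRingHom ℚ) r
      rw [map_smul, smul_eq_mul, mul_comm]
      rfl

theorem no_den (q : ℚ) (hq : 0 ≤ q) (N : ℕ) (hN : q.den ∣ N) :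
    (((q * N).num.toNat : ℕ) : ℚ) = q * N := by
  obtain ⟨k, hk⟩ := hN
  have h1 : q * N = ((q.num * k : ℤ) : ℚ) := by
    rw [hk]
    push_cast
    rw [← mul_assoc, Rat.mul_den_eq_num]
  have h2 : (0:ℤ) ≤ q.num * k := by
    have := Rat.num_nonneg.mpr hq
    positivity
  rw [h1, Rat.num_intCast]
  exact_mod_cast Int.toNat_of_nonneg h2

/-- clearing denominators -/
theorem no_clear {Q : Type} [Group Q] (a : MonoidAlgebra ℚ Q) (ha : ∀ w, 0 ≤ a.coeff w) (N : ℕ)
    (hN : ∀ w, (a.coeff w).den ∣ N) :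
    ∃ a' : MonoidAlgebra ℕ Q, MonoidAlgebra.mapRingHom Q (Nat.castRingHom ℚ) a' = (N : ℚ) • a := by
  refine ⟨MonoidAlgebra.ofCoeff (a.coeff.mapRange (fun q : ℚ => (q * N).num.toNat) (by simp)), ?_⟩
  apply MonoidAlgebra.coeff_injective
  ext w
  rw [MonoidAlgebra.coeff_mapRingHom, MonoidAlgebra.coeff_ofCoeff, Finsupp.mapRange_apply]
  show (((a.coeff w * N).num.toNat : ℕ) : ℚ) = _
  rw [no_den _ (ha w) N (hN w)]
  rw [MonoidAlgebra.coeff_smul, Finsupp.smul_apply, smul_eq_mul, mul_comm]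

theorem no_denprod {Q : Type} [Group Q] (a : MonoidAlgebra ℚ Q) (w : Q) :
    (a.coeff w).den ∣ ∏ w ∈ a.coeff.support, (a.coeff w).den := by
  by_cases h : w ∈ a.coeff.support
  · exact Finset.dvd_prod_of_mem (fun w => (a.coeff w).den) h
  · rw [Finsupp.notMem_support_iff.mp h]
    simp

theorem nat_ore {Q : Type} [Group Q]
    (H : ∀ a b : GA Q, Pos Set.univ a → Pos Set.univ b → ∃ s t : GA Q, Pos Set.univ s ∧ Pos Set.univ t ∧ s * a = t * b)
    (f g : MonoidAlgebra ℕ Q) (hf : f ≠ 0) (hg : g ≠ 0) :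
    ∃ s t : MonoidAlgebra ℕ Q, s ≠ 0 ∧ t ≠ 0 ∧ s * f = t * g := by
  classical
  have hinjR : Function.Injective (MonoidAlgebra.mapRingHom Q (Nat.castRingHom ℝ)) := by
    rw [MonoidAlgebra.coe_mapRingHom]
    exact MonoidAlgebra.map_injective _ (fun a b h => by simpa using h)
  have hinjQ : Function.Injective (MonoidAlgebra.mapRingHom Q (Nat.castRingHom ℚ)) := by
    rw [MonoidAlgebra.coe_mapRingHom]
    exact MonoidAlgebra.map_injective _ (fun a b h => by simpa using h)
  have hP : ∀ f : MonoidAlgebra ℕ Q, f ≠ 0 →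
      Pos Set.univ (MonoidAlgebra.mapRingHom Q (Nat.castRingHom ℝ) f) := by
    intro f hf
    apply no_pos
    · intro h
      exact hf (hinjR (by rw [h, map_zero]))
    · intro w
      rw [MonoidAlgebra.coeff_mapRingHom]
      exact Nat.cast_nonneg _
  obtain ⟨s, t, hs, ht, hst⟩ := H _ _ (hP f hf) (hP g hg)
  obtain ⟨ψ, hψ⟩ := no_psi (s.coeff.support.image s.coeff ∪ t.coeff.support.image t.coeff) (by
    intro x hx
    rcases Finset.mem_union.mp hx with h | h
    · obtain ⟨w, hw, rfl⟩ := Finset.mem_image.mp h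
      exact lt_of_le_of_ne (no_coeff_nonneg hs w) (Ne.symm (Finsupp.mem_support_iff.mp hw))
    · obtain ⟨w, hw, rfl⟩ := Finset.mem_image.mp h
      exact lt_of_le_of_ne (no_coeff_nonneg ht w) (Ne.symm (Finsupp.mem_support_iff.mp hw)))
  have key : ∀ a : GA Q, Pos Set.univ a → (∀ w ∈ a.coeff.support, 0 < ψ (a.coeff w)) →
      (∀ w, 0 ≤ (MonoidAlgebra.map (ψ : ℝ →+ ℚ) a).coeff w) ∧
      MonoidAlgebra.map (ψ : ℝ →+ ℚ) a ≠ 0 := by
    intro a ha hpos
    have hco : ∀ w, (MonoidAlgebra.map (ψ : ℝ →+ ℚ) a).coeff w = ψ (a.coeff w) := fun w => by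
      rw [MonoidAlgebra.coeff_map, Finsupp.mapRange_apply]; rfl
    constructor
    · intro w
      rw [hco]
      by_cases h : w ∈ a.coeff.support
      · exact (hpos w h).le
      · rw [Finsupp.notMem_support_iff.mp h, map_zero]
    · intro h
      have hne : a.coeff.support.Nonempty := by
        rw [Finsupp.support_nonempty_iff]
        intro h'
        exact ha.ne_zero (MonoidAlgebra.coeff_eq_zero.mp h')
      obtain ⟨w, hw⟩ := hne
      have h1 := hpos w hw
      rw [← hco, h] at h1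
      simp at h1
  obtain ⟨s1, s2⟩ := key s hs (fun w hw => hψ _ (Finset.mem_union_left _
    (Finset.mem_image_of_mem _ hw)))
  obtain ⟨t1, t2⟩ := key t ht (fun w hw => hψ _ (Finset.mem_union_right _
    (Finset.mem_image_of_mem _ hw)))
  set s' := MonoidAlgebra.map (ψ : ℝ →+ ℚ) s with hs'
  set t' := MonoidAlgebra.map (ψ : ℝ →+ ℚ) t with ht'
  have heq : s' * MonoidAlgebra.mapRingHom Q (Nat.castRingHom ℚ) f =
      t' * MonoidAlgebra.mapRingHom Q (Nat.castRingHom ℚ) g := by
    rw [hs', ht', ← no_map_mul, ← no_map_mul, hst]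
  set N : ℕ := (∏ w ∈ s'.coeff.support, (s'.coeff w).den) *
    ∏ w ∈ t'.coeff.support, (t'.coeff w).den with hN
  have hN0 : (N : ℚ) ≠ 0 := by
    rw [hN]
    norm_cast
    apply mul_ne_zero
    · exact Finset.prod_ne_zero_iff.mpr fun w _ => (Rat.den_pos _).ne'
    · exact Finset.prod_ne_zero_iff.mpr fun w _ => (Rat.den_pos _).ne'
  obtain ⟨a, ha⟩ := no_clear s' s1 N (fun w => (no_denprod s' w).mul_right _)
  obtain ⟨b, hb⟩ := no_clear t' t1 N (fun w => (no_denprod t' w).mul_left _)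
  refine ⟨a, b, ?_, ?_, ?_⟩
  · rintro rfl
    rw [map_zero] at ha
    exact s2 ((smul_eq_zero.mp ha.symm).resolve_left hN0)
  · rintro rfl
    rw [map_zero] at hb
    exact t2 ((smul_eq_zero.mp hb.symm).resolve_left hN0)
  · apply hinjQ
    rw [map_mul, map_mul, ha, hb, smul_mul_assoc, smul_mul_assoc, heq]

end H294Ore
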