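import Pool.Agent.Helper294.Ore.Core
set_option autoImplicit false
set_option linter.all false

namespace H294Ore
open MonoidAlgebra


section
variable {Q V : Type} [Group Q] [AddCommGroup V] [PartialOrder V] [IsOrderedAddMonoid V] [Module (GA Q) V] [OM Q V]



/-- real scalars -/
theorem S_add (a b : ℝ) (v : V) : sg (1 : Q) (a + b) • v = sg (1 : Q) a • v + sg (1 : Q) b • v := by
  rw [← add_smul]; congr 1; exact MonoidAlgebra.single_add _ _ _

theorem S_mul (a b : ℝ) (v : V) : sg (1 : Q) a • sg (1 : Q) b • v = sg (1 : Q) (a * b) • v := by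
  rw [smul_smul, sg_mul, one_mul]

theorem S_one (v : V) : sg (1 : Q) 1 • v = v := by
  rw [show (sg (1:Q) (1:ℝ)) = 1 from el_one, one_smul]

theorem S_zero (v : V) : sg (1 : Q) 0 • v = 0 := by
  have := S_add (Q := Q) 0 0 v
  rw [add_zero] at this
  simpa using this

theorem S_comm (c : ℝ) (x : GA Q) (v : V) : sg (1 : Q) c • x • v = x • sg (1 : Q) c • v := by
  rw [smul_smul, smul_smul, sg_one_comm]

theorem S_le {c : ℝ} (hc : 0 < c) {a b : V} (h : a ≤ b) : sg (1 : Q) c • a ≤ sg (1 : Q) c • b :=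
  smul_le' (D := Set.univ) (Pos.sing 1 c (Set.mem_univ _) hc) h

theorem S_mono {a b : ℝ} (h : a ≤ b) {q : V} (hq : 0 ≤ q) : sg (1 : Q) a • q ≤ sg (1 : Q) b • q := by
  rcases eq_or_lt_of_le h with h | h
  · rw [h]
  · have h1 : sg (1 : Q) b • q = sg (1 : Q) a • q + sg (1 : Q) (b - a) • q := by
      rw [← S_add]; congr 2; ring
    rw [h1]
    exact le_add_of_nonneg_right (OM.mono _ _ _ (sub_pos.2 h) hq)

theorem S_contra {c : ℝ} (hc : c < 1) {q : V} (hq : 0 < q) (h : q ≤ sg (1 : Q) c • q) : False := by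
  have h1 : q = sg (1 : Q) c • q + sg (1 : Q) (1 - c) • q := by
    rw [← S_add]; conv_lhs => rw [← S_one (Q := Q) q]
    congr 2; ring
  have h2 : 0 < sg (1 : Q) (1 - c) • q :=
    smul_pos' (D := Set.univ) (Pos.sing 1 _ (Set.mem_univ _) (sub_pos.2 hc)) hq
  have h3 : sg (1 : Q) c • q < q := by
    conv_rhs => rw [h1]
    exact lt_add_of_pos_right _ h2
  exact absurd h (not_le_of_gt h3)

theorem z_comm_sg (z : Q) (hz : ∀ (u : Q) (v : V), el (z * u) • v = el (u * z) • v) (w : Q) (c : ℝ) (v : V) :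
    el z • sg w c • v = sg w c • el z • v := by
  have e1 : el z * sg w c = sg 1 c * el (z * w) := by rw [sg_mul, sg_mul, one_mul, one_mul, mul_one]
  have e2 : sg w c * el z = sg 1 c * el (w * z) := by rw [sg_mul, sg_mul, one_mul]
  rw [smul_smul, smul_smul, e1, e2, mul_smul, mul_smul, hz]

theorem z_comm_pos (z : Q) (hz : ∀ (u : Q) (v : V), el (z * u) • v = el (u * z) • v) {D : Set Q} {s : GA Q}
    (hs : Pos D s) (v : V) : el z • s • v = s • el z • v := by
  induction hs with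
  | sing w c hw hc => exact z_comm_sg z hz w c v
  | add a b _ _ iha ihb => rw [add_smul, smul_add, iha, ihb, add_smul]

theorem stepA (hm : IsMax Q V) (z : Q) (hz : ∀ (u : Q) (v : V), el (z * u) • v = el (u * z) • v)
    (l : ℝ) (hl : 0 < l) (hno : ¬ ∃ q : V, 0 < q ∧ el z • q ≤ sg (1 : Q) l • q) :
    ∀ q : V, 0 ≤ q → sg (1 : Q) l • q ≤ el z • q := by
  have key := hm {v | ∃ q : V, 0 ≤ q ∧ el z • q - sg (1 : Q) l • q ≤ v} ?_ ?_ ?_ ?_
  · intro q hq
    exact sub_nonneg.1 (key _ ⟨q, hq, le_rfl⟩)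
  · rintro a ⟨q, hq, h⟩ b ⟨q', hq', h'⟩
    refine ⟨q + q', add_nonneg hq hq', ?_⟩
    rw [smul_add, smul_add]
    have := add_le_add h h'
    calc _ = (el z • q - sg (1 : Q) l • q) + (el z • q' - sg (1 : Q) l • q') := by abel
      _ ≤ _ := this
  · rintro a ⟨q, hq, h⟩ w c hc
    refine ⟨sg w c • q, OM.mono w c q hc hq, ?_⟩
    rw [z_comm_sg z hz, S_comm, ← smul_sub]
    exact smul_le' (D := Set.univ) (Pos.sing w c (Set.mem_univ _) hc) h
  · rintro a ⟨q, hq, h⟩ ⟨q', hq', h'⟩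
    have h1 : el z • (q + q') ≤ sg (1 : Q) l • (q + q') := by
      have := add_le_add h h'
      rw [add_neg_cancel] at this
      rw [← sub_nonpos, smul_add, smul_add]
      calc _ = (el z • q - sg (1 : Q) l • q) + (el z • q' - sg (1 : Q) l • q') := by abel
        _ ≤ _ := this
    have h2 : q + q' = 0 := by
      by_contra hne
      exact hno ⟨q + q', lt_of_le_of_ne (add_nonneg hq hq') (Ne.symm hne), h1⟩
    have h3 : q = 0 := le_antisymm (by rw [← h2]; exact le_add_of_nonneg_right hq') hq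
    have h4 : q' = 0 := by rw [h3, zero_add] at h2; exact h2
    rw [h3, smul_zero, smul_zero, sub_zero] at h
    rw [h4, smul_zero, smul_zero, sub_zero] at h'
    exact le_antisymm (neg_nonneg.1 h') h
  · intro v hv
    exact ⟨0, le_rfl, by rw [smul_zero, smul_zero, sub_zero]; exact hv⟩

theorem stepB (hm : IsMax Q V) (z : Q) (hz : ∀ (u : Q) (v : V), el (z * u) • v = el (u * z) • v)
    (l : ℝ) (hl : 0 < l) (hno : ¬ ∃ q : V, 0 < q ∧ sg (1 : Q) l • q ≤ el z • q) :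
    ∀ q : V, 0 ≤ q → el z • q ≤ sg (1 : Q) l • q := by
  have key := hm {v | ∃ q : V, 0 ≤ q ∧ sg (1 : Q) l • q - el z • q ≤ v} ?_ ?_ ?_ ?_
  · intro q hq
    exact sub_nonneg.1 (key _ ⟨q, hq, le_rfl⟩)
  · rintro a ⟨q, hq, h⟩ b ⟨q', hq', h'⟩
    refine ⟨q + q', add_nonneg hq hq', ?_⟩
    rw [smul_add, smul_add]
    have := add_le_add h h'
    calc _ = (sg (1 : Q) l • q - el z • q) + (sg (1 : Q) l • q' - el z • q') := by abel
      _ ≤ _ := this
  · rintro a ⟨q, hq, h⟩ w c hc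
    refine ⟨sg w c • q, OM.mono w c q hc hq, ?_⟩
    rw [z_comm_sg z hz, S_comm, ← smul_sub]
    exact smul_le' (D := Set.univ) (Pos.sing w c (Set.mem_univ _) hc) h
  · rintro a ⟨q, hq, h⟩ ⟨q', hq', h'⟩
    have h1 : sg (1 : Q) l • (q + q') ≤ el z • (q + q') := by
      have := add_le_add h h'
      rw [add_neg_cancel] at this
      rw [← sub_nonpos, smul_add, smul_add]
      calc _ = (sg (1 : Q) l • q - el z • q) + (sg (1 : Q) l • q' - el z • q') := by abel
        _ ≤ _ := this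
    have h2 : q + q' = 0 := by
      by_contra hne
      exact hno ⟨q + q', lt_of_le_of_ne (add_nonneg hq hq') (Ne.symm hne), h1⟩
    have h3 : q = 0 := le_antisymm (by rw [← h2]; exact le_add_of_nonneg_right hq') hq
    have h4 : q' = 0 := by rw [h3, zero_add] at h2; exact h2
    rw [h3, smul_zero, smul_zero, sub_zero] at h
    rw [h4, smul_zero, smul_zero, sub_zero] at h'
    exact le_antisymm (neg_nonneg.1 h') h
  · intro v hv
    exact ⟨0, le_rfl, by rw [smul_zero, smul_zero, sub_zero]; exact hv⟩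

theorem tame_scalar (hm : IsMax Q V) (hd : ∀ p : V, 0 < p → Bd (Q := Q) (Set.univ : Set Q) p) (p : V) (hp : 0 < p)
    (hb : ∀ v : V, ∃ c : ℝ, 0 < c ∧ v ≤ sg (1 : Q) c • p)
    (hinf : ∀ v : V, (∀ ε : ℝ, 0 < ε → v ≤ sg (1 : Q) ε • p ∧ -v ≤ sg (1 : Q) ε • p) → v = 0)
    (z : Q) (hz : ∀ (u : Q) (v : V), el (z * u) • v = el (u * z) • v) :
    ∃ l : ℝ, 0 < l ∧ ∀ v : V, el z • v = sg (1 : Q) l • v := by
  obtain ⟨K, hK, hKp⟩ := hb (el z • p)
  obtain ⟨K', hK', hKp'⟩ := hb (el z⁻¹ • p)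
  -- p ≤ K' z p
  have hpK : p ≤ sg (1 : Q) K' • el z • p := by
    have h1 := el_smul_le (V := V) z hKp'
    rw [smul_smul, el_mul_inv, one_smul] at h1
    rw [S_comm]; exact h1
  -- enlarging
  have enl : ∀ q : V, 0 < q → ∃ a : GA Q, Pos (Set.univ : Set Q) a ∧ p ≤ a • q ∧
      ∃ K1 : ℝ, 0 < K1 ∧ a • q ≤ sg (1 : Q) K1 • p := by
    intro q hq
    obtain ⟨a, ha, hpa⟩ := hd q hq p
    obtain ⟨K1, hK1, h1⟩ := hb (a • q)
    exact ⟨a, ha, hpa, K1, hK1, h1⟩
  set Λ : Set ℝ := {l | 0 < l ∧ ∃ q : V, 0 < q ∧ el z • q ≤ sg (1 : Q) l • q} with hΛ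
  have hKΛ : K ∈ Λ := ⟨hK, p, hp, hKp⟩
  -- members of Λ, normalised
  have norm : ∀ l ∈ Λ, 0 < l ∧ ∃ q : V, p ≤ q ∧ el z • q ≤ sg (1 : Q) l • q ∧
      ∃ K1 : ℝ, 0 < K1 ∧ q ≤ sg (1 : Q) K1 • p := by
    rintro l ⟨hl, q, hq, h⟩
    obtain ⟨a, ha, hpa, K1, hK1, h1⟩ := enl q hq
    refine ⟨hl, a • q, hpa, ?_, K1, hK1, h1⟩
    rw [z_comm_pos z hz ha, S_comm]
    exact smul_le' ha h
  have hlow : ∀ l ∈ Λ, 1 / K' ≤ l := by
    intro l hl
    obtain ⟨hl0, q, hpq, hzq, K1, hK1, hqK⟩ := norm l hl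
    by_contra hcon
    push Not at hcon
    have hr : K' * l < 1 := by
      rw [lt_div_iff₀ hK'] at hcon; linarith
    have hr0 : 0 < K' * l := mul_pos hK' hl0
    have iter : ∀ n : ℕ, p ≤ sg (1 : Q) ((K' * l) ^ n) • q := by
      intro n
      induction n with
      | zero => rw [pow_zero, S_one]; exact hpq
      | succ n ih =>
        have hc : 0 < (K' * l) ^ n := pow_pos hr0 n
        calc p ≤ sg (1 : Q) K' • el z • p := hpK
          _ ≤ sg (1 : Q) K' • el z • (sg (1 : Q) ((K' * l) ^ n) • q) :=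
              S_le hK' (el_smul_le z ih)
          _ = sg (1 : Q) (K' * (K' * l) ^ n) • (el z • q) := by
              rw [← S_comm, S_mul]
          _ ≤ sg (1 : Q) (K' * (K' * l) ^ n) • (sg (1 : Q) l • q) :=
              S_le (mul_pos hK' hc) hzq
          _ = sg (1 : Q) ((K' * l) ^ (n + 1)) • q := by
              rw [S_mul]; congr 2; ring
    obtain ⟨n, hn⟩ := exists_pow_lt_of_lt_one (show (0:ℝ) < 1 / K1 by positivity) hr
    have h1 : p ≤ sg (1 : Q) ((K' * l) ^ n * K1) • p := by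
      calc p ≤ sg (1 : Q) ((K' * l) ^ n) • q := iter n
        _ ≤ sg (1 : Q) ((K' * l) ^ n) • (sg (1 : Q) K1 • p) := S_le (pow_pos hr0 n) hqK
        _ = _ := by rw [S_mul]
    refine S_contra ?_ hp h1
    rw [lt_div_iff₀ hK1] at hn; exact hn
  set l : ℝ := sInf Λ with hldef
  have hbdd : BddBelow Λ := ⟨1 / K', fun x hx => hlow x hx⟩
  have hl0 : 0 < l := lt_of_lt_of_le (by positivity) (le_csInf ⟨K, hKΛ⟩ hlow)
  -- lower bound
  have hlo : ∀ m : ℝ, 0 < m → m < l → ∀ q : V, 0 ≤ q → sg (1 : Q) m • q ≤ el z • q := by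
    intro m hm0 hml
    apply stepA hm z hz m hm0
    rintro ⟨q, hq, h⟩
    have : l ≤ m := csInf_le hbdd ⟨hm0, q, hq, h⟩
    linarith
  -- upper bound
  have hup : ∀ m : ℝ, l < m → ∀ q : V, 0 ≤ q → el z • q ≤ sg (1 : Q) m • q := by
    intro m hlm
    have hm0 : 0 < m := hl0.trans hlm
    apply stepB hm z hz m hm0
    rintro ⟨q, hq, h⟩
    obtain ⟨m', hm'Λ, hm'⟩ := exists_lt_of_csInf_lt ⟨K, hKΛ⟩ hlm
    obtain ⟨hm'0, q', hpq', hzq', K1, hK1, hqK'⟩ := norm m' hm'Λ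
    obtain ⟨a, ha, hpa, K2, hK2, h2⟩ := enl q hq
    set q1 := a • q with hq1
    have hq1pos : 0 < q1 := lt_of_lt_of_le hp hpa
    have hzq1 : sg (1 : Q) m • q1 ≤ el z • q1 := by
      rw [hq1, z_comm_pos z hz ha, S_comm]
      exact smul_le' ha h
    have hr0 : 0 < m' / m := div_pos hm'0 hm0
    have hr1 : m' / m < 1 := (div_lt_one hm0).2 hm'
    have iter : ∀ n : ℕ, q1 ≤ sg (1 : Q) (K2 * (m' / m) ^ n) • q' := by
      intro n
      induction n with
      | zero =>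
        rw [pow_zero, mul_one]
        exact h2.trans (S_le hK2 hpq')
      | succ n ih =>
        have hc : 0 < K2 * (m' / m) ^ n := mul_pos hK2 (pow_pos hr0 n)
        calc q1 = sg (1 : Q) m⁻¹ • (sg (1 : Q) m • q1) := by
              rw [S_mul, inv_mul_cancel₀ hm0.ne', S_one]
          _ ≤ sg (1 : Q) m⁻¹ • (el z • q1) := S_le (inv_pos.2 hm0) hzq1
          _ ≤ sg (1 : Q) m⁻¹ • (el z • (sg (1 : Q) (K2 * (m' / m) ^ n) • q')) :=
              S_le (inv_pos.2 hm0) (el_smul_le z ih)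
          _ = sg (1 : Q) (m⁻¹ * (K2 * (m' / m) ^ n)) • (el z • q') := by
              rw [← S_comm, S_mul]
          _ ≤ sg (1 : Q) (m⁻¹ * (K2 * (m' / m) ^ n)) • (sg (1 : Q) m' • q') :=
              S_le (mul_pos (inv_pos.2 hm0) hc) hzq'
          _ = sg (1 : Q) (K2 * (m' / m) ^ (n + 1)) • q' := by
              rw [S_mul]; congr 2; rw [pow_succ]; ring
    obtain ⟨n, hn⟩ := exists_pow_lt_of_lt_one (show (0:ℝ) < 1 / (K2 * K1) by positivity) hr1
    have h1 : q1 ≤ sg (1 : Q) (K2 * (m' / m) ^ n * K1) • q1 := by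
      calc q1 ≤ sg (1 : Q) (K2 * (m' / m) ^ n) • q' := iter n
        _ ≤ sg (1 : Q) (K2 * (m' / m) ^ n) • (sg (1 : Q) K1 • p) :=
            S_le (mul_pos hK2 (pow_pos hr0 n)) hqK'
        _ = sg (1 : Q) (K2 * (m' / m) ^ n * K1) • p := by rw [S_mul]
        _ ≤ _ := S_le (mul_pos (mul_pos hK2 (pow_pos hr0 n)) hK1) hpa
    refine S_contra ?_ hq1pos h1
    rw [lt_div_iff₀ (mul_pos hK2 hK1)] at hn
    linarith
  -- conclusion on positive elements
  have hpos : ∀ q : V, 0 ≤ q → el z • q = sg (1 : Q) l • q := by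
    intro q hq
    obtain ⟨Kq, hKq, hqK⟩ := hb q
    rw [← sub_eq_zero]
    apply hinf
    intro ε hε
    set δ : ℝ := min (ε / Kq) (l / 2) with hδ
    have hδ0 : 0 < δ := lt_min (by positivity) (by positivity)
    have hδl : δ < l := lt_of_le_of_lt (min_le_right _ _) (by linarith)
    have hδq : sg (1 : Q) δ • q ≤ sg (1 : Q) ε • p := by
      calc sg (1 : Q) δ • q ≤ sg (1 : Q) (ε / Kq) • q := S_mono (min_le_left _ _) hq
        _ ≤ sg (1 : Q) (ε / Kq) • (sg (1 : Q) Kq • p) := S_le (by positivity) hqK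
        _ = _ := by rw [S_mul, div_mul_cancel₀ _ hKq.ne']
    constructor
    · refine le_trans ?_ hδq
      rw [sub_le_iff_le_add, ← S_add]
      exact hup (δ + l) (by linarith) q hq
    · refine le_trans ?_ hδq
      rw [neg_sub, sub_le_iff_le_add]
      have h1 := hlo (l - δ) (by linarith) (by linarith) q hq
      calc sg (1 : Q) l • q = sg (1 : Q) δ • q + sg (1 : Q) (l - δ) • q := by
            rw [← S_add]; congr 2; ring
        _ ≤ _ := by gcongr
  refine ⟨l, hl0, fun v => ?_⟩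
  obtain ⟨c, hc, hcv⟩ := hb (-v)
  have h1 : 0 ≤ v + sg (1 : Q) c • p := by
    have := add_le_add_right hcv v
    rwa [add_neg_cancel] at this
  have h2 := hpos _ h1
  have h3 := hpos _ (OM.mono (1 : Q) c p hc hp.le)
  rw [smul_add, smul_add, h3] at h2
  exact add_right_cancel h2

end

end H294Ore
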